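import Pool.Agent.Helper29.MS.Base

/-!
MS-12. Two facts on `Ein` (`ein` of Helper58/BSD/TDefs, lemmas in TEin.lean).

PROOF of `lap_ein_bdd`. On `{0 < w.re}` the function `E w = w Lap ein w - log ((1 + w) / w)` is differentiable
(`differentiableOn_Lap` with `lapInt_ein`, `measurable_ein`; `(1 + w) / w = 1 + 1 / w` has real part `> 1`) and `exp (E w) = 1`
(`lap_ein`), so it is a constant `C0` (`const_of_exp`), so `‖w Lap ein w‖ ≤ ‖C0‖ + ‖log (1 + 1 / w)‖ ≤ ‖C0‖ + log 2 + π` for
`Re w ≥ 1` (`1 ≤ ‖1 + 1 / w‖ ≤ 2`; `tlog_norm_log`).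

PROOF of `ein_l2`. For `t ≥ 1`, `0 ≤ ein t - log t - γ = ∫_t^∞ e^{-u} / u du ≤ e^{-t}`: with `f t = ein t - log t`,
`f' t = (1 - e^{-t}) / t - 1 / t = - e^{-t} / t` for `t > 0` and `f t → γ` (`ein_log`). Simplest: `f` is antitone on `[1, ∞)` so `f t ≥ γ`,
and `f t - e^{-t}` is monotone on `[1, ∞)` (derivative `e^{-t} - e^{-t} / t ≥ 0`) with limit `γ`, so `f t ≤ γ + e^{-t}`.
So the square is at most `e^{-2 t}`, integrable; measurability from `measurable_ein`.
-/

set_option autoImplicit false

namespace Pool.Agent.Helper29.MS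

open Complex Filter Topology MeasureTheory Set Metric
open Pool.Agent.Helper13.Bsd Pool.Agent.Helper7.GW Pool.Agent.Helper58.BSD

private theorem EinL2_re {w : ℂ} (hw : 0 < w.re) : 1 < ((1 + w) / w).re := by
  have hw0 : w ≠ 0 := by
    rintro rfl
    simp at hw
  have h1 : (1 + w) / w = 1 + w⁻¹ := by
    field_simp
    ring
  rw [h1, Complex.add_re, Complex.one_re, Complex.inv_re]
  have h2 : 0 < Complex.normSq w := Complex.normSq_pos.2 hw0
  have := div_pos hw h2
  linarith

theorem lap_ein_bdd : ∃ C : ℝ, 0 ≤ C ∧ ∀ w : ℂ, 1 ≤ w.re → ‖w * Lap ein w‖ ≤ C := by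
  set U : Set ℂ := {w : ℂ | 0 < w.re} with hU
  set E : ℂ → ℂ := fun w => w * Lap ein w - Complex.log ((1 + w) / w) with hE
  have hUo : IsOpen U := isOpen_lt continuous_const Complex.continuous_re
  have hUc : IsPreconnected U := (convex_halfSpace_re_gt 0).isPreconnected
  have hne : ∀ w ∈ U, w ≠ 0 := by
    rintro w hw rfl
    simp [U] at hw
  have hslit : ∀ w ∈ U, (1 + w) / w ∈ Complex.slitPlane := fun w hw =>
    Or.inl (by have := EinL2_re (w := w) hw; linarith)
  have hd : DifferentiableOn ℂ E U := by
    apply DifferentiableOn.sub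
    · exact differentiableOn_id.mul
        (differentiableOn_Lap measurable_ein 0 fun x hx => lapInt_ein hx)
    · intro w hw
      apply DifferentiableAt.differentiableWithinAt
      refine DifferentiableAt.clog ?_ (hslit w hw)
      exact (by fun_prop : DifferentiableAt ℂ (fun w : ℂ => 1 + w) w).div differentiableAt_fun_id
        (hne w hw)
  have hexp : ∀ z ∈ U, cexp (E z) = 1 := by
    intro z hz
    have h0 : (1 + z) / z ≠ 0 := Complex.slitPlane_ne_zero (hslit z hz)
    simp only [hE]
    rw [Complex.exp_sub, lap_ein z hz, Complex.exp_log h0, div_self h0]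
  have hconst : ∀ w ∈ U, E w = E 1 := fun w hw =>
    const_of_exp hUo hUc hd hexp hw (by simp [U])
  refine ⟨‖E 1‖ + (Real.log 2 + Real.pi), by positivity, fun w hw => ?_⟩
  have hwU : w ∈ U := by
    show 0 < w.re
    linarith
  have h1 : w * Lap ein w = E 1 + Complex.log ((1 + w) / w) := by
    rw [← hconst w hwU]
    simp [hE]
  rw [h1]
  refine (norm_add_le _ _).trans (add_le_add le_rfl ((tlog_norm_log _).trans ?_))
  have hw1 : 1 ≤ ‖w‖ := hw.trans ((le_abs_self _).trans (Complex.abs_re_le_norm w))
  have h2 : 1 ≤ ‖(1 + w) / w‖ :=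
    (EinL2_re (w := w) hwU).le.trans ((le_abs_self _).trans (Complex.abs_re_le_norm _))
  have h3 : ‖(1 + w) / w‖ ≤ 2 := by
    rw [norm_div, div_le_iff₀ (by linarith)]
    have := norm_add_le (1 : ℂ) w
    rw [norm_one] at this
    linarith
  have h4 : |Real.log ‖(1 + w) / w‖| ≤ Real.log 2 := by
    rw [abs_of_nonneg (Real.log_nonneg h2)]
    exact Real.log_le_log (by linarith) h3
  linarith

private theorem EinL2_k1_ii (a b : ℝ) : IntervalIntegrable k1 volume a b := by
  have hd : Continuous (dslope (fun u : ℝ => 1 - Real.exp (-u)) 0) := by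
    rw [continuous_iff_continuousAt]
    intro x
    by_cases hx : x = 0
    · rw [hx, continuousAt_dslope_same]
      fun_prop
    · rw [continuousAt_dslope_of_ne hx]
      fun_prop
  refine (hd.intervalIntegrable a b).congr_ae ?_
  have h0 : ∀ᵐ u : ℝ ∂(volume.restrict (uIoc a b)), u ≠ 0 :=
    ae_restrict_of_ae (by simp [ae_iff])
  filter_upwards [h0] with u hu
  rw [dslope_of_ne _ hu, slope_def_field]
  simp [k1]

private theorem EinL2_deriv {t : ℝ} (ht : 0 < t) :
    HasDerivAt (fun t => ein t - Real.log t) (-(Real.exp (-t) / t)) t := by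
  have h1 : HasDerivAt ein (k1 t) t := by
    refine intervalIntegral.integral_hasDerivAt_right (EinL2_k1_ii 0 t) ?_ ?_
    · exact (measurable_k1.stronglyMeasurable).stronglyMeasurableAtFilter
    · exact ContinuousAt.div (by fun_prop) (by fun_prop) ht.ne'
  have h2 := h1.sub (Real.hasDerivAt_log ht.ne')
  have h3 : k1 t - t⁻¹ = -(Real.exp (-t) / t) := by
    unfold k1
    field_simp
    ring
  rw [h3] at h2
  exact h2

private theorem EinL2_bounds {t : ℝ} (ht : 1 ≤ t) :
    0 ≤ ein t - Real.log t - Real.eulerMascheroniConstant ∧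
      ein t - Real.log t - Real.eulerMascheroniConstant ≤ Real.exp (-t) := by
  have hanti : AntitoneOn (fun t => ein t - Real.log t) (Ici 1) := by
    refine antitoneOn_of_deriv_nonpos (convex_Ici 1) ?_ ?_ ?_
    · intro x hx
      have hx' : 0 < x := lt_of_lt_of_le one_pos hx
      exact (EinL2_deriv hx').continuousAt.continuousWithinAt
    · intro x hx
      rw [interior_Ici] at hx
      have hx' : 0 < x := one_pos.trans hx
      exact (EinL2_deriv hx').differentiableAt.differentiableWithinAt
    · intro x hx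
      rw [interior_Ici] at hx
      have hx' : 0 < x := one_pos.trans hx
      rw [(EinL2_deriv hx').deriv]
      have := div_pos (Real.exp_pos (-x)) hx'
      linarith
  have hder2 : ∀ x : ℝ, 0 < x → HasDerivAt (fun t => ein t - Real.log t - Real.exp (-t))
      (-(Real.exp (-x) / x) + Real.exp (-x)) x := by
    intro x hx
    have h1 : HasDerivAt (fun t : ℝ => Real.exp (-t)) (-Real.exp (-x)) x := by
      have := (hasDerivAt_neg x).exp
      simpa using this
    have h2 := (EinL2_deriv hx).sub h1
    rw [sub_neg_eq_add] at h2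
    exact h2
  have hmono : MonotoneOn (fun t => ein t - Real.log t - Real.exp (-t)) (Ici 1) := by
    refine monotoneOn_of_deriv_nonneg (convex_Ici 1) ?_ ?_ ?_
    · intro x hx
      have hx' : 0 < x := lt_of_lt_of_le one_pos hx
      exact (hder2 x hx').continuousAt.continuousWithinAt
    · intro x hx
      rw [interior_Ici] at hx
      have hx' : 0 < x := one_pos.trans hx
      exact (hder2 x hx').differentiableAt.differentiableWithinAt
    · intro x hx
      rw [interior_Ici] at hx
      have hx1 : 1 < x := hx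
      have hx' : 0 < x := one_pos.trans hx1
      rw [(hder2 x hx').deriv]
      have h1 : Real.exp (-x) / x ≤ Real.exp (-x) := by
        rw [div_le_iff₀ hx']
        nlinarith [Real.exp_pos (-x)]
      linarith
  have hlim2 : Tendsto (fun t => ein t - Real.log t - Real.exp (-t)) atTop
      (𝓝 Real.eulerMascheroniConstant) := by
    have h1 : Tendsto (fun t : ℝ => Real.exp (-t)) atTop (𝓝 0) := Real.tendsto_exp_neg_atTop_nhds_zero
    have := ein_log.sub h1
    rwa [sub_zero] at this
  constructor
  · have h1 : Real.eulerMascheroniConstant ≤ ein t - Real.log t := by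
      refine le_of_tendsto ein_log ?_
      filter_upwards [eventually_ge_atTop t] with s hs
      exact hanti ht (ht.trans hs) hs
    linarith
  · have h1 : ein t - Real.log t - Real.exp (-t) ≤ Real.eulerMascheroniConstant := by
      refine ge_of_tendsto hlim2 ?_
      filter_upwards [eventually_ge_atTop t] with s hs
      exact hmono ht (ht.trans hs) hs
    linarith

theorem ein_l2 : IntegrableOn (fun t => (ein t - Real.log t - Real.eulerMascheroniConstant) ^ 2) (Ioi (1 : ℝ)) := by
  have hint : IntegrableOn (fun t : ℝ => Real.exp (-2 * t)) (Ioi (1 : ℝ)) := by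
    have := integrableOn_exp_mul_Ioi (a := -2) (by norm_num) 1
    exact this
  refine Integrable.mono' hint ?_ ?_
  · exact (((measurable_ein.sub Real.measurable_log).sub_const _).pow_const 2).aestronglyMeasurable
  · rw [ae_restrict_iff' measurableSet_Ioi]
    filter_upwards with t ht
    have ht1 : (1 : ℝ) < t := ht
    obtain ⟨h1, h2⟩ := EinL2_bounds ht1.le
    rw [Real.norm_eq_abs, abs_of_nonneg (sq_nonneg _)]
    have h3 : Real.exp (-2 * t) = Real.exp (-t) ^ 2 := by
      rw [← Real.exp_nat_mul]
      congr 1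
      push_cast
      ring
    rw [h3]
    exact pow_le_pow_left₀ h1 h2 2

end Pool.Agent.Helper29.MS
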