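import Pool.Agent.Helper29.MS.Base

/-!
MS-9. Holomorphy of `Φ s = ∫ V (s + i τ) V (s - i τ) dτ`.

PROOF. `hasDerivAt_integral_of_dominated_loc_of_deriv_le` at `s0`, `Re s0 > 0`, on `ball s0 ε`, `ε = min (Re s0 / 4, 1)`. The integrand is
holomorphic in `s` for fixed `τ`, with derivative `V' (s + i τ) V (s - i τ) + V (s + i τ) V' (s - i τ)`. Cauchy's estimate
(`Complex.norm_deriv_le_of_forall_mem_sphere_norm_le` with radius `ε`) and `hb` with `σ0 = Re s0 / 4`: for `w.re ≥ Re s0 / 2`,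
`‖V' w‖ ≤ (C / ε) sup_{‖z - w‖ = ε} (1 + |z.im|) ^ (-3/4) ≤ (C / ε) 2 ^ (3/4) (1 + |w.im|) ^ (-3/4)` (`1 + |w.im| ≤ (1 + |z.im|) 2` since
`|z.im - w.im| ≤ 1`). For `s` in the ball, `(1 + |s.im ± τ|)⁻¹ ≤ (2 + |s0.im|) (1 + |τ|)⁻¹` (up to a constant), so the derivative is bounded
by `C' (1 + |τ|) ^ (-3/2)`, integrable (`integrable_one_add_norm` or `integrable_rpow_neg_one_add_norm_sq`). The same bound
gives the integrability of the integrand. Measurability: continuity in `τ`.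
-/

set_option autoImplicit false

namespace Pool.Agent.Helper29.MS

open Complex Filter Topology MeasureTheory Set Metric

private theorem ph_rpow {a b K : ℝ} (hb : 0 < b) (hK : 0 < K) (h : b ≤ K * a) :
    a ^ (-(3 / 4) : ℝ) ≤ K ^ (3 / 4 : ℝ) * b ^ (-(3 / 4) : ℝ) := by
  have h1 : b / K ≤ a := by rw [div_le_iff₀ hK]; linarith
  have h2 : 0 < b / K := div_pos hb hK
  have h3 := Real.rpow_le_rpow_of_nonpos h2 h1 (by norm_num : (-(3 / 4) : ℝ) ≤ 0)
  refine h3.trans (le_of_eq ?_)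
  rw [Real.div_rpow hb.le hK.le, Real.rpow_neg hK.le (3 / 4 : ℝ)]
  field_simp

theorem phi_hol {V : ℂ → ℂ} (hV : DifferentiableOn ℂ V {w : ℂ | 0 < w.re})
    (hb : ∀ σ0 : ℝ, 0 < σ0 → ∃ C : ℝ, 0 ≤ C ∧ ∀ w : ℂ, σ0 ≤ w.re →
      ‖V w‖ ≤ C * (1 + |w.im|) ^ (-(3 / 4) : ℝ)) :
    DifferentiableOn ℂ (fun s : ℂ => ∫ τ : ℝ, V (s + (τ : ℂ) * I) * V (s - (τ : ℂ) * I)) {s : ℂ | 0 < s.re} := by
  have hopen : IsOpen {w : ℂ | 0 < w.re} := isOpen_lt continuous_const Complex.continuous_re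
  intro s0 hs0
  have hs0' : 0 < s0.re := hs0
  obtain ⟨C, hC0, hC⟩ := hb (s0.re / 4) (by linarith)
  -- the radius
  obtain ⟨δ, hδ0, hδ1, hδ4⟩ : ∃ δ : ℝ, 0 < δ ∧ δ ≤ 1 ∧ δ ≤ s0.re / 4 :=
    ⟨min (s0.re / 4) 1, by positivity, min_le_right _ _, min_le_left _ _⟩
  -- constants
  set L : ℝ := 2 * (2 + |s0.im|) with hL
  have hLpos : 0 < L := by positivity
  set M : ℝ := L ^ (3 / 4 : ℝ) with hM
  have hMpos : 0 < M := Real.rpow_pos_of_pos hLpos _
  set u : ℝ → ℝ := fun τ => M * (1 + |τ|) ^ (-(3 / 4) : ℝ) with hu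
  have hu0 : ∀ τ, 0 ≤ u τ := fun τ => by positivity
  -- the bound for `V`
  have hVb : ∀ w : ℂ, ∀ τ : ℝ, s0.re / 4 ≤ w.re → 1 + |τ| ≤ L * (1 + |w.im|) → ‖V w‖ ≤ C * u τ := by
    intro w τ h1 h2
    refine (hC w h1).trans (mul_le_mul_of_nonneg_left ?_ hC0)
    exact ph_rpow (by positivity) hLpos h2
  -- the bound for the derivative
  have hVd : ∀ w : ℂ, ∀ τ : ℝ, s0.re / 2 ≤ w.re → 1 + |τ| ≤ (2 + |s0.im|) * (1 + |w.im|) →
      ‖deriv V w‖ ≤ C * u τ / δ := by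
    intro w τ h1 h2
    have hsub : closedBall w δ ⊆ {w : ℂ | 0 < w.re} := by
      intro z hz
      rw [mem_closedBall, dist_eq_norm] at hz
      have h3 := (Complex.abs_re_le_norm (z - w)).trans hz
      rw [Complex.sub_re, abs_le] at h3
      show 0 < z.re
      linarith [h3.1]
    refine Complex.norm_deriv_le_of_forall_mem_sphere_norm_le hδ0 ?_ ?_
    · refine DifferentiableOn.diffContOnCl ?_
      rw [closure_ball w hδ0.ne']
      exact hV.mono hsub
    · intro z hz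
      rw [mem_sphere, dist_eq_norm] at hz
      have h3 := Complex.abs_re_le_norm (z - w)
      have h4 := Complex.abs_im_le_norm (z - w)
      rw [hz] at h3 h4
      rw [Complex.sub_re, abs_le] at h3
      rw [Complex.sub_im] at h4
      refine hVb z τ (by linarith [h3.1]) ?_
      have h5 : |w.im| ≤ |z.im| + 1 := by
        have h6 := abs_sub_abs_le_abs_sub w.im z.im
        rw [abs_sub_comm] at h6
        linarith
      have h7 : 1 + |w.im| ≤ 2 * (1 + |z.im|) := by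
        have := abs_nonneg z.im
        linarith
      have h8 : (2 + |s0.im|) * (1 + |w.im|) ≤ (2 + |s0.im|) * (2 * (1 + |z.im|)) :=
        mul_le_mul_of_nonneg_left h7 (by positivity)
      rw [hL]
      linarith
  -- geometry of the ball
  have hball : ∀ s ∈ ball s0 δ, ∀ τ : ℝ,
      (s0.re / 2 ≤ (s + (τ : ℂ) * I).re ∧ 1 + |τ| ≤ (2 + |s0.im|) * (1 + |(s + (τ : ℂ) * I).im|)) ∧
      (s0.re / 2 ≤ (s - (τ : ℂ) * I).re ∧ 1 + |τ| ≤ (2 + |s0.im|) * (1 + |(s - (τ : ℂ) * I).im|)) := by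
    intro s hs τ
    rw [mem_ball, dist_eq_norm] at hs
    have h3 := (Complex.abs_re_le_norm (s - s0)).trans hs.le
    have h4 := (Complex.abs_im_le_norm (s - s0)).trans hs.le
    rw [Complex.sub_re, abs_le] at h3
    rw [Complex.sub_im] at h4
    have h5 : |s.im| ≤ |s0.im| + 1 := by
      have h6 := abs_sub_abs_le_abs_sub s.im s0.im
      linarith
    have e1 : (s + (τ : ℂ) * I).re = s.re := by simp
    have e2 : (s + (τ : ℂ) * I).im = s.im + τ := by simp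
    have e3 : (s - (τ : ℂ) * I).re = s.re := by simp
    have e4 : (s - (τ : ℂ) * I).im = s.im - τ := by simp
    rw [e1, e2, e3, e4]
    have key : ∀ y : ℝ, |τ| ≤ |y| + |s.im| → 1 + |τ| ≤ (2 + |s0.im|) * (1 + |y|) := by
      intro y hy
      have h7 := abs_nonneg y
      have h8 := abs_nonneg s0.im
      nlinarith [mul_nonneg h7 h8]
    refine ⟨⟨by linarith [h3.1], key _ ?_⟩, ⟨by linarith [h3.1], key _ ?_⟩⟩
    · have : τ = (s.im + τ) - s.im := by ring
      calc |τ| = |(s.im + τ) - s.im| := by rw [← this]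
        _ ≤ |s.im + τ| + |s.im| := abs_sub _ _
    · have : τ = s.im - (s.im - τ) := by ring
      calc |τ| = |s.im - (s.im - τ)| := by rw [← this]
        _ ≤ |s.im| + |s.im - τ| := abs_sub _ _
        _ = |s.im - τ| + |s.im| := add_comm _ _
  have hL2 : ∀ x : ℝ, ∀ τ : ℝ, 1 + |τ| ≤ (2 + |s0.im|) * (1 + |x|) → 1 + |τ| ≤ L * (1 + |x|) := by
    intro x τ h
    refine h.trans (mul_le_mul_of_nonneg_right ?_ (by positivity))
    rw [hL]
    have := abs_nonneg s0.im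
    linarith
  -- positivity of the real part on the ball
  have hpos : ∀ s ∈ ball s0 δ, ∀ τ : ℝ, s + (τ : ℂ) * I ∈ {w : ℂ | 0 < w.re} ∧
      s - (τ : ℂ) * I ∈ {w : ℂ | 0 < w.re} := by
    intro s hs τ
    obtain ⟨⟨a1, -⟩, ⟨a2, -⟩⟩ := hball s hs τ
    exact ⟨lt_of_lt_of_le (by linarith) a1, lt_of_lt_of_le (by linarith) a2⟩
  have hcontV : ∀ s ∈ ball s0 δ, Continuous (fun τ : ℝ => V (s + (τ : ℂ) * I)) ∧
      Continuous (fun τ : ℝ => V (s - (τ : ℂ) * I)) := by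
    intro s hs
    exact ⟨hV.continuousOn.comp_continuous (by fun_prop) (fun τ => (hpos s hs τ).1),
      hV.continuousOn.comp_continuous (by fun_prop) (fun τ => (hpos s hs τ).2)⟩
  have hdV : DifferentiableOn ℂ (deriv V) {w : ℂ | 0 < w.re} := hV.deriv hopen
  have hcontD : ∀ s ∈ ball s0 δ, Continuous (fun τ : ℝ => deriv V (s + (τ : ℂ) * I)) ∧
      Continuous (fun τ : ℝ => deriv V (s - (τ : ℂ) * I)) := by
    intro s hs
    exact ⟨hdV.continuousOn.comp_continuous (by fun_prop) (fun τ => (hpos s hs τ).1),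
      hdV.continuousOn.comp_continuous (by fun_prop) (fun τ => (hpos s hs τ).2)⟩
  have hmem : s0 ∈ ball s0 δ := mem_ball_self hδ0
  -- integrability of the dominating function
  have hint : ∀ K : ℝ, Integrable (fun τ : ℝ => K * (u τ * u τ)) := by
    intro K
    have h1 : Integrable (fun τ : ℝ => (1 + ‖τ‖) ^ (-(3 / 2) : ℝ)) :=
      integrable_one_add_norm (by rw [Module.finrank_self]; norm_num)
    have h2 := h1.const_mul (K * (M * M))
    refine h2.congr (Eventually.of_forall fun τ => ?_)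
    have h3 : (0 : ℝ) < 1 + |τ| := by positivity
    have h4 : (1 + |τ|) ^ (-(3 / 2) : ℝ) = (1 + |τ|) ^ (-(3 / 4) : ℝ) * (1 + |τ|) ^ (-(3 / 4) : ℝ) := by
      rw [← Real.rpow_add h3]
      norm_num
    simp only [hu, Real.norm_eq_abs]
    rw [h4]
    ring
  have hbd : ∀ s ∈ ball s0 δ, ∀ τ : ℝ, ‖V (s + (τ : ℂ) * I)‖ ≤ C * u τ ∧
      ‖V (s - (τ : ℂ) * I)‖ ≤ C * u τ ∧ ‖deriv V (s + (τ : ℂ) * I)‖ ≤ C * u τ / δ ∧
      ‖deriv V (s - (τ : ℂ) * I)‖ ≤ C * u τ / δ := by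
    intro s hs τ
    obtain ⟨⟨a1, a2⟩, ⟨b1, b2⟩⟩ := hball s hs τ
    exact ⟨hVb _ τ (by linarith) (hL2 _ _ a2), hVb _ τ (by linarith) (hL2 _ _ b2), hVd _ τ a1 a2,
      hVd _ τ b1 b2⟩
  have main := hasDerivAt_integral_of_dominated_loc_of_deriv_le (μ := volume) (𝕜 := ℂ)
    (F := fun (s : ℂ) (τ : ℝ) => V (s + (τ : ℂ) * I) * V (s - (τ : ℂ) * I))
    (F' := fun (s : ℂ) (τ : ℝ) => deriv V (s + (τ : ℂ) * I) * V (s - (τ : ℂ) * I) +
      V (s + (τ : ℂ) * I) * deriv V (s - (τ : ℂ) * I))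
    (x₀ := s0) (s := ball s0 δ) (bound := fun τ => (2 * (C * C) / δ) * (u τ * u τ))
    (ball_mem_nhds s0 hδ0)
    (by
      filter_upwards [ball_mem_nhds s0 hδ0] with s hs
      exact ((hcontV s hs).1.mul (hcontV s hs).2).aestronglyMeasurable)
    (by
      refine (hint (C * C)).mono' ((hcontV s0 hmem).1.mul (hcontV s0 hmem).2).aestronglyMeasurable
        (Eventually.of_forall fun τ => ?_)
      obtain ⟨a1, a2, -, -⟩ := hbd s0 hmem τ
      rw [norm_mul]
      calc ‖V (s0 + (τ : ℂ) * I)‖ * ‖V (s0 - (τ : ℂ) * I)‖ ≤ (C * u τ) * (C * u τ) :=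
            mul_le_mul a1 a2 (norm_nonneg _) (mul_nonneg hC0 (hu0 τ))
        _ = C * C * (u τ * u τ) := by ring)
    (by
      exact (((hcontD s0 hmem).1.mul (hcontV s0 hmem).2).add
        ((hcontV s0 hmem).1.mul (hcontD s0 hmem).2)).aestronglyMeasurable)
    (Eventually.of_forall fun τ s hs => by
      obtain ⟨a1, a2, a3, a4⟩ := hbd s hs τ
      have hn : 0 ≤ C * u τ := mul_nonneg hC0 (hu0 τ)
      refine (norm_add_le _ _).trans ?_
      rw [norm_mul, norm_mul]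
      calc ‖deriv V (s + (τ : ℂ) * I)‖ * ‖V (s - (τ : ℂ) * I)‖ +
            ‖V (s + (τ : ℂ) * I)‖ * ‖deriv V (s - (τ : ℂ) * I)‖
          ≤ (C * u τ / δ) * (C * u τ) + (C * u τ) * (C * u τ / δ) :=
            add_le_add (mul_le_mul a3 a2 (norm_nonneg _) (by positivity))
              (mul_le_mul a1 a4 (norm_nonneg _) hn)
        _ = 2 * (C * C) / δ * (u τ * u τ) := by ring)
    (hint _)
    (Eventually.of_forall fun τ s hs => by
      have d1 : HasDerivAt V (deriv V (s + (τ : ℂ) * I)) (s + (τ : ℂ) * I) :=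
        (hV.differentiableAt (hopen.mem_nhds (hpos s hs τ).1)).hasDerivAt
      have d2 : HasDerivAt V (deriv V (s - (τ : ℂ) * I)) (s - (τ : ℂ) * I) :=
        (hV.differentiableAt (hopen.mem_nhds (hpos s hs τ).2)).hasDerivAt
      have g1 : HasDerivAt (fun z : ℂ => V (z + (τ : ℂ) * I)) (deriv V (s + (τ : ℂ) * I)) s :=
        d1.comp_add_const s ((τ : ℂ) * I)
      have g2 : HasDerivAt (fun z : ℂ => V (z - (τ : ℂ) * I)) (deriv V (s - (τ : ℂ) * I)) s :=
        d2.comp_sub_const s ((τ : ℂ) * I)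
      exact g1.mul g2)
  exact main.2.differentiableAt.differentiableWithinAt

end Pool.Agent.Helper29.MS
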