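import Pool.Agent.Helper29.MS.Planch
import Pool.Agent.Helper29.MS.PhiHol
import Pool.Agent.Helper13.Bsd.Continue

/-!
MS-10. Landau's theorem for `u²`: the mean square identity up to the boundary.

PROOF. `b t = u t ^ 2` is measurable, `≥ 0`, `|b t| ≤ A² e^{2 a t}`, so `LapInt b x` for `x > 2 a`, and `LapInt u x` for `x > a`. `Φ` as in `phi_hol`.
(1) For real `σ > a`: `Φ σ = ∫ V (σ + i τ) conj (V (σ + i τ)) = ∫ ‖V‖² = ∫ ‖Lap u‖² = 2 π Lap b (2 σ)` (`hconj`, `hVu`, `planch`).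
(2) `Φ s = 2 π Lap b (2 s)` for `Re s > a`: both sides are analytic there (`phi_hol`, `differentiableOn_Lap`) and agree on the real half line
(identity theorem `AnalyticOnNhd.eqOn_of_preconnected_of_frequently_eq`).
(3) Suppose `LapInt b x` fails for some `x > 0`; `σ0 := sSup {x > 0 | ¬ LapInt b x}`, as in `landau_setup` (Helper58/BSD/TLand.lean).
`LapInt b x` for `x > σ0`, not for `0 < x < σ0` (`LapInt.mono`). `Lap b z = Φ (z / 2) / (2 π)` for `Re z > σ0` (identity theorem again).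
`landau (dens b) (ae_nonneg_dens b) (-σ0) .. (fun z => Φ (-z / 2) / (2 π)) ρ ..` with `3 ρ = σ0` (`integrable_dens_iff`,
`integral_dens` of Helper13/Bsd/Continue) gives `LapInt b (σ0 - ρ / 2)`, a contradiction.
(4) So `LapInt b x` for all `x > 0` and `Φ s = 2 π Lap b (2 s)` for `Re s > 0`; at `s = σ` take real parts: `Φ σ = ∫ ‖V (σ + i τ)‖²`.
-/

set_option autoImplicit false

namespace Pool.Agent.Helper29.MS

open Complex Filter Topology MeasureTheory Set Metric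
open Pool.Agent.Helper13.Bsd Pool.Agent.Helper7.GW

theorem sq_cont {u : ℝ → ℝ} {V : ℂ → ℂ} {A a : ℝ} (hu : Grow u A a)
    (hV : DifferentiableOn ℂ V {w : ℂ | 0 < w.re})
    (hb : ∀ σ0 : ℝ, 0 < σ0 → ∃ C : ℝ, 0 ≤ C ∧ ∀ w : ℂ, σ0 ≤ w.re →
      ‖V w‖ ≤ C * (1 + |w.im|) ^ (-(3 / 4) : ℝ))
    (hconj : ∀ w : ℂ, 0 < w.re → V ((starRingEnd ℂ) w) = (starRingEnd ℂ) (V w))
    (hVu : ∀ w : ℂ, a < w.re → V w = Lap u w) (σ : ℝ) (hσ : 0 < σ) :
    LapInt (fun t => u t ^ 2) (2 * σ) ∧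
    2 * Real.pi * ∫ t in Ioi (0 : ℝ), u t ^ 2 * Real.exp (-(2 * σ) * t) =
      ∫ τ : ℝ, ‖V ((σ : ℂ) + (τ : ℂ) * I)‖ ^ 2 := by
  have ha := hu.ha
  have hA := hu.hA
  set b : ℝ → ℝ := fun t => u t ^ 2 with hbdef
  have hbm : Measurable b := hu.meas.pow_const 2
  have hb0 : ∀ t, 0 ≤ b t := fun t => sq_nonneg _
  have hgb : Grow b (A ^ 2) (2 * a) := by
    refine ⟨hbm, by positivity, by linarith, fun t ht => ?_⟩
    have h1 := hu.bd t ht
    have h2 : |b t| = |u t| ^ 2 := by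
      simp only [hbdef]
      rw [abs_pow]
    rw [h2]
    calc |u t| ^ 2 ≤ (A * Real.exp (a * t)) ^ 2 := by gcongr
      _ = A ^ 2 * Real.exp (2 * a * t) := by
        rw [mul_pow, ← Real.exp_nat_mul]
        congr 2
        push_cast
        ring
  have hbl : ∀ x, 2 * a < x → LapInt b x := fun x hx =>
    Pool.Agent.Helper58.BSD.lapInt_of_grow hgb x hx
  set Φ : ℂ → ℂ := fun s : ℂ => ∫ τ : ℝ, V (s + (τ : ℂ) * I) * V (s - (τ : ℂ) * I) with hΦdef
  have hΦ : DifferentiableOn ℂ Φ {s : ℂ | 0 < s.re} := phi_hol hV hb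
  have hΦreal : ∀ x : ℝ, 0 < x →
      Φ (x : ℂ) = ((∫ τ : ℝ, ‖V ((x : ℂ) + (τ : ℂ) * I)‖ ^ 2 : ℝ) : ℂ) := by
    intro x hx
    simp only [hΦdef]
    rw [← integral_complex_ofReal]
    congr 1
    funext τ
    have h1 : (x : ℂ) - (τ : ℂ) * I = (starRingEnd ℂ) ((x : ℂ) + (τ : ℂ) * I) := by
      rw [map_add, map_mul, conj_ofReal, conj_ofReal, conj_I]
      ring
    have h2 : 0 < ((x : ℂ) + (τ : ℂ) * I).re := by simpa using hx
    rw [h1, hconj _ h2, mul_conj, normSq_eq_norm_sq]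
  have hreal : ∀ x : ℝ, a < x → Φ (x : ℂ) = 2 * Real.pi * Lap b (2 * (x : ℂ)) := by
    intro x hx
    have hx0 : 0 < x := by linarith
    rw [hΦreal x hx0]
    have h1 := (planch hu.meas x (Pool.Agent.Helper58.BSD.lapInt_of_grow hu x hx)
      (hbl (2 * x) (by linarith))).2
    have h2 : (∫ τ : ℝ, ‖V ((x : ℂ) + (τ : ℂ) * I)‖ ^ 2)
        = ∫ τ : ℝ, ‖Lap u ((x : ℂ) + (τ : ℂ) * I)‖ ^ 2 := by
      congr 1
      funext τ
      rw [hVu _ (by simpa using hx)]
    rw [h2, h1]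
    have h3 := re_Lap_ofReal b (2 * x)
    have h4 : (2 * (x : ℂ)) = ((2 * x : ℝ) : ℂ) := by push_cast; ring
    rw [h4, h3]
    push_cast
    ring
  have hid : ∀ θ : ℝ, 0 ≤ θ → (∀ x, 2 * θ < x → LapInt b x) → ∀ s : ℂ, θ < s.re →
      Φ s = 2 * Real.pi * Lap b (2 * s) := by
    intro θ hθ hint s hs
    have hopen : IsOpen {w : ℂ | θ < w.re} := isOpen_lt continuous_const continuous_re
    have hpre : IsPreconnected {w : ℂ | θ < w.re} := (convex_halfSpace_re_gt θ).isPreconnected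
    have ha1 : AnalyticOnNhd ℂ Φ {w : ℂ | θ < w.re} := by
      apply DifferentiableOn.analyticOnNhd _ hopen
      exact hΦ.mono fun w hw => hθ.trans_lt hw
    have ha2 : AnalyticOnNhd ℂ (fun s => 2 * Real.pi * Lap b (2 * s)) {w : ℂ | θ < w.re} := by
      apply DifferentiableOn.analyticOnNhd _ hopen
      apply DifferentiableOn.const_mul
      refine (differentiableOn_Lap hbm (2 * θ) hint).comp
        (differentiableOn_id.const_mul (2 : ℂ)) ?_
      intro w hw
      have hw' : θ < w.re := hw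
      show 2 * θ < (2 * w).re
      simp only [mul_re, re_ofNat, im_ofNat, zero_mul, sub_zero]
      linarith
    set x0 : ℝ := θ + a + 1 with hx0
    have hz0 : ((x0 : ℝ) : ℂ) ∈ {w : ℂ | θ < w.re} := by
      show θ < ((x0 : ℝ) : ℂ).re
      rw [ofReal_re]; linarith
    have hT : Tendsto (fun x : ℝ => (x : ℂ)) (𝓝[≠] x0) (𝓝[≠] (x0 : ℂ)) := by
      refine tendsto_nhdsWithin_iff.mpr ⟨?_, ?_⟩
      · exact (continuous_ofReal.tendsto x0).mono_left nhdsWithin_le_nhds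
      · filter_upwards [self_mem_nhdsWithin] with x hx
        intro h
        exact hx (ofReal_injective h)
    have hev : ∀ᶠ x : ℝ in 𝓝[≠] x0, Φ (x : ℂ) = 2 * Real.pi * Lap b (2 * (x : ℂ)) := by
      have h1 : ∀ᶠ x : ℝ in 𝓝 x0, a < x := lt_mem_nhds (by linarith)
      filter_upwards [h1.filter_mono nhdsWithin_le_nhds] with x hx using hreal x hx
    have hfr : ∃ᶠ z in 𝓝[≠] (x0 : ℂ), Φ z = 2 * Real.pi * Lap b (2 * z) :=
      hT.frequently hev.frequently
    exact ha1.eqOn_of_preconnected_of_frequently_eq ha2 hpre hz0 hfr hs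
  have hkey : ∀ x, 0 < x → LapInt b x := by
    by_contra hcon
    push Not at hcon
    obtain ⟨x1, hx1, hx1n⟩ := hcon
    set B : Set ℝ := {x | 0 < x ∧ ¬ LapInt b x} with hB
    have hBne : B.Nonempty := ⟨x1, hx1, hx1n⟩
    have hBbdd : BddAbove B := by
      refine ⟨2 * a + 1, ?_⟩
      rintro x ⟨-, hx⟩
      by_contra h
      push Not at h
      exact hx (hbl x (by linarith))
    set σ0 := sSup B with hσ0
    have hσpos : 0 < σ0 := lt_of_lt_of_le hx1 (le_csSup hBbdd ⟨hx1, hx1n⟩)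
    have hgt : ∀ x, σ0 < x → LapInt b x := by
      intro x hx
      by_contra h
      have : x ≤ σ0 := le_csSup hBbdd ⟨hσpos.trans hx, h⟩
      linarith
    have hlt : ∀ x, 0 < x → x < σ0 → ¬ LapInt b x := by
      intro x hx hxσ h
      obtain ⟨y, hy, hxy⟩ := exists_lt_of_lt_csSup hBne hxσ
      exact hy.2 (h.mono hbm hxy.le)
    set ρ := σ0 / 3 with hρ
    have hρ0 : 0 < ρ := by positivity
    have h3ρ : 3 * ρ = σ0 := by rw [hρ]; ring
    have hball : ∀ z ∈ Metric.ball ((-σ0 : ℝ) : ℂ) (3 * ρ), 0 < (-z / 2).re := by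
      intro z hz
      rw [h3ρ, Metric.mem_ball, dist_eq_norm] at hz
      have h2 := (abs_lt.mp ((abs_re_le_norm (z - ((-σ0 : ℝ) : ℂ))).trans_lt hz)).2
      simp only [sub_re, ofReal_re] at h2
      have h3 : (-z / 2).re = -z.re / 2 := by
        simp
      rw [h3]
      linarith
    have hpi : (2 * (Real.pi : ℂ)) ≠ 0 := by
      simp [Real.pi_ne_zero]
    have hL := landau (dens b) (ae_nonneg_dens b) (-σ0) ?_ (fun z => Φ (-z / 2) / (2 * Real.pi)) ρ hρ0 ?_ ?_
    · rw [integrable_dens_iff hbm hb0] at hL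
      have hx : -(-σ0 + ρ / 2) = σ0 - ρ / 2 := by ring
      rw [hx] at hL
      exact hlt (σ0 - ρ / 2) (by linarith) (by linarith) hL
    · intro x hx
      rw [integrable_dens_iff hbm hb0]
      exact hgt (-x) (by linarith)
    · apply DifferentiableOn.div_const
      exact hΦ.comp ((differentiableOn_id.neg).div_const 2) hball
    · intro z hz hzre
      rw [integral_dens hbm hb0]
      have h1 : σ0 / 2 < (-z / 2).re := by
        have h3 : (-z / 2).re = -z.re / 2 := by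
          simp
        rw [h3]
        linarith
      have h2 := hid (σ0 / 2) (by positivity) (fun x hx => hgt x (by linarith)) (-z / 2) h1
      have h3 : 2 * (-z / 2) = -z := by ring
      rw [h3] at h2
      show Lap b (-z) = Φ (-z / 2) / (2 * Real.pi)
      rw [h2, mul_div_cancel_left₀ _ hpi]
  refine ⟨hkey (2 * σ) (by positivity), ?_⟩
  have h1 := hid 0 le_rfl (fun x hx => hkey x (by linarith)) (σ : ℂ) (by rw [ofReal_re]; exact hσ)
  have h2 := re_Lap_ofReal b (2 * σ)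
  have h4 : (2 * (σ : ℂ)) = ((2 * σ : ℝ) : ℂ) := by push_cast; ring
  rw [hΦreal σ hσ, h4, h2] at h1
  have h5 : (((∫ τ : ℝ, ‖V ((σ : ℂ) + (τ : ℂ) * I)‖ ^ 2 : ℝ)) : ℂ)
      = ((2 * Real.pi * ∫ t in Ioi (0 : ℝ), b t * Real.exp (-(2 * σ) * t) : ℝ) : ℂ) := by
    rw [h1]
    push_cast
    ring
  exact (ofReal_injective h5).symm

end Pool.Agent.Helper29.MS
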