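import Pool.Agent.Helper29.MS.H2
import Pool.Agent.Helper29.MS.SqCont

/-!
MS-11. Order zero: `v - κ` is square integrable.

PROOF. `L` from `exists_branch`, `κ = kap G`, `V = VV L κ`, `u t = v t - κ`: `Grow u (A + |κ|) a` (`1 ≤ e^{a t}`). `V w = Lap u w` for
`Re w > a`: `Lap u w = Lap v w - κ / w` (`Lap_sub` in the library, or directly) and `L w = - w Lap v w`. `V (conj w) = conj (V w)` from
`hL.conj`. `sq_cont` (with `vv_growth`) and `h2_bound`: `2 π ∫ u² e^{-2 σ t} ≤ K` for `0 < σ ≤ 1`, with `u² e^{-2 σ t}` integrable. Let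
`σ = 1 / (n + 1) → 0`: Fatou (`lintegral_liminf_le`) or monotone convergence gives `∫⁻ u² ≤ K / (2 π) < ∞`, so `u²` is integrable
on `Ioi 0`.
-/

set_option autoImplicit false

namespace Pool.Agent.Helper29.MS

open Complex Filter Topology MeasureTheory Set Metric
open Pool.Agent.Helper13.Bsd Pool.Agent.Helper7.GW Pool.Agent.Helper58.BSD

variable {v : ℝ → ℝ} {G : ℂ → ℂ} {A a η B c : ℝ} {k : ℕ}

private theorem l2_lapInt {f : ℝ → ℝ} {A a : ℝ} (h : Grow f A a) {x : ℝ} (hx : a < x) : LapInt f x := by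
  unfold LapInt
  have hint : IntegrableOn (fun t : ℝ => A * Real.exp (-(x - a) * t)) (Ioi (0 : ℝ)) :=
    (exp_neg_integrableOn_Ioi 0 (by linarith : (0 : ℝ) < x - a)).const_mul A
  refine Integrable.mono' hint ?_ ?_
  · exact (h.meas.mul (by fun_prop)).aestronglyMeasurable
  · rw [ae_restrict_iff' measurableSet_Ioi]
    filter_upwards with t ht
    have h1 := h.bd t ht
    rw [norm_mul, Real.norm_eq_abs, Real.norm_eq_abs, Real.abs_exp]
    calc |f t| * Real.exp (-x * t) ≤ (A * Real.exp (a * t)) * Real.exp (-x * t) :=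
          mul_le_mul_of_nonneg_right h1 (Real.exp_pos _).le
      _ = A * Real.exp (-(x - a) * t) := by
          rw [mul_assoc, ← Real.exp_add]
          ring_nf

private theorem l2_lap_const (κ : ℝ) {w : ℂ} (hw : 0 < w.re) : Lap (fun _ => κ) w = (κ : ℂ) / w := by
  unfold Lap
  rw [integral_const_mul]
  have h1 : ∫ t in Ioi (0 : ℝ), cexp (-w * t) = -cexp (-w * ((0 : ℝ) : ℂ)) / (-w) :=
    integral_exp_mul_complex_Ioi (by simpa using hw) 0
  rw [h1]
  have hw0 : w ≠ 0 := by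
    intro h
    rw [h] at hw
    simp at hw
  simp only [ofReal_zero, mul_zero, Complex.exp_zero]
  field_simp

private theorem l2_fatou {u : ℝ → ℝ} (hm : Measurable u) {M : ℝ}
    (h : ∀ σ : ℝ, 0 < σ → σ ≤ 1 → IntegrableOn (fun t => u t ^ 2 * Real.exp (-(2 * σ) * t)) (Ioi (0 : ℝ)) ∧
      ∫ t in Ioi (0 : ℝ), u t ^ 2 * Real.exp (-(2 * σ) * t) ≤ M) :
    IntegrableOn (fun t => u t ^ 2) (Ioi (0 : ℝ)) := by
  have hm2 : Measurable (fun t => u t ^ 2) := hm.pow_const 2
  have h1 : ∀ n : ℕ, ∫⁻ t in Ioi (0 : ℝ),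
      ENNReal.ofReal (u t ^ 2 * Real.exp (-(2 * (1 / ((n : ℝ) + 1))) * t)) ≤ ENNReal.ofReal M := by
    intro n
    have hn : (0 : ℝ) < 1 / ((n : ℝ) + 1) := by positivity
    have hn1 : 1 / ((n : ℝ) + 1) ≤ 1 := by
      rw [div_le_one (by positivity)]
      have : (0 : ℝ) ≤ n := n.cast_nonneg
      linarith
    obtain ⟨h2, h3⟩ := h _ hn hn1
    rw [← ofReal_integral_eq_lintegral_ofReal h2 (Eventually.of_forall fun t => by positivity)]
    exact ENNReal.ofReal_le_ofReal h3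
  have h2 : ∫⁻ t in Ioi (0 : ℝ), ENNReal.ofReal (u t ^ 2) ≤ ENNReal.ofReal M := by
    have h3 : ∀ t : ℝ, liminf (fun n : ℕ =>
        ENNReal.ofReal (u t ^ 2 * Real.exp (-(2 * (1 / ((n : ℝ) + 1))) * t))) atTop =
        ENNReal.ofReal (u t ^ 2) := by
      intro t
      apply Tendsto.liminf_eq
      apply ENNReal.tendsto_ofReal
      have h4 : Tendsto (fun n : ℕ => 1 / ((n : ℝ) + 1)) atTop (𝓝 0) :=
        tendsto_one_div_add_atTop_nhds_zero_nat
      have h5 : Tendsto (fun n : ℕ => u t ^ 2 * Real.exp (-(2 * (1 / ((n : ℝ) + 1))) * t)) atTop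
          (𝓝 (u t ^ 2 * Real.exp (-(2 * 0) * t))) :=
        (Real.continuous_exp.tendsto _).comp (((h4.const_mul 2).neg).mul_const t) |>.const_mul _
      simpa using h5
    calc ∫⁻ t in Ioi (0 : ℝ), ENNReal.ofReal (u t ^ 2)
        = ∫⁻ t in Ioi (0 : ℝ), liminf (fun n : ℕ =>
            ENNReal.ofReal (u t ^ 2 * Real.exp (-(2 * (1 / ((n : ℝ) + 1))) * t))) atTop :=
          lintegral_congr fun t => (h3 t).symm
      _ ≤ liminf (fun n : ℕ => ∫⁻ t in Ioi (0 : ℝ),
            ENNReal.ofReal (u t ^ 2 * Real.exp (-(2 * (1 / ((n : ℝ) + 1))) * t))) atTop :=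
          lintegral_liminf_le fun n => (hm2.mul (by fun_prop)).ennreal_ofReal
      _ ≤ liminf (fun _ : ℕ => ENNReal.ofReal M) atTop :=
          liminf_le_liminf (Eventually.of_forall h1)
      _ = ENNReal.ofReal M := liminf_const _
  refine ⟨hm2.aestronglyMeasurable, ?_⟩
  rw [hasFiniteIntegral_iff_ofReal (Eventually.of_forall fun t => by positivity)]
  exact h2.trans_lt ENNReal.ofReal_lt_top

theorem l2_zero (hF : Frame v G A a η B c k) : IntegrableOn (fun t => (v t - kap G) ^ 2) (Ioi (0 : ℝ)) := by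
  obtain ⟨L, hL⟩ := exists_branch hF
  have ha : 0 ≤ a := hF.setup.grow.ha
  have hgu : Grow (fun t => v t - kap G) (A + |kap G|) a := by
    refine ⟨hF.setup.grow.meas.sub_const _, add_nonneg hF.setup.grow.hA (abs_nonneg _), ha, fun t ht => ?_⟩
    have h1 := hF.setup.grow.bd t ht
    have h2 : (1 : ℝ) ≤ Real.exp (a * t) := Real.one_le_exp (by positivity)
    have h3 : |kap G| * 1 ≤ |kap G| * Real.exp (a * t) := mul_le_mul_of_nonneg_left h2 (abs_nonneg _)
    have h4 : |v t - kap G| ≤ |v t| + |kap G| := abs_sub _ _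
    rw [add_mul]
    linarith
  have hne : ∀ w : ℂ, 0 < w.re → w ≠ 0 := by
    intro w hw h
    rw [h] at hw
    simp at hw
  have hV : DifferentiableOn ℂ (VV L (kap G)) {w : ℂ | 0 < w.re} := by
    have h1 : DifferentiableOn ℂ (fun w => -(L w + (kap G : ℂ)) / w) {w : ℂ | 0 < w.re} :=
      ((hL.diff.add_const _).neg).div differentiableOn_id fun w hw => hne w hw
    exact h1
  have hconj : ∀ w : ℂ, 0 < w.re →
      VV L (kap G) ((starRingEnd ℂ) w) = (starRingEnd ℂ) (VV L (kap G) w) := by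
    intro w hw
    unfold VV
    rw [hL.conj w hw, map_div₀, map_neg, map_add, conj_ofReal]
  have hVu : ∀ w : ℂ, a < w.re → VV L (kap G) w = Lap (fun t => v t - kap G) w := by
    intro w hw
    have hw0 : 0 < w.re := ha.trans_lt hw
    have hg0 : Grow (fun _ : ℝ => kap G) |kap G| 0 :=
      ⟨measurable_const, abs_nonneg _, le_rfl, fun t _ => by simp⟩
    rw [Lap_sub hF.setup.grow.meas measurable_const (l2_lapInt hF.setup.grow hw) (l2_lapInt hg0 hw0),
      l2_lap_const _ hw0]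
    unfold VV
    rw [hL.eq w hw]
    have := hne w hw0
    field_simp
    ring
  obtain ⟨K, hK, hb⟩ := h2_bound hF hL
  refine l2_fatou (M := K / (2 * Real.pi)) hgu.meas fun σ hσ hσ1 => ?_
  obtain ⟨h1, h2⟩ := sq_cont hgu hV (fun σ0 h => vv_growth hF hL σ0 h) hconj hVu σ hσ
  refine ⟨h1, ?_⟩
  rw [le_div_iff₀ (by positivity), mul_comm]
  exact h2.trans_le (hb σ hσ hσ1).2

end Pool.Agent.Helper29.MS
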