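import Pool.Agent.Helper29.MS.L2
import Pool.Agent.Helper29.MS.EinL2

/-!
MS-13. Reduction of order `r` to order zero.

PROOF. `factor_order hS r g hg0 hg` gives `G1`, `setup_reduce` gives
`Setup (v - r ein) G0 (A + r) (a + 1) η`, `G0 s = G1 s (1 + s) ^ r`, `‖G0 0‖ = g`, so `kap G0 = - log g` (as in `abs_tendsto` in
Helper58/BSD/TTop.lean). `Frame` for `G0`, `a' = a + 1`, `c' = max c (a + 2)` (`a ≥ 0`, so `c' ≥ 1`), `η' = η / 2`, some `B'`, `k' = k + r`:
(rh) `G s = s ^ r G1 s ≠ 0` and `1 + s ≠ 0`. (growth) on the compact `closedBall 0 (η / 2) ⊆ {-η < s.re}` `G0` is bounded (continuous).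
For `‖s‖ ≥ η / 2`, `s.re > -η`: `‖G1 s‖ = ‖G s‖ / ‖s‖ ^ r ≤ ‖G s‖ (2 / η) ^ r` and `‖1 + s‖ ^ r ≤ (1 + ‖s‖) ^ r`. (Note `Setup` with `η`
restricts to `Setup` with `η / 2`, or keep `η`: the bound holds for all `s.re > -η`.) (right) for `s.re ≥ c'`:
`s Lap (v - r ein) s = s Lap v s - r s Lap ein s` (linearity: `lapInt_of_grow`, `lapInt_ein`), bounded by `B + r C` (`lap_ein_bdd`).
`l2_zero`: `v - r ein + log g ∈ L²(0, ∞)`. `ein_l2`: `r (ein - log t - γ) ∈ L²(1, ∞)`. Sum (`(x + y)² ≤ 2 x² + 2 y²`, measurability):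
`v - r log t - (r γ - log g) = (v - r ein + log g) + r (ein - log t - γ)`.
-/

set_option autoImplicit false

namespace Pool.Agent.Helper29.MS

open Complex Filter Topology MeasureTheory Set Metric
open Pool.Agent.Helper13.Bsd Pool.Agent.Helper7.GW Pool.Agent.Helper58.BSD

variable {v : ℝ → ℝ} {G : ℂ → ℂ} {A a η B c : ℝ} {k : ℕ}

private theorem lapInt_of_grow' (h : Grow v A a) {x : ℝ} (hx : a < x) : LapInt v x := by
  unfold LapInt
  have h1 : IntegrableOn (fun t : ℝ => A * Real.exp (-(x - a) * t)) (Ioi (0 : ℝ)) :=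
    (exp_neg_integrableOn_Ioi 0 (sub_pos.2 hx)).const_mul A
  refine Integrable.mono' h1 ?_ ?_
  · exact (h.meas.mul (Real.measurable_exp.comp (measurable_const.mul measurable_id))).aestronglyMeasurable
  · rw [ae_restrict_iff' measurableSet_Ioi]
    refine Eventually.of_forall fun t ht => ?_
    have ht0 : 0 < t := ht
    rw [norm_mul, Real.norm_eq_abs, Real.norm_eq_abs, abs_of_pos (Real.exp_pos _)]
    calc |v t| * Real.exp (-x * t) ≤ (A * Real.exp (a * t)) * Real.exp (-x * t) :=
          mul_le_mul_of_nonneg_right (h.bd t ht0) (Real.exp_pos _).le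
      _ = A * Real.exp (-(x - a) * t) := by
          rw [mul_assoc, ← Real.exp_add]
          congr 2
          ring

theorem l2_order (hS : Setup v G A a η) (r : ℕ) (g : ℝ) (hg0 : 0 < g)
    (hg : Tendsto (fun y : ℝ => ‖G (y : ℂ)‖ / y ^ r) (𝓝[>] 0) (𝓝 g))
    (hrh : ∀ s : ℂ, 0 < s.re → G s ≠ 0)
    (hgr : ∀ s : ℂ, -η < s.re → ‖G s‖ ≤ B * (1 + ‖s‖) ^ k)
    (hr : ∀ s : ℂ, c ≤ s.re → ‖s * Lap v s‖ ≤ B) :
    IntegrableOn (fun t => (v t - r * Real.log t - (r * Real.eulerMascheroniConstant - Real.log g)) ^ 2)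
      (Ioi (1 : ℝ)) := by
  obtain ⟨G1, hG1, hfac, hG10⟩ := factor_order hS r g hg0 hg
  have hS0 := setup_reduce hS r G1 hG1 hfac
  have hη := hS.hη
  have ha := hS.grow.ha
  have h0 : (fun s => G1 s * (1 + s) ^ r) (0 : ℂ) ≠ 0 := by
    simp only [add_zero, one_pow, mul_one]
    rw [← norm_pos_iff, hG10]
    exact hg0
  have hkap : kap (fun s => G1 s * (1 + s) ^ r) = -Real.log g := by
    unfold kap
    simp only [add_zero, one_pow, mul_one]
    rw [hG10]
  obtain ⟨C, hC0, hC⟩ := lap_ein_bdd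
  have hB0 : 0 ≤ B := by
    have h1 := hgr 0 (by rw [zero_re]; linarith)
    rw [norm_zero, add_zero, one_pow, mul_one] at h1
    exact (norm_nonneg _).trans h1
  -- the bound on the closed ball
  obtain ⟨M, hM⟩ : ∃ M : ℝ, ∀ s ∈ closedBall (0 : ℂ) (η / 2), ‖G1 s * (1 + s) ^ r‖ ≤ M := by
    have hsub : closedBall (0 : ℂ) (η / 2) ⊆ {s : ℂ | -η < s.re} := by
      intro s hs
      rw [mem_closedBall_zero_iff] at hs
      have h1 := abs_re_le_norm s
      have h2 := neg_abs_le s.re
      show -η < s.re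
      linarith
    have hcont : ContinuousOn (fun s => G1 s * (1 + s) ^ r) (closedBall (0 : ℂ) (η / 2)) :=
      (hG1.continuousOn.mono hsub).mul (by fun_prop)
    exact (isCompact_closedBall (0 : ℂ) (η / 2)).exists_bound_of_continuousOn hcont
  have hr0 : (0 : ℝ) ≤ r := Nat.cast_nonneg r
  have hq0 : 0 ≤ B * (2 / η) ^ r := by positivity
  have hrC : 0 ≤ (r : ℝ) * C := by positivity
  set B' : ℝ := 1 + |M| + B * (2 / η) ^ r + (B + r * C) with hB'
  have habs := abs_nonneg M
  have hF : Frame (fun t => v t - r * ein t) (fun s => G1 s * (1 + s) ^ r) (A + r) (a + 1) η B'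
      (max c (a + 2)) (k + r) := by
    refine ⟨hS0, h0, ?_, by rw [hB']; linarith, ?_, ?_, ?_, ?_⟩
    · intro s hs
      have h1 := hrh s hs
      have h2 := hfac s (by linarith)
      rw [h2] at h1
      have h3 : (1 : ℂ) + s ≠ 0 := by
        intro h
        have := congrArg Complex.re h
        simp at this
        linarith
      exact mul_ne_zero (right_ne_zero_of_mul h1) (pow_ne_zero _ h3)
    · intro s hs
      have hge : (1 : ℝ) ≤ (1 + ‖s‖) ^ (k + r) :=
        one_le_pow₀ (by linarith [norm_nonneg s])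
      by_cases hb : ‖s‖ ≤ η / 2
      · have h1 := hM s (by rw [mem_closedBall_zero_iff]; exact hb)
        have h2 : M ≤ B' := by
          have := le_abs_self M
          rw [hB']
          linarith
        have h3 : 0 ≤ B' := by rw [hB']; linarith
        calc ‖G1 s * (1 + s) ^ r‖ ≤ B' * 1 := by linarith
          _ ≤ B' * (1 + ‖s‖) ^ (k + r) := mul_le_mul_of_nonneg_left hge h3
      · push Not at hb
        have hs0 : 0 < ‖s‖ := by linarith
        have h1 : ‖G1 s‖ ≤ B * (1 + ‖s‖) ^ k * (2 / η) ^ r := by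
          have h2 := hgr s hs
          rw [hfac s hs, norm_mul, norm_pow] at h2
          have h3 : 1 ≤ ‖s‖ ^ r * (2 / η) ^ r := by
            rw [← mul_pow]
            apply one_le_pow₀
            rw [mul_div_assoc', le_div_iff₀ hη]
            linarith
          calc ‖G1 s‖ = ‖G1 s‖ * 1 := (mul_one _).symm
            _ ≤ ‖G1 s‖ * (‖s‖ ^ r * (2 / η) ^ r) := mul_le_mul_of_nonneg_left h3 (norm_nonneg _)
            _ = ‖s‖ ^ r * ‖G1 s‖ * (2 / η) ^ r := by ring
            _ ≤ B * (1 + ‖s‖) ^ k * (2 / η) ^ r :=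
                mul_le_mul_of_nonneg_right h2 (by positivity)
        have h4 : ‖(1 + s) ^ r‖ ≤ (1 + ‖s‖) ^ r := by
          rw [norm_pow]
          apply pow_le_pow_left₀ (norm_nonneg _)
          calc ‖1 + s‖ ≤ ‖(1 : ℂ)‖ + ‖s‖ := norm_add_le _ _
            _ = 1 + ‖s‖ := by rw [norm_one]
        rw [norm_mul]
        calc ‖G1 s‖ * ‖(1 + s) ^ r‖ ≤ (B * (1 + ‖s‖) ^ k * (2 / η) ^ r) * (1 + ‖s‖) ^ r :=
              mul_le_mul h1 h4 (norm_nonneg _) (by positivity)
          _ = B * (2 / η) ^ r * (1 + ‖s‖) ^ (k + r) := by rw [pow_add]; ring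
          _ ≤ B' * (1 + ‖s‖) ^ (k + r) := by
              apply mul_le_mul_of_nonneg_right _ (by positivity)
              rw [hB']
              linarith
    · have := le_max_right c (a + 2)
      linarith
    · have := le_max_right c (a + 2)
      linarith
    · intro s hs
      have hs1 : c ≤ s.re := (le_max_left _ _).trans hs
      have hs2 : a + 2 ≤ s.re := (le_max_right _ _).trans hs
      have hw1 : a < s.re := by linarith
      have hw0 : 0 < s.re := by linarith
      have e1 : Lap (fun t => v t - r * ein t) s = Lap v s - r * Lap ein s := by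
        have hm : Measurable fun t => (r : ℝ) * ein t := measurable_const.mul measurable_ein
        rw [Lap_sub hS.grow.meas hm
          (lapInt_of_grow' hS.grow hw1) ((lapInt_ein hw0).const_mul _), Lap_const_mul]
        push_cast
        rfl
      have e2 : s * Lap (fun t => v t - r * ein t) s = s * Lap v s - r * (s * Lap ein s) := by
        rw [e1]; ring
      rw [e2]
      have h1 := hr s hs1
      have h2 := hC s (by linarith)
      calc ‖s * Lap v s - r * (s * Lap ein s)‖ ≤ ‖s * Lap v s‖ + ‖(r : ℂ) * (s * Lap ein s)‖ :=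
            norm_sub_le _ _
        _ ≤ B + r * C := by
            rw [norm_mul (r : ℂ), Complex.norm_natCast]
            exact add_le_add h1 (mul_le_mul_of_nonneg_left h2 hr0)
        _ ≤ B' := by
            rw [hB']
            linarith
  have i1 := (l2_zero hF).mono_set (Ioi_subset_Ioi (zero_le_one : (0 : ℝ) ≤ 1))
  have i2 := ein_l2
  have i3 : IntegrableOn (fun t => 2 * ((v t - r * ein t) - kap (fun s => G1 s * (1 + s) ^ r)) ^ 2 +
      2 * (r : ℝ) ^ 2 * (ein t - Real.log t - Real.eulerMascheroniConstant) ^ 2) (Ioi (1 : ℝ)) :=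
    (i1.const_mul 2).add (i2.const_mul (2 * (r : ℝ) ^ 2))
  refine Integrable.mono' i3 ?_ ?_
  · exact (((hS.grow.meas.sub (measurable_const.mul Real.measurable_log)).sub
      measurable_const).pow_const 2).aestronglyMeasurable
  · refine Eventually.of_forall fun t => ?_
    rw [Real.norm_eq_abs, abs_of_nonneg (sq_nonneg _), hkap]
    have e : v t - r * Real.log t - (r * Real.eulerMascheroniConstant - Real.log g) =
        (v t - r * ein t - -Real.log g) +
          r * (ein t - Real.log t - Real.eulerMascheroniConstant) := by ring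
    rw [e]
    nlinarith [sq_nonneg ((v t - r * ein t - -Real.log g) -
      r * (ein t - Real.log t - Real.eulerMascheroniConstant))]

end Pool.Agent.Helper29.MS
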