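import Pool.Agent.Helper29.MS.MertRate
import Pool.Agent.Helper58.BSD.EBdd

/-!
MS-15. The correction `ee t + SSb (e^t)` tends to `log 2 + E0` with rate `O(1 / t)`.

PROOF. As `ee_lim` in Helper58/BSD/EBdd.lean (its private lemmas `ee_eq`, `SSb_eq`, `psum_sub` may be copied): for large `t`
`ee t + SSb (e^t) = psum (c1 + c2) ⌈e^t⌉₊ + (psum (1/p) ⌈e^t⌉₊ - psum (1/p) ⌈e^{t/2}⌉₊)`. The second part is `log 2 + O(1/t)`
(`mertens_rate`). First part: `E0 = ∑' (c1 + c2)`, and by `c12_le` the tail is at most `C ∑_{p ≥ n} p^{-147/100} ≤ C n^{-47/200} ∑ p^{-1.235} = O(n^{-0.235})`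
with `n = ⌈e^t⌉₊ ≥ e^t` (split `p^{-1.47} ≤ n^{-0.235} p^{-1.235}`; `summable_primes_rpow`), which is `O(e^{-0.235 t}) = O(1/t)`.
-/

set_option autoImplicit false

namespace Pool.Agent.Helper29.MS

open Filter Topology
open Pool.Agent.Helper58.BSD Pool.Agent.Helper13.Bsd

variable {N : ℕ → ℕ} {bad : ℕ → Prop} [DecidablePred bad]

private theorem er_psum_eq (c : ℕ → ℝ) (n : ℕ) :
    psum c n = ∑ p ∈ Finset.range n, if p.Prime then c p else 0 := by
  rw [psum, Finset.sum_filter]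

private theorem er_psum_sub (c : ℕ → ℝ) {n m : ℕ} (h : n ≤ m) :
    psum c m - psum c n = ∑ p ∈ (Finset.Ico n m).filter Nat.Prime, c p := by
  rw [er_psum_eq, er_psum_eq, Finset.sum_filter, Finset.sum_Ico_eq_sub _ h]

private theorem er_psum_add (c d : ℕ → ℝ) (n : ℕ) :
    psum (fun p => c p + d p) n = psum c n + psum d n := by
  rw [psum, psum, psum, Finset.sum_add_distrib]

private theorem er_psum_tendsto (c : ℕ → ℝ) (hc : Summable fun p : Nat.Primes => c p) :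
    Tendsto (fun n => psum c n) atTop (𝓝 (∑' p : Nat.Primes, c p)) := by
  have h1 : HasSum (fun p : Nat.Primes => c p) (∑' p : Nat.Primes, c p) := hc.hasSum
  have h2 : HasSum (({p : ℕ | p.Prime} : Set ℕ).indicator c) (∑' p : Nat.Primes, c p) :=
    (hasSum_subtype_iff_indicator (s := ({p : ℕ | p.Prime} : Set ℕ))).1 h1
  have h3 := h2.tendsto_sum_nat
  refine h3.congr fun n => ?_
  rw [er_psum_eq]
  refine Finset.sum_congr rfl fun p _ => ?_
  by_cases hp : p.Prime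
  · rw [if_pos hp, Set.indicator_of_mem (show p ∈ ({p : ℕ | p.Prime} : Set ℕ) from hp)]
  · rw [if_neg hp, Set.indicator_of_notMem (show p ∉ ({p : ℕ | p.Prime} : Set ℕ) from hp)]

private theorem er_psum_nonneg_le (c : ℕ → ℝ) (h0 : ∀ p, 0 ≤ c p)
    (hc : Summable fun p : Nat.Primes => c p) (n : ℕ) : psum c n ≤ ∑' p : Nat.Primes, c p := by
  have hm : Monotone fun n => psum c n := by
    intro a b hab
    have h1 := er_psum_sub c hab
    have h2 : 0 ≤ ∑ p ∈ (Finset.Ico a b).filter Nat.Prime, c p :=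
      Finset.sum_nonneg fun p _ => h0 p
    show psum c a ≤ psum c b
    linarith
  exact hm.ge_of_tendsto (er_psum_tendsto c hc) n

private theorem er_summable_c12 (hN : NHyp N) :
    Summable fun p : Nat.Primes => |c1 N bad p + c2 N bad p| := by
  refine Summable.of_nonneg_of_le (fun _ => abs_nonneg _)
    (fun p => c12_le (bad := bad) hN (p : ℕ) p.2) ?_
  exact (summable_primes_rpow (x := 147 / 100) (by norm_num)).mul_left _

private theorem er_ceil_mono {a b : ℝ} (h : a ≤ b) : ⌈Real.exp a⌉₊ ≤ ⌈Real.exp b⌉₊ :=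
  Nat.ceil_mono (Real.exp_le_exp.2 h)

private theorem er_ee_eq (t : ℝ) : ee N bad t =
    psum (fun p => c1 N bad p + c2 N bad p) ⌈Real.exp t⌉₊ -
      (psum (c2 N bad) ⌈Real.exp t⌉₊ - psum (c2 N bad) ⌈Real.exp (t / 2)⌉₊) := by
  rw [er_psum_add, ee]
  ring

private theorem er_SSb_eq {t : ℝ} (ht : 0 ≤ t)
    (hb : ∀ p : ℕ, p.Prime → ⌈Real.exp (t / 2)⌉₊ ≤ p → ¬ bad p ∧ 1024 ≤ p) :
    SSb N bad (Real.exp t) = (psum (c2 N bad) ⌈Real.exp t⌉₊ - psum (c2 N bad) ⌈Real.exp (t / 2)⌉₊) +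
      (psum (fun p => (p : ℝ)⁻¹) ⌈Real.exp t⌉₊ - psum (fun p => (p : ℝ)⁻¹) ⌈Real.exp (t / 2)⌉₊) := by
  have hle : ⌈Real.exp (t / 2)⌉₊ ≤ ⌈Real.exp t⌉₊ := er_ceil_mono (by linarith)
  rw [er_psum_sub _ hle, er_psum_sub _ hle, ← Finset.sum_add_distrib, SSb, Finset.mul_sum]
  have hset : (Finset.range ⌈Real.exp t⌉₊).filter
      (fun p : ℕ => p.Prime ∧ ¬ bad p ∧ Real.exp t ≤ (p : ℝ) ^ 2) =
      (Finset.Ico ⌈Real.exp (t / 2)⌉₊ ⌈Real.exp t⌉₊).filter Nat.Prime := by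
    ext p
    have hiff : Real.exp t ≤ (p : ℝ) ^ 2 ↔ ⌈Real.exp (t / 2)⌉₊ ≤ p := by
      rw [Nat.ceil_le]
      have e : Real.exp t = Real.exp (t / 2) ^ 2 := by
        rw [← Real.exp_nat_mul]; congr 1; push_cast; ring
      rw [e]
      exact pow_le_pow_iff_left₀ (Real.exp_pos _).le (Nat.cast_nonneg _) (by norm_num)
    simp only [Finset.mem_filter, Finset.mem_range, Finset.mem_Ico, hiff]
    constructor
    · rintro ⟨h1, h2, _, h4⟩
      exact ⟨⟨h4, h1⟩, h2⟩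
    · rintro ⟨⟨h4, h1⟩, h2⟩
      exact ⟨h1, h2, (hb p h2 h4).1, h4⟩
  rw [hset]
  refine Finset.sum_congr rfl fun p hp => ?_
  rw [Finset.mem_filter, Finset.mem_Ico] at hp
  obtain ⟨h1, h2⟩ := hb p hp.2 hp.1.1
  have h3 : c2 N bad p = alp N p ^ 2 / 2 - (p : ℝ)⁻¹ := by
    rw [c2, if_neg]
    rintro (h | h)
    · exact h1 h
    · omega
  rw [h3, alp]
  ring

private theorem er_tail (hN : NHyp N) : ∃ K : ℝ, 0 ≤ K ∧ ∀ n : ℕ, 1 ≤ n →
    |psum (fun p => c1 N bad p + c2 N bad p) n - E0 N bad| ≤ K * (n : ℝ) ^ (-(47 / 200) : ℝ) := by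
  have hs := summable_primes_rpow (x := 247 / 200) (by norm_num)
  obtain ⟨S, hS⟩ : ∃ S : ℝ, S = ∑' p : Nat.Primes, ((p : ℕ) : ℝ) ^ (-(247 / 200) : ℝ) := ⟨_, rfl⟩
  have hS0 : 0 ≤ S := by
    rw [hS]
    exact tsum_nonneg fun p => by positivity
  refine ⟨2048 * 1024 ^ 2 * S, by positivity, fun n hn => ?_⟩
  have hsum : Summable fun p : Nat.Primes => c1 N bad p + c2 N bad p := (er_summable_c12 hN).of_abs
  have hlim := er_psum_tendsto (fun p => c1 N bad p + c2 N bad p) hsum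
  have hlim2 : Tendsto (fun m => |psum (fun p => c1 N bad p + c2 N bad p) n -
      psum (fun p => c1 N bad p + c2 N bad p) m|) atTop
      (𝓝 |psum (fun p => c1 N bad p + c2 N bad p) n - E0 N bad|) :=
    (tendsto_const_nhds.sub hlim).abs
  refine le_of_tendsto hlim2 ?_
  filter_upwards [eventually_ge_atTop n] with m hm
  rw [abs_sub_comm, er_psum_sub _ hm]
  refine (Finset.abs_sum_le_sum_abs _ _).trans ?_
  have hn0 : (0 : ℝ) < n := by exact_mod_cast hn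
  have h1 : ∀ p ∈ (Finset.Ico n m).filter Nat.Prime, |c1 N bad p + c2 N bad p| ≤
      2048 * 1024 ^ 2 * (n : ℝ) ^ (-(47 / 200) : ℝ) * (p : ℝ) ^ (-(247 / 200) : ℝ) := by
    intro p hp
    rw [Finset.mem_filter, Finset.mem_Ico] at hp
    have hp0 : (0 : ℝ) < p := by exact_mod_cast hp.2.pos
    refine (c12_le (bad := bad) hN p hp.2).trans ?_
    have e1 : (p : ℝ) ^ (-(147 / 100) : ℝ) = (p : ℝ) ^ (-(47 / 200) : ℝ) * (p : ℝ) ^ (-(247 / 200) : ℝ) := by
      rw [← Real.rpow_add hp0]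
      norm_num
    have e2 : (p : ℝ) ^ (-(47 / 200) : ℝ) ≤ (n : ℝ) ^ (-(47 / 200) : ℝ) := by
      refine Real.rpow_le_rpow_of_nonpos hn0 ?_ (by norm_num)
      exact_mod_cast hp.1.1
    rw [e1, mul_assoc (2048 * 1024 ^ 2 : ℝ)]
    exact mul_le_mul_of_nonneg_left (mul_le_mul_of_nonneg_right e2 (by positivity)) (by norm_num)
  refine (Finset.sum_le_sum h1).trans ?_
  rw [← Finset.mul_sum]
  have h2 : ∑ p ∈ (Finset.Ico n m).filter Nat.Prime, (p : ℝ) ^ (-(247 / 200) : ℝ) ≤ S := by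
    have h3 := er_psum_nonneg_le (fun p => (p : ℝ) ^ (-(247 / 200) : ℝ)) (fun p => by positivity) hs m
    rw [hS]
    refine le_trans ?_ h3
    rw [psum]
    refine Finset.sum_le_sum_of_subset_of_nonneg ?_ fun _ _ _ => by positivity
    intro p hp
    rw [Finset.mem_filter, Finset.mem_Ico] at hp
    rw [Finset.mem_filter, Finset.mem_range]
    exact ⟨hp.1.2, hp.2⟩
  calc 2048 * 1024 ^ 2 * (n : ℝ) ^ (-(47 / 200) : ℝ) *
        ∑ p ∈ (Finset.Ico n m).filter Nat.Prime, (p : ℝ) ^ (-(247 / 200) : ℝ)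
      ≤ 2048 * 1024 ^ 2 * (n : ℝ) ^ (-(47 / 200) : ℝ) * S :=
        mul_le_mul_of_nonneg_left h2 (by positivity)
    _ = 2048 * 1024 ^ 2 * S * (n : ℝ) ^ (-(47 / 200) : ℝ) := by ring

theorem ee_rate (hN : NHyp N) (hfin : {p : Nat.Primes | bad p}.Finite) :
    ∃ C T : ℝ, 0 ≤ C ∧ 1 ≤ T ∧ ∀ t : ℝ, T ≤ t →
      |ee N bad t + SSb N bad (Real.exp t) - (Real.log 2 + E0 N bad)| ≤ C / t := by
  obtain ⟨B, hB⟩ : ∃ B : ℕ, ∀ p : ℕ, p.Prime → bad p → p < B := by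
    obtain ⟨B, hB⟩ := (hfin.image fun p : Nat.Primes => (p : ℕ)).bddAbove
    refine ⟨B + 1, fun p hp hb => ?_⟩
    have : p ≤ B := hB ⟨⟨p, hp⟩, hb, rfl⟩
    omega
  obtain ⟨C1, T1, hC1, hT1, h1⟩ := mertens_rate
  obtain ⟨K, hK, h2⟩ := er_tail (N := N) (bad := bad) hN
  have hct : Tendsto (fun t : ℝ => ⌈Real.exp (t / 2)⌉₊) atTop atTop :=
    tendsto_nat_ceil_atTop.comp (Real.tendsto_exp_atTop.comp (tendsto_id.atTop_div_const (by norm_num)))
  obtain ⟨T2, hT2⟩ := Filter.eventually_atTop.1 (hct.eventually_ge_atTop (max B 1024))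
  refine ⟨C1 + K * (200 / 47), max T1 T2, by positivity, hT1.trans (le_max_left _ _), fun t ht => ?_⟩
  have ht1 : T1 ≤ t := (le_max_left _ _).trans ht
  have ht2 : T2 ≤ t := (le_max_right _ _).trans ht
  have ht0 : 0 < t := by linarith
  have ht' : max B 1024 ≤ ⌈Real.exp (t / 2)⌉₊ := hT2 t ht2
  have h3 := er_SSb_eq (N := N) (bad := bad) ht0.le (fun p hp hle => ⟨fun hb => by
    have := hB p hp hb
    have := le_max_left B 1024
    omega, by
    have := le_max_right B 1024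
    omega⟩)
  have hn : 1 ≤ ⌈Real.exp t⌉₊ := Nat.one_le_ceil_iff.2 (Real.exp_pos t)
  have h4 := h2 _ hn
  have h5 : ((⌈Real.exp t⌉₊ : ℕ) : ℝ) ^ (-(47 / 200) : ℝ) ≤ (200 / 47) / t := by
    have e1 : ((⌈Real.exp t⌉₊ : ℕ) : ℝ) ^ (-(47 / 200) : ℝ) ≤ (Real.exp t) ^ (-(47 / 200) : ℝ) :=
      Real.rpow_le_rpow_of_nonpos (Real.exp_pos t) (Nat.le_ceil _) (by norm_num)
    refine e1.trans ?_
    rw [← Real.exp_mul]
    have e2 : t * (-(47 / 200)) = -(47 / 200 * t) := by ring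
    rw [e2, Real.exp_neg]
    have e3 : 47 / 200 * t ≤ Real.exp (47 / 200 * t) := by
      have := Real.add_one_le_exp (47 / 200 * t)
      linarith
    have e4 : (200 / 47) / t = (47 / 200 * t)⁻¹ := by
      field_simp
    rw [e4]
    exact inv_anti₀ (by positivity) e3
  have h6 := h1 t ht1
  rw [h3, er_ee_eq]
  have h7 : K * ((⌈Real.exp t⌉₊ : ℕ) : ℝ) ^ (-(47 / 200) : ℝ) ≤ K * (200 / 47) / t := by
    rw [mul_div_assoc]
    exact mul_le_mul_of_nonneg_left h5 hK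
  rw [abs_le] at h4 h6 ⊢
  rw [add_div]
  constructor <;> linarith [h4.1, h4.2, h6.1, h6.2]

end Pool.Agent.Helper29.MS
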