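import Pool.Agent.Helper29.MS.Base
import Pool.Agent.Helper58.BSD.BFinal

/-!
MS-19. The error of the Birch and Swinnerton-Dyer asymptotic: `hh x = log (P x e^{S x} / (C (log x) ^ r))`.

PROOFS. `hh_exp`: `PE_exp`, `kon_pos`, `log t > 0` not needed: `Real.log (Real.exp t) = t > 0`; logarithm of products.
`measurable_hh`: `PE` and `SS` are functions of `⌈x⌉₊` and of the condition `x ≤ p ^ 2`: `PE W N x = PE-of-nat ⌈x⌉₊`
(`measurable_from_nat.comp Nat.measurable_ceil`). For `SS`: `SS W N x = (1/2) ∑ p ∈ range ⌈x⌉₊, if (p prime, good, x ≤ p ^ 2) then .. else 0`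
`= (1/2) (f1 ⌈x⌉₊ - f2 ⌈√x⌉₊)`-like for `x > 0`; alternatively write it as the pointwise limit / countable sum
`∑' p, indicator {x | p < ⌈x⌉₊ ∧ x ≤ p ^ 2}` (`Measurable` of a countable sum of measurable functions with finitely many nonzero terms:
`measurable_of_tendsto_metrizable` with partial sums `∑ p ∈ range n`, eventually constant).
`hh_bdd`: on `[a, b]`, `0 < a`: `|LL t| ≤ 8 e^{2 t}` (`LL_bound`, Helper13/Bsd/Laplace) or the growth from `bsd_frame`, `SS` bounded
(`bsd_frame`), `log t` bounded.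
-/

set_option autoImplicit false

namespace Pool.Agent.Helper29.MS

open Complex Filter Topology MeasureTheory Set
open Pool.Agent.Helper13.Bsd Pool.Agent.Helper7.GW Pool.Agent.Helper58.BSD

section

variable (W : WeierstrassCurve ℤ) (N : ℕ → ℕ)
    (hNdef : ∀ p : ℕ, N p = 1 + ((Finset.range p ×ˢ Finset.range p).filter
      (fun q : ℕ × ℕ => (p : ℤ) ∣ ((q.2 : ℤ) ^ 2 + W.a₁ * (q.1 : ℤ) * (q.2 : ℤ) + W.a₃ * (q.2 : ℤ)
        - ((q.1 : ℤ) ^ 3 + W.a₂ * (q.1 : ℤ) ^ 2 + W.a₄ * (q.1 : ℤ) + W.a₆)))).card)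

/-- the logarithm of the ratio in the asymptotic -/
noncomputable def hh (F : ℂ → ℂ) (x : ℝ) : ℝ :=
  Real.log (PE W N x * Real.exp (SS W N x) / (kon F * Real.log x ^ (analyticOrderNatAt F 1)))

include hNdef in
theorem hh_exp (hΔ : W.Δ ≠ 0) (F : ℂ → ℂ) (hFd : Differentiable ℂ F) (hF : EulerHyp W N F) (t : ℝ)
    (ht : 0 < t) : hh W N F (Real.exp t) =
      LL N (badW W) t + SS W N (Real.exp t) - (analyticOrderNatAt F 1 : ℕ) * Real.log t - Real.log (kon F) := by
  have hk := kon_pos W N hNdef hΔ F hFd hF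
  unfold hh
  rw [PE_exp W N hNdef, ← Real.exp_add, Real.log_exp,
    Real.log_div (Real.exp_pos _).ne' (mul_pos hk (pow_pos ht _)).ne', Real.log_exp,
    Real.log_mul hk.ne' (pow_pos ht _).ne', Real.log_pow]
  ring

private theorem measurable_PE' : Measurable (PE W N) := by
  have h1 : Measurable (fun n : ℕ => ∏ p ∈ (Finset.range n).filter
    (fun p : ℕ => Nat.Prime p ∧ ¬ (((p : ℕ) : ℤ) ∣ W.Δ)), ((N p : ℝ) / (p : ℝ))) := measurable_from_nat
  exact h1.comp Nat.measurable_ceil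

private theorem measurable_SS' : Measurable (SS W N) := by
  classical
  let f : ℕ → ℝ → ℝ := fun n x => (1 / 2) * ∑ p ∈ Finset.range n,
    if (p < ⌈x⌉₊ ∧ (Nat.Prime p ∧ ¬ (((p : ℕ) : ℤ) ∣ W.Δ) ∧ x ≤ (p : ℝ) ^ 2)) then
      (((p : ℝ) + 1 - N p) / p) ^ 2 else 0
  have hf : ∀ n, Measurable (f n) := by
    intro n
    apply Measurable.const_mul
    apply Finset.measurable_fun_sum
    intro p _
    apply Measurable.ite _ measurable_const measurable_const
    have e1 : MeasurableSet {x : ℝ | p < ⌈x⌉₊} := by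
      have : Measurable (fun x : ℝ => ⌈x⌉₊) := Nat.measurable_ceil
      exact this (measurableSet_Ioi (a := p))
    have e2 : MeasurableSet {x : ℝ | x ≤ (p : ℝ) ^ 2} := measurableSet_Iic
    have e3 : MeasurableSet {x : ℝ | Nat.Prime p ∧ ¬ (((p : ℕ) : ℤ) ∣ W.Δ)} := MeasurableSet.const _
    have e4 := e1.inter (e3.inter e2)
    convert e4 using 1
    ext x
    simp only [Set.mem_ofPred_eq, Set.mem_inter_iff]
    tauto
  apply measurable_of_tendsto_metrizable hf
  rw [tendsto_pi_nhds]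
  intro x
  apply tendsto_const_nhds.congr'
  filter_upwards [eventually_ge_atTop ⌈x⌉₊] with n hn
  simp only [f]
  unfold SS
  congr 1
  rw [Finset.sum_filter, ← Finset.sum_filter_add_sum_filter_not (Finset.range n) (fun p => p < ⌈x⌉₊)]
  rw [show (Finset.range n).filter (fun p => p < ⌈x⌉₊) = Finset.range ⌈x⌉₊ by
    ext p
    simp only [Finset.mem_filter, Finset.mem_range]
    omega]
  rw [Finset.sum_congr rfl (g := fun p => if (p < ⌈x⌉₊ ∧ (Nat.Prime p ∧ ¬ (((p : ℕ) : ℤ) ∣ W.Δ) ∧ x ≤ (p : ℝ) ^ 2)) then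
      (((p : ℝ) + 1 - N p) / p) ^ 2 else 0)]
  · symm
    rw [add_eq_left]
    apply Finset.sum_eq_zero
    intro p hp
    rw [Finset.mem_filter] at hp
    rw [if_neg]
    tauto
  · intro p hp
    rw [Finset.mem_range] at hp
    simp only [hp, true_and]

theorem measurable_hh (F : ℂ → ℂ) : Measurable (hh W N F) := by
  unfold hh
  have h1 := measurable_PE' W N
  have h2 := measurable_SS' W N
  have h3 : Measurable (fun x : ℝ => Real.exp (SS W N x)) := Real.measurable_exp.comp h2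
  have h4 : Measurable (fun x : ℝ => kon F * Real.log x ^ (analyticOrderNatAt F 1)) :=
    (Real.measurable_log.pow_const _).const_mul _
  exact Real.measurable_log.comp ((h1.mul h3).div h4)

include hNdef in
theorem hh_bdd (hΔ : W.Δ ≠ 0) (F : ℂ → ℂ) (hFd : Differentiable ℂ F) (hF : EulerHyp W N F) (a b : ℝ)
    (ha : 0 < a) : ∃ C : ℝ, 0 ≤ C ∧ ∀ t : ℝ, a ≤ t → t ≤ b → |hh W N F (Real.exp t)| ≤ C := by
  obtain ⟨e, G, A, η, C0, E, -, -, -, -, -, -, -, -, C1, hC1, hSS⟩ := bsd_frame W N hNdef hΔ F hFd hF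
  refine ⟨8 * Real.exp (2 * b) + C1 + (analyticOrderNatAt F 1 : ℕ) * (|Real.log a| + |Real.log b|)
    + |Real.log (kon F)|, by positivity, fun t hat htb => ?_⟩
  have ht : 0 < t := lt_of_lt_of_le ha hat
  rw [hh_exp W N hNdef hΔ F hFd hF t ht]
  have h1 := LL_bound N (badW W) (hN_of W N hNdef) (ap_bound W N hNdef) t ht.le
  have h2 : 8 * Real.exp (2 * t) ≤ 8 * Real.exp (2 * b) := by
    have := Real.exp_le_exp.mpr (show 2 * t ≤ 2 * b by linarith)
    linarith
  obtain ⟨h3, h4⟩ := hSS (Real.exp t)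
  have h5 : |Real.log t| ≤ |Real.log a| + |Real.log b| := by
    have h6 := Real.log_le_log ha hat
    have h7 := Real.log_le_log ht htb
    rw [abs_le]
    have h8 := neg_abs_le (Real.log a)
    have h9 := le_abs_self (Real.log b)
    have h10 := abs_nonneg (Real.log a)
    have h11 := abs_nonneg (Real.log b)
    constructor <;> linarith
  have h6 : |(analyticOrderNatAt F 1 : ℕ) * Real.log t| ≤
      (analyticOrderNatAt F 1 : ℕ) * (|Real.log a| + |Real.log b|) := by
    rw [abs_mul, Nat.abs_cast]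
    exact mul_le_mul_of_nonneg_left h5 (Nat.cast_nonneg _)
  have h7 := abs_le.mp h1
  have h8 := abs_le.mp h6
  have h9 := le_abs_self (Real.log (kon F))
  have h10 := neg_abs_le (Real.log (kon F))
  rw [abs_le]
  constructor <;> linarith [h7.1, h7.2, h8.1, h8.2]

end

end Pool.Agent.Helper29.MS
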