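import Pool.Agent.Helper29.MS.Base

/-!
MS-18. Real analysis: substitution `x = e^t` and dyadic means.

PROOFS. `comp_exp`: `MeasureTheory.integrableOn_image_iff_integrableOn_abs_deriv_smul` for `Real.exp` on `Ioi b`
(`Real.exp '' Ioi b = Ioi (Real.exp b)`), `exp t • (f (exp t) / exp t) = f (exp t)`.
`int_comp_exp`: the same with `integral_image_eq_integral_abs_deriv_smul` on `Ioc a b` (or `intervalIntegral.integral_comp_mul_deriv`-type lemma for measurable
functions; no continuity of `f` is assumed).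
`dyad_of_l2`: for `X ≥ 2`, Cauchy-Schwarz (or `|h| ≤ (ε + h² / ε) / 2`): for every `ε > 0`, `∫_X^{2X} |h| / x ≤ ε log 2 / 2 + (1 / (2 ε)) ∫_X^{2X} h² / x`, and the
last integral tends to `0` as `X → ∞` since `h² / x` is integrable on `Ioi 2`
(`tendsto_setIntegral_of_antitone`-type lemma, or `∫_{X}^∞ → 0`). Integrability of `|h| / x` on `(X, 2X]` follows from
`|h| ≤ 1 + h²` and `|h| = √(h²)` (measurability of `h² / x`).
`lapInt_of_dyadic`: for `x > 0` take `ε = x / 2` and `T0 ≥ 0` from the hypothesis; on `(T0 + n log 2, T0 + (n + 1) log 2]`,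
`∫ f e^{-x t} ≤ e^{-x (T0 + n log 2)} e^{ε (T0 + n log 2)}`, summable in `n`; on `(0, T0]` by `hloc`. Use `integrableOn_iUnion`-type lemmas or
lower integrals.
-/

set_option autoImplicit false

namespace Pool.Agent.Helper29.MS

open Filter Topology MeasureTheory Set
open Pool.Agent.Helper13.Bsd

private theorem img_Ioi (b : ℝ) : Real.exp '' Ioi b = Ioi (Real.exp b) := by
  ext x
  constructor
  · rintro ⟨t, ht, rfl⟩
    exact Real.exp_lt_exp.2 ht
  · intro hx
    have hx0 : 0 < x := (Real.exp_pos b).trans hx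
    refine ⟨Real.log x, ?_, Real.exp_log hx0⟩
    have := Real.log_lt_log (Real.exp_pos b) hx
    rwa [Real.log_exp] at this

private theorem img_Ioc (a b : ℝ) : Real.exp '' Ioc a b = Ioc (Real.exp a) (Real.exp b) := by
  ext x
  constructor
  · rintro ⟨t, ht, rfl⟩
    exact ⟨Real.exp_lt_exp.2 ht.1, Real.exp_le_exp.2 ht.2⟩
  · intro hx
    have hx0 : 0 < x := (Real.exp_pos a).trans hx.1
    refine ⟨Real.log x, ⟨?_, ?_⟩, Real.exp_log hx0⟩
    · have := Real.log_lt_log (Real.exp_pos a) hx.1
      rwa [Real.log_exp] at this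
    · have := Real.log_le_log hx0 hx.2
      rwa [Real.log_exp] at this

private theorem smul_aux (f : ℝ → ℝ) :
    (fun t => |Real.exp t| • (f (Real.exp t) / Real.exp t)) = fun t => f (Real.exp t) := by
  funext t
  have h := Real.exp_pos t
  rw [abs_of_pos h, smul_eq_mul]
  field_simp

theorem comp_exp (f : ℝ → ℝ) (b : ℝ) :
    IntegrableOn (fun x => f x / x) (Ioi (Real.exp b)) ↔ IntegrableOn (fun t => f (Real.exp t)) (Ioi b) := by
  have h := integrableOn_image_iff_integrableOn_abs_deriv_smul (s := Ioi b) (f := Real.exp)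
    (f' := Real.exp) measurableSet_Ioi (fun t _ => (Real.hasDerivAt_exp t).hasDerivWithinAt)
    Real.exp_injective.injOn (fun x => f x / x)
  rw [img_Ioi, smul_aux] at h
  exact h

theorem int_comp_exp (f : ℝ → ℝ) {a b : ℝ} (hab : a ≤ b) :
    ∫ x in (Real.exp a)..(Real.exp b), f x / x = ∫ t in a..b, f (Real.exp t) := by
  have h := integral_image_eq_integral_abs_deriv_smul (s := Ioc a b) (f := Real.exp)
    (f' := Real.exp) measurableSet_Ioc (fun t _ => (Real.hasDerivAt_exp t).hasDerivWithinAt)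
    Real.exp_injective.injOn (fun x => f x / x)
  rw [img_Ioc, smul_aux] at h
  rw [intervalIntegral.integral_of_le hab,
    intervalIntegral.integral_of_le (Real.exp_le_exp.2 hab)]
  exact h

theorem dyad_of_l2 {h : ℝ → ℝ} (hh : IntegrableOn (fun x => h x ^ 2 / x) (Ioi (2 : ℝ))) :
    Tendsto (fun X : ℝ => ∫ x in X..(2 * X), |h x| / x) atTop (𝓝 0) := by
  -- the tails of the square
  have hii : ∀ a b : ℝ, 2 ≤ a → a ≤ b → IntervalIntegrable (fun x => h x ^ 2 / x) volume a b := by
    intro a b ha hab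
    rw [intervalIntegrable_iff_integrableOn_Ioc_of_le hab]
    exact hh.mono_set fun x hx => lt_of_le_of_lt ha hx.1
  have ht1 : Tendsto (fun X : ℝ => ∫ x in (2 : ℝ)..X, h x ^ 2 / x) atTop
      (𝓝 (∫ x in Ioi (2 : ℝ), h x ^ 2 / x)) :=
    intervalIntegral_tendsto_integral_Ioi 2 hh tendsto_id
  have ht2 : Tendsto (fun X : ℝ => ∫ x in (2 : ℝ)..(2 * X), h x ^ 2 / x) atTop
      (𝓝 (∫ x in Ioi (2 : ℝ), h x ^ 2 / x)) :=
    intervalIntegral_tendsto_integral_Ioi 2 hh
      (Tendsto.const_mul_atTop (by norm_num) tendsto_id)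
  have ht3 : Tendsto (fun X : ℝ => (∫ x in (2 : ℝ)..(2 * X), h x ^ 2 / x) -
      ∫ x in (2 : ℝ)..X, h x ^ 2 / x) atTop (𝓝 0) := by
    have := ht2.sub ht1
    rwa [sub_self] at this
  have ht : Tendsto (fun X : ℝ => ∫ x in X..(2 * X), h x ^ 2 / x) atTop (𝓝 0) := by
    refine ht3.congr' ?_
    filter_upwards [eventually_ge_atTop (2 : ℝ)] with X hX
    exact intervalIntegral.integral_interval_sub_left (hii 2 (2 * X) le_rfl (by linarith))
      (hii 2 X le_rfl hX)
  -- nonnegativity
  have hpos : ∀ᶠ X : ℝ in atTop, 0 ≤ ∫ x in X..(2 * X), |h x| / x := by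
    filter_upwards [eventually_ge_atTop (2 : ℝ)] with X hX
    refine intervalIntegral.integral_nonneg (by linarith) fun x hx => ?_
    have : 0 < x := by linarith [hx.1]
    positivity
  -- upper bound
  have hup : ∀ ε : ℝ, 0 < ε → ∀ X : ℝ, 2 ≤ X → (∫ x in X..(2 * X), |h x| / x) ≤
      ε * X / X / 2 + (1 / (2 * ε)) * ∫ x in X..(2 * X), h x ^ 2 / x := by
    intro ε hε X hX
    have hle : X ≤ 2 * X := by linarith
    have hsq : 0 ≤ ∫ x in X..(2 * X), h x ^ 2 / x :=
      intervalIntegral.integral_nonneg hle fun x hx => by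
        have : 0 < x := by linarith [hx.1]
        positivity
    have hX0 : 0 < X := by linarith
    by_cases hi : IntervalIntegrable (fun x => |h x| / x) volume X (2 * X)
    · have hc : IntervalIntegrable (fun _ : ℝ => ε / (2 * X)) volume X (2 * X) :=
        intervalIntegrable_const
      have hs : IntervalIntegrable (fun x => (1 / (2 * ε)) * (h x ^ 2 / x)) volume X (2 * X) :=
        (hii X (2 * X) hX hle).const_mul _
      have hm : (∫ x in X..(2 * X), |h x| / x) ≤
          ∫ x in X..(2 * X), (ε / (2 * X) + (1 / (2 * ε)) * (h x ^ 2 / x)) := by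
        refine intervalIntegral.integral_mono_on hle hi (hc.add hs) fun x hx => ?_
        have hx0 : 0 < x := by linarith [hx.1]
        have h1 : |h x| ≤ ε / 2 + (1 / (2 * ε)) * h x ^ 2 := by
          have h2 : 0 ≤ (|h x| - ε) ^ 2 := sq_nonneg _
          have h3 : |h x| ^ 2 = h x ^ 2 := sq_abs _
          have h4 : |h x| * (2 * ε) ≤ (ε / 2 + (1 / (2 * ε)) * h x ^ 2) * (2 * ε) := by
            have h5 : (ε / 2 + (1 / (2 * ε)) * h x ^ 2) * (2 * ε) = ε ^ 2 + h x ^ 2 := by
              field_simp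
            rw [h5]
            nlinarith
          exact le_of_mul_le_mul_right h4 (by positivity)
        calc |h x| / x ≤ (ε / 2 + (1 / (2 * ε)) * h x ^ 2) / x :=
              div_le_div_of_nonneg_right h1 hx0.le
          _ = ε / (2 * x) + (1 / (2 * ε)) * (h x ^ 2 / x) := by
              field_simp
          _ ≤ ε / (2 * X) + (1 / (2 * ε)) * (h x ^ 2 / x) := by
              have : ε / (2 * x) ≤ ε / (2 * X) :=
                div_le_div_of_nonneg_left hε.le (by positivity) (by linarith [hx.1])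
              linarith
      have he : (∫ x in X..(2 * X), (ε / (2 * X) + (1 / (2 * ε)) * (h x ^ 2 / x))) =
          ε * X / X / 2 + (1 / (2 * ε)) * ∫ x in X..(2 * X), h x ^ 2 / x := by
        rw [intervalIntegral.integral_add hc hs, intervalIntegral.integral_const,
          intervalIntegral.integral_const_mul]
        congr 1
        rw [smul_eq_mul]
        field_simp
        ring
      rw [← he]
      exact hm
    · rw [intervalIntegral.integral_undef hi]
      positivity
  rw [Metric.tendsto_atTop] at ht ⊢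
  intro ε hε
  obtain ⟨N, hN⟩ := ht (ε ^ 2) (by positivity)
  obtain ⟨N', hN'⟩ := (eventually_atTop.1 hpos)
  refine ⟨max 2 (max N N'), fun X hX => ?_⟩
  have hX2 : 2 ≤ X := (le_max_left _ _).trans hX
  have h1 := hN X ((le_max_left _ _).trans ((le_max_right _ _).trans hX))
  have h2 := hN' X ((le_max_right _ _).trans ((le_max_right _ _).trans hX))
  have h3 := hup ε hε X hX2
  rw [Real.dist_eq, sub_zero] at h1 ⊢
  rw [abs_of_nonneg h2]
  have h4 := le_abs_self (∫ x in X..(2 * X), h x ^ 2 / x)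
  have hX0 : X ≠ 0 := by linarith
  have h5 : ε * X / X / 2 = ε / 2 := by field_simp
  rw [h5] at h3
  have h6 : (1 / (2 * ε)) * (∫ x in X..(2 * X), h x ^ 2 / x) < (1 / (2 * ε)) * ε ^ 2 :=
    mul_lt_mul_of_pos_left (lt_of_le_of_lt h4 h1) (by positivity)
  have h7 : (1 / (2 * ε)) * ε ^ 2 = ε / 2 := by field_simp
  linarith

theorem lapInt_of_dyadic {f : ℝ → ℝ} (hf : Measurable f) (hf0 : ∀ t, 0 ≤ f t)
    (hloc : ∀ T : ℝ, IntegrableOn f (Ioc 0 T))
    (h : ∀ ε : ℝ, 0 < ε → ∃ T0 : ℝ, ∀ T, T0 ≤ T → ∫ t in T..(T + Real.log 2), f t ≤ Real.exp (ε * T))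
    (x : ℝ) (hx : 0 < x) : LapInt f x := by
  have _ := hf
  obtain ⟨T1, hT1⟩ := h (x / 2) (by positivity)
  set T0 : ℝ := max T1 0 with hT0
  have hT00 : 0 ≤ T0 := le_max_right _ _
  have hT01 : T1 ≤ T0 := le_max_left _ _
  have hl : 0 < Real.log 2 := Real.log_pos (by norm_num)
  set l : ℝ := Real.log 2 with hldef
  set g : ℝ → ℝ := fun t => f t * Real.exp (-x * t) with hg
  have hg0 : ∀ t, 0 ≤ g t := fun t => mul_nonneg (hf0 t) (Real.exp_pos _).le
  -- local integrability
  have hgi : ∀ T : ℝ, IntegrableOn g (Ioc 0 T) := by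
    intro T
    have h1 : IntegrableOn f (Ioc 0 T) := hloc T
    refine h1.mul_continuousOn_of_subset ?_ measurableSet_Ioc isCompact_Icc Ioc_subset_Icc_self
    exact (Real.continuous_exp.comp (continuous_const.mul continuous_id)).continuousOn
  have hgii : ∀ a b : ℝ, 0 ≤ a → a ≤ b → IntervalIntegrable g volume a b := by
    intro a b ha hab
    rw [intervalIntegrable_iff_integrableOn_Ioc_of_le hab]
    exact (hgi b).mono_set (Ioc_subset_Ioc_left ha)
  have hfii : ∀ a b : ℝ, 0 ≤ a → a ≤ b → IntervalIntegrable f volume a b := by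
    intro a b ha hab
    rw [intervalIntegrable_iff_integrableOn_Ioc_of_le hab]
    exact (hloc b).mono_set (Ioc_subset_Ioc_left ha)
  set r : ℝ := Real.exp (-(x / 2) * l) with hr
  have hr0 : 0 < r := Real.exp_pos _
  have hr1 : r < 1 := by
    rw [hr, Real.exp_lt_one_iff]
    nlinarith
  -- one dyadic step
  have step : ∀ T : ℝ, T0 ≤ T → ∫ t in T..(T + l), g t ≤ Real.exp (-(x / 2) * T) := by
    intro T hT
    have hT' : 0 ≤ T := hT00.trans hT
    have h1 : ∫ t in T..(T + l), g t ≤ ∫ t in T..(T + l), f t * Real.exp (-x * T) := by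
      refine intervalIntegral.integral_mono_on (by linarith) (hgii _ _ hT' (by linarith))
        ((hfii _ _ hT' (by linarith)).mul_const _) fun t ht => ?_
      refine mul_le_mul_of_nonneg_left (Real.exp_le_exp.2 ?_) (hf0 t)
      nlinarith [ht.1]
    rw [intervalIntegral.integral_mul_const] at h1
    have h2 := hT1 T (hT01.trans hT)
    calc ∫ t in T..(T + l), g t ≤ (∫ t in T..(T + l), f t) * Real.exp (-x * T) := h1
      _ ≤ Real.exp (x / 2 * T) * Real.exp (-x * T) :=
          mul_le_mul_of_nonneg_right h2 (Real.exp_pos _).le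
      _ = Real.exp (-(x / 2) * T) := by
          rw [← Real.exp_add]
          congr 1
          ring
  set C : ℝ := ∫ t in (0 : ℝ)..T0, g t with hC
  set D : ℝ := Real.exp (-(x / 2) * T0) with hD
  have key : ∀ n : ℕ, ∫ t in (0 : ℝ)..(T0 + n * l), g t ≤
      C + D * ∑ k ∈ Finset.range n, r ^ k := by
    intro n
    induction n with
    | zero => simp [hC]
    | succ n ih =>
      have hn : 0 ≤ (n : ℝ) * l := by positivity
      have e1 : T0 + ((n + 1 : ℕ) : ℝ) * l = (T0 + n * l) + l := by push_cast; ring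
      rw [e1, ← intervalIntegral.integral_add_adjacent_intervals
        (hgii 0 (T0 + n * l) le_rfl (by linarith)) (hgii (T0 + n * l) _ (by linarith) (by linarith)),
        Finset.sum_range_succ]
      have h1 := step (T0 + n * l) (by linarith)
      have h2 : Real.exp (-(x / 2) * (T0 + n * l)) = D * r ^ n := by
        rw [hD, hr, ← Real.exp_nat_mul, ← Real.exp_add]
        congr 1
        ring
      rw [h2] at h1
      linarith
  have hsum : ∀ n : ℕ, ∑ k ∈ Finset.range n, r ^ k ≤ (1 - r)⁻¹ := by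
    intro n
    have h1 := (summable_geometric_of_lt_one hr0.le hr1).sum_le_tsum (Finset.range n)
      (fun k _ => (pow_pos hr0 k).le)
    rwa [tsum_geometric_of_lt_one hr0.le hr1] at h1
  have hlim : Tendsto (fun n : ℕ => T0 + n * l) atTop atTop :=
    tendsto_atTop_add_const_left _ _ (tendsto_natCast_atTop_atTop.atTop_mul_const hl)
  show IntegrableOn g (Ioi 0)
  refine integrableOn_Ioi_of_intervalIntegral_norm_bounded (C + D * (1 - r)⁻¹) 0
    (fun n : ℕ => hgi (T0 + n * l)) hlim (Eventually.of_forall fun n => ?_)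
  have e : (∫ t in (0 : ℝ)..(T0 + n * l), ‖g t‖) = ∫ t in (0 : ℝ)..(T0 + n * l), g t := by
    refine intervalIntegral.integral_congr fun t _ => ?_
    exact Real.norm_of_nonneg (hg0 t)
  rw [e]
  refine (key n).trans ?_
  have h1 := hsum n
  have h2 : 0 < D := Real.exp_pos _
  nlinarith

end Pool.Agent.Helper29.MS
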