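import Pool.Agent.Helper29.MS.Base

/-!
MS-17. Landau's theorem for a Setup with an arbitrary one-sided majorant.

PROOF. This is `landau_setup` (Helper58/BSD/TLand.lean) with `C (1 + t)` replaced by a measurable `g ≥ 0` with `LapInt g x` for all `x > 0`;
in that proof `g` is already an abstract function (`hg`, `hgi`, `hnn`, `hgnn`): copy the proof and delete the definition of `g`.
-/

set_option autoImplicit false

namespace Pool.Agent.Helper29.MS

open Complex Filter Topology MeasureTheory Set Metric
open Pool.Agent.Helper13.Bsd Pool.Agent.Helper7.GW Pool.Agent.Helper58.BSD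

variable {v : ℝ → ℝ} {G : ℂ → ℂ} {A a η : ℝ}

theorem landau_gen (hS : Setup v G A a η) {g : ℝ → ℝ} (hg : Measurable g) (hgi : ∀ x, 0 < x → LapInt g x)
    (hg0 : ∀ t, 0 < t → 0 ≤ g t) (hup : ∀ t, 0 < t → v t ≤ g t) :
    (∀ x, 0 < x → LapInt v x) ∧ ∀ w : ℂ, 0 < w.re → G w = cexp (-(w * Lap v w)) := by
  suffices hkey : ∀ x, 0 < x → LapInt v x from
    ⟨hkey, fun w hw => identity_continue hS 0 le_rfl hkey w hw⟩
  have hη := hS.hη
  have ha := hS.grow.ha
  have hnn : ∀ t, 0 < t → 0 ≤ g t - v t := fun t ht => by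
    have := hup t ht
    linarith
  have hgnn : ∀ t, 0 < t → 0 ≤ g t := hg0
  have hGd : ∀ w : ℂ, 0 < w.re → DifferentiableAt ℂ G w := fun w hw => by
    apply hS.diff.differentiableAt
    apply (isOpen_lt continuous_const continuous_re).mem_nhds
    show -η < w.re
    linarith
  by_contra hcon
  push Not at hcon
  obtain ⟨x1, hx1, hx1n⟩ := hcon
  have hLm := hS.grow.meas
  set B : Set ℝ := {x | 0 < x ∧ ¬ LapInt v x} with hB
  have hBne : B.Nonempty := ⟨x1, hx1, hx1n⟩
  have hBbdd : BddAbove B := by
    refine ⟨a + 1, ?_⟩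
    rintro x ⟨-, hx⟩
    by_contra h
    push Not at h
    exact hx (lapInt_of_grow hS.grow x (by linarith))
  set σ0 := sSup B with hσ0
  have hσpos : 0 < σ0 := lt_of_lt_of_le hx1 (le_csSup hBbdd ⟨hx1, hx1n⟩)
  have hgt : ∀ x, σ0 < x → LapInt v x := by
    intro x hx
    by_contra h
    have : x ≤ σ0 := le_csSup hBbdd ⟨hσpos.trans hx, h⟩
    linarith
  have hlt : ∀ x, 0 < x → x < σ0 → ¬ LapInt v x := by
    intro x hx hxσ h
    obtain ⟨y, hy, hxy⟩ := exists_lt_of_lt_csSup hBne hxσ
    exact hy.2 (h.mono hLm hxy.le)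
  have hid := identity_continue hS σ0 hσpos.le hgt
  have hσre : 0 < ((σ0 : ℝ) : ℂ).re := by rw [ofReal_re]; exact hσpos
  have hGc : ContinuousAt G (σ0 : ℂ) := (hGd _ hσre).continuousAt
  by_cases hG0 : G (σ0 : ℂ) = 0
  · -- a real zero; then the upper bound is violated
    set σ1 := σ0 / 2 with hσ1
    have hσ10 : 0 < σ1 := by rw [hσ1]; linarith
    have hσ1σ : σ1 < σ0 := by rw [hσ1]; linarith
    set K := ∫ t in Ioi (0 : ℝ), g t * Real.exp (-σ1 * t) with hK
    have hK0 : 0 ≤ K := by
      rw [hK]
      apply setIntegral_nonneg measurableSet_Ioi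
      intro t ht
      exact mul_nonneg (hgnn t ht) (Real.exp_pos _).le
    have hupper : ∀ x, σ0 < x → ∫ t in Ioi (0 : ℝ), v t * Real.exp (-x * t) ≤ K := by
      intro x hx
      rw [hK]
      apply setIntegral_mono_on (hgt x hx) (hgi σ1 hσ10) measurableSet_Ioi
      intro t ht
      have ht' : 0 < t := ht
      have h1 : Real.exp (-x * t) ≤ Real.exp (-σ1 * t) := by
        rw [Real.exp_le_exp]
        nlinarith
      have h2 := hnn t ht'
      calc v t * Real.exp (-x * t) ≤ g t * Real.exp (-x * t) := by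
            gcongr
            linarith
        _ ≤ g t * Real.exp (-σ1 * t) := mul_le_mul_of_nonneg_left h1 (hgnn t ht')
    have hnormG : ∀ x : ℝ, σ0 < x → ‖G (x : ℂ)‖
        = Real.exp (-(x * ∫ t in Ioi (0 : ℝ), v t * Real.exp (-x * t))) := by
      intro x hx
      rw [hid (x : ℂ) (by rw [ofReal_re]; exact hx), norm_exp, re_Lap_ofReal]
      congr 1
      rw [neg_re, ← ofReal_mul, ofReal_re]
    have hcontG : Tendsto (fun x : ℝ => ‖G (x : ℂ)‖) (𝓝[>] σ0) (𝓝 0) := by
      have h1 : Tendsto (fun x : ℝ => (x : ℂ)) (𝓝[>] σ0) (𝓝 (σ0 : ℂ)) :=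
        (continuous_ofReal.tendsto σ0).mono_left nhdsWithin_le_nhds
      have h2 := (hGc.tendsto).comp h1
      have h3 := h2.norm
      rw [hG0, norm_zero] at h3
      exact h3
    have hev2 : ∀ᶠ x : ℝ in 𝓝[>] σ0, x < σ0 + 1 := by
      have : ∀ᶠ x : ℝ in 𝓝 σ0, x < σ0 + 1 := gt_mem_nhds (by linarith)
      exact this.filter_mono nhdsWithin_le_nhds
    have hev3 : ∀ᶠ x : ℝ in 𝓝[>] σ0, σ0 < x := self_mem_nhdsWithin
    have hev : ∀ᶠ x : ℝ in 𝓝[>] σ0, Real.exp (-((σ0 + 1) * K)) ≤ ‖G (x : ℂ)‖ := by
      filter_upwards [hev2, hev3] with x h2 h3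
      rw [hnormG x h3, Real.exp_le_exp]
      have h4 := hupper x h3
      have h5 : x * ∫ t in Ioi (0 : ℝ), v t * Real.exp (-x * t) ≤ (σ0 + 1) * K := by
        calc x * ∫ t in Ioi (0 : ℝ), v t * Real.exp (-x * t) ≤ x * K := by
              gcongr
              linarith
          _ ≤ (σ0 + 1) * K := by gcongr
      linarith
    have := ge_of_tendsto hcontG hev
    exact absurd this (not_le.mpr (Real.exp_pos _))
  · -- no zero at σ0: analytic continuation plus Landau
    have hGne : 0 < ‖G (σ0 : ℂ)‖ := norm_pos_iff.mpr hG0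
    obtain ⟨r, hr0, hr⟩ := Metric.continuousAt_iff.mp hGc ‖G (σ0 : ℂ)‖ hGne
    set r' := min r σ0 with hr'
    have hr'0 : 0 < r' := lt_min hr0 hσpos
    set ρ := r' / 3 with hρ
    have hρ0 : 0 < ρ := by positivity
    have h3ρ : 3 * ρ = r' := by rw [hρ]; ring
    have hball_re : ∀ w ∈ Metric.ball (σ0 : ℂ) (3 * ρ), 0 < w.re := by
      intro w hw
      rw [h3ρ, Metric.mem_ball, dist_eq_norm] at hw
      have h1 : ‖w - (σ0 : ℂ)‖ < σ0 := hw.trans_le (min_le_right _ _)
      have h2 := (abs_lt.mp ((abs_re_le_norm (w - (σ0 : ℂ))).trans_lt h1)).1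
      simp only [sub_re, ofReal_re] at h2
      linarith
    have hslit : ∀ w ∈ Metric.ball (σ0 : ℂ) (3 * ρ), G w / G (σ0 : ℂ) ∈ slitPlane := by
      intro w hw
      have hw' : dist w (σ0 : ℂ) < r := by
        rw [h3ρ, Metric.mem_ball] at hw
        exact hw.trans_le (min_le_left _ _)
      have h1 := hr hw'
      rw [dist_eq_norm] at h1
      have h2 : G w / G (σ0 : ℂ) = 1 + (G w - G (σ0 : ℂ)) / G (σ0 : ℂ) := by
        field_simp
        ring
      rw [h2]
      apply mem_slitPlane_of_norm_lt_one
      rw [norm_div, div_lt_one hGne]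
      exact h1
    set q : ℂ → ℂ := fun w => log (G w / G (σ0 : ℂ)) with hq
    have hqd : DifferentiableOn ℂ q (Metric.ball (σ0 : ℂ) (3 * ρ)) := by
      intro w hw
      apply DifferentiableAt.differentiableWithinAt
      exact ((hGd w (hball_re w hw)).div_const _).clog (hslit w hw)
    have hqexp : ∀ w ∈ Metric.ball (σ0 : ℂ) (3 * ρ), exp (q w) = G w / G (σ0 : ℂ) := by
      intro w hw
      simp only [hq]
      exact exp_log (slitPlane_ne_zero (hslit w hw))
    set U : Set ℂ := Metric.ball (σ0 : ℂ) (3 * ρ) ∩ {w : ℂ | σ0 < w.re} with hU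
    have hUopen : IsOpen U := Metric.isOpen_ball.inter (isOpen_lt continuous_const continuous_re)
    have hUpre : IsPreconnected U :=
      ((convex_ball _ _).inter (convex_halfSpace_re_gt σ0)).isPreconnected
    set E : ℂ → ℂ := fun w => -(w * Lap v w) - q w with hE
    have hEd : DifferentiableOn ℂ E U := by
      apply DifferentiableOn.sub
      · apply DifferentiableOn.neg
        exact differentiableOn_id.mul ((differentiableOn_Lap hLm σ0 hgt).mono fun w hw => hw.2)
      · exact hqd.mono inter_subset_left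
    have hEexp : ∀ w ∈ U, exp (E w) = G (σ0 : ℂ) := by
      intro w hw
      simp only [hE]
      rw [exp_sub, ← hid w hw.2, hqexp w hw.1]
      have : G w ≠ 0 := by
        rw [hid w hw.2]
        exact exp_ne_zero _
      field_simp
    have hEderiv : U.EqOn (deriv E) 0 := by
      intro w hw
      have hEat : DifferentiableAt ℂ E w := hEd.differentiableAt (hUopen.mem_nhds hw)
      have h1 : HasDerivAt (fun w => exp (E w)) (exp (E w) * deriv E w) w :=
        hEat.hasDerivAt.cexp
      have h2 : (fun w => exp (E w)) =ᶠ[𝓝 w] fun _ => G (σ0 : ℂ) := by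
        filter_upwards [hUopen.mem_nhds hw] with v hv using hEexp v hv
      have h3 : HasDerivAt (fun w => exp (E w)) 0 w :=
        (hasDerivAt_const w (G (σ0 : ℂ))).congr_of_eventuallyEq h2
      have h4 := h1.unique h3
      exact (mul_eq_zero.mp h4).resolve_left (exp_ne_zero _)
    set ws : ℂ := ((σ0 + ρ : ℝ) : ℂ) with hws
    have hwsU : ws ∈ U := by
      refine ⟨?_, ?_⟩
      · rw [Metric.mem_ball, dist_eq_norm, hws, ← ofReal_sub, norm_real, Real.norm_eq_abs]
        have : σ0 + ρ - σ0 = ρ := by ring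
        rw [this, abs_of_pos hρ0]
        linarith
      · show σ0 < ws.re
        rw [hws, ofReal_re]
        linarith
    have hEconst : ∀ w ∈ U, E w = E ws := fun w hw =>
      hUopen.is_const_of_deriv_eq_zero hUpre hEd hEderiv hw hwsU
    -- the decomposition of b
    set b : ℝ → ℝ := fun t => g t - v t with hb
    have hbm : Measurable b := hg.sub hLm
    set b1 : ℝ → ℝ := (Iic 0).indicator b with hb1
    set b2 : ℝ → ℝ := (Ioi 0).indicator b with hb2
    have hb1m : Measurable b1 := hbm.indicator measurableSet_Iic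
    have hb2m : Measurable b2 := hbm.indicator measurableSet_Ioi
    have hb2nn : ∀ t, 0 ≤ b2 t := by
      intro t
      rw [hb2]
      apply indicator_nonneg
      intro t ht
      exact hnn t ht
    have hbint : ∀ x, σ0 < x → LapInt b x := fun x hx =>
      (hgi x (hσpos.trans hx)).sub (hgt x hx)
    have hb1int : ∀ x, LapInt b1 x := fun x => (hbint (σ0 + 1) (by linarith)).indicator_Iic hbm 0 x
    have hb2int : ∀ x, σ0 < x → LapInt b2 x := fun x hx => (hbint x hx).indicator measurableSet_Ioi
    have hb12 : ∀ t, b2 t = (g t - v t) - b1 t := by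
      intro t
      by_cases ht : 0 < t
      · have h1 : t ∉ Iic (0 : ℝ) := by simpa using ht
        rw [hb2, hb1, indicator_of_mem (show t ∈ Ioi (0 : ℝ) from ht), indicator_of_notMem h1]
        simp [hb]
      · have h1 : t ∈ Iic (0 : ℝ) := by simpa using ht
        have h2 : t ∉ Ioi (0 : ℝ) := by simpa using ht
        rw [hb2, hb1, indicator_of_mem h1, indicator_of_notMem h2]
        simp [hb]
    have hLapb2 : ∀ w : ℂ, σ0 < w.re → Lap b2 w = Lap g w - Lap v w - Lap b1 w := by
      intro w hw
      have h1 : b2 = fun t => b t - b1 t := by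
        funext t
        rw [hb12 t]
      rw [h1, Lap_sub hbm hb1m (hbint w.re hw) (hb1int w.re)]
      rw [hb, Lap_sub hg hLm (hgi w.re (hσpos.trans hw)) (hgt w.re hw)]
    -- the analytic continuation
    set Ψw : ℂ → ℂ := fun w => Lap g w - ((- q w - E ws) / w) - Lap b1 w with hΨw
    have hΨd : DifferentiableOn ℂ Ψw (Metric.ball (σ0 : ℂ) (3 * ρ)) := by
      apply DifferentiableOn.sub
      · apply DifferentiableOn.sub
        · exact (differentiableOn_Lap hg 0 hgi).mono fun w hw => hball_re w hw
        · apply DifferentiableOn.div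
          · exact hqd.neg.sub_const _
          · exact differentiableOn_id
          · intro w hw h0
            have h1 := hball_re w hw
            have h2 : w = 0 := h0
            rw [h2, zero_re] at h1
            linarith
      · exact (differentiableOn_Lap hb1m 0 fun x _ => hb1int x).mono fun w hw => hball_re w hw
    have hΨeq : ∀ w ∈ U, Lap b2 w = Ψw w := by
      intro w hw
      rw [hLapb2 w hw.2]
      simp only [hΨw]
      have h1 := hEconst w hw
      have hw0 : w ≠ 0 := by
        rintro rfl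
        have : σ0 < (0 : ℂ).re := hw.2
        rw [zero_re] at this
        linarith
      have h2 : Lap v w = (- q w - E ws) / w := by
        rw [eq_div_iff hw0, ← h1]
        simp only [hE]
        ring
      rw [h2]
    have hmapball : ∀ z ∈ Metric.ball ((-σ0 : ℝ) : ℂ) (3 * ρ), -z ∈ Metric.ball (σ0 : ℂ) (3 * ρ) := by
      intro z hz
      rw [Metric.mem_ball, dist_eq_norm] at *
      have : -z - (σ0 : ℂ) = -(z - ((-σ0 : ℝ) : ℂ)) := by push_cast; ring
      rw [this, norm_neg]
      exact hz
    have hL := landau (dens b2) (ae_nonneg_dens b2) (-σ0) ?_ (fun z => Ψw (-z)) ρ hρ0 ?_ ?_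
    · rw [integrable_dens_iff hb2m hb2nn] at hL
      have hx : -(-σ0 + ρ / 2) = σ0 - ρ / 2 := by ring
      rw [hx] at hL
      have hθx : 0 < σ0 - ρ / 2 := by
        have : r' ≤ σ0 := min_le_right _ _
        linarith
      apply hlt (σ0 - ρ / 2) hθx (by linarith)
      have h1 : LapInt (fun t => g t - b1 t - b2 t) (σ0 - ρ / 2) :=
        ((hgi _ hθx).sub (hb1int _)).sub hL
      have h2 : (fun t => g t - b1 t - b2 t) = v := by
        funext t
        rw [hb12 t]
        ring
      rwa [h2] at h1
    · intro x hx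
      rw [integrable_dens_iff hb2m hb2nn]
      exact hb2int (-x) (by linarith)
    · exact hΨd.comp differentiableOn_id.neg hmapball
    · intro z hz hzre
      rw [integral_dens hb2m hb2nn]
      apply hΨeq
      refine ⟨hmapball z hz, ?_⟩
      show σ0 < (-z).re
      rw [neg_re]
      linarith

end Pool.Agent.Helper29.MS
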