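import Pool.Agent.Helper29.MS.HDef
import Pool.Agent.Helper29.MS.LandG
import Pool.Agent.Helper29.MS.Dyad

/-!
MS-21. The one-sided mean bound implies the Riemann hypothesis; the mean form implies the one-sided mean bound.

PROOF of `bwd`. `Setup v G A (1/2) (1/100)`, `v t = LL t - ee t`, `G = GG` (`bsd_setup`). `f t = indicator (Ioi 1) (fun t => max (hh (e^t)) 0) t`:
measurable, `≥ 0`, bounded on `(0, T]` (`hh_bdd`), and by `int_comp_exp` (with `e^{T + log 2} = 2 e^T`, `X = e^T`, `X ^ ε = e^{ε T}`) the hypothesis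
gives the one of `lapInt_of_dyadic`. So `LapInt f x` for all `x > 0`. For `t > 1`:
`v t = hh (e^t) - SS (e^t) + r log t + log (kon F) - ee t ≤ f t + (r + C) (1 + t)` (`SS ≥ 0`, `ee_bdd`), for `0 < t ≤ 1`: `v t ≤ A e^{1/2}`. So
`g t = f t + C' * (1 + t)` is a majorant, `LapInt g x` (`lapInt_lin`). `landau_gen`: `G w = exp (..) ≠ 0` for `Re w > 0`, so
`F (1 + w) ≠ 0` by `GG_zero_iff`; `ρ = 1 + w`.

PROOF of `one_sided_of_mean`. Eventually `∫_X^{2X} |hh| / x ≤ 1 ≤ X ^ ε` and `max (hh x) 0 / x ≤ |hh x| / x` (`x > 0`), both integrable on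
`(X, 2 X]`, `X ≥ 2` (measurable and bounded by `hh_bdd`).
-/

set_option autoImplicit false

namespace Pool.Agent.Helper29.MS

open Complex Filter Topology MeasureTheory Set
open Pool.Agent.Helper13.Bsd Pool.Agent.Helper7.GW Pool.Agent.Helper58.BSD

section

variable (W : WeierstrassCurve ℤ) (N : ℕ → ℕ)
    (hNdef : ∀ p : ℕ, N p = 1 + ((Finset.range p ×ˢ Finset.range p).filter
      (fun q : ℕ × ℕ => (p : ℤ) ∣ ((q.2 : ℤ) ^ 2 + W.a₁ * (q.1 : ℤ) * (q.2 : ℤ) + W.a₃ * (q.2 : ℤ)
        - ((q.1 : ℤ) ^ 3 + W.a₂ * (q.1 : ℤ) ^ 2 + W.a₄ * (q.1 : ℤ) + W.a₆)))).card)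

include hNdef in
theorem bwd (hΔ : W.Δ ≠ 0) (F : ℂ → ℂ) (hFd : Differentiable ℂ F) (hF : EulerHyp W N F)
    (h : ∀ ε : ℝ, 0 < ε → ∀ᶠ X : ℝ in atTop, ∫ x in X..(2 * X), max (hh W N F x) 0 / x ≤ X ^ ε) :
    ∀ ρ : ℂ, 1 < ρ.re → F ρ ≠ 0 := by
  have hN := nhyp W N hNdef
  have hB : EulerB N (badW W) F := hF
  obtain ⟨A, hS⟩ := bsd_setup hN F hFd hB
  obtain ⟨C0, hC00, hC0⟩ := ee_bdd (bad := badW W) hN
  obtain ⟨C1, hC1, hSS⟩ := SSb_bdd (bad := badW W) hN
  have hA := hS.grow.hA
  set r : ℕ := analyticOrderNatAt F 1 with hr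
  set f : ℝ → ℝ := (Ioi (1 : ℝ)).indicator (fun t => max (hh W N F (Real.exp t)) 0) with hf
  have hfm : Measurable f :=
    (((measurable_hh W N F).comp Real.measurable_exp).max measurable_const).indicator measurableSet_Ioi
  have hf0 : ∀ t, 0 ≤ f t := by
    intro t
    apply indicator_nonneg
    intro t _
    exact le_max_right _ _
  have hloc : ∀ T : ℝ, IntegrableOn f (Ioc 0 T) := by
    intro T
    obtain ⟨C, hC0', hC⟩ := hh_bdd W N hNdef hΔ F hFd hF 1 T one_pos
    apply Measure.integrableOn_of_bounded (M := C) (by simp) hfm.aestronglyMeasurable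
    filter_upwards [ae_restrict_mem measurableSet_Ioc] with t ht
    rw [Real.norm_eq_abs, abs_of_nonneg (hf0 t), hf, indicator_apply]
    split_ifs with h1
    · have h2 := hC t (le_of_lt h1) ht.2
      exact max_le ((le_abs_self _).trans h2) hC0'
    · exact hC0'
  have hdy : ∀ ε : ℝ, 0 < ε → ∃ T0 : ℝ, ∀ T, T0 ≤ T →
      ∫ t in T..(T + Real.log 2), f t ≤ Real.exp (ε * T) := by
    intro ε hε
    obtain ⟨X0, hX0⟩ := eventually_atTop.mp (h ε hε)
    refine ⟨max 1 (Real.log (max X0 1)), fun T hT => ?_⟩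
    have hT1 : 1 ≤ T := (le_max_left _ _).trans hT
    have hX : X0 ≤ Real.exp T := by
      have h1 : Real.log (max X0 1) ≤ T := (le_max_right _ _).trans hT
      rw [Real.log_le_iff_le_exp (by positivity)] at h1
      exact (le_max_left _ _).trans h1
    have h2 := hX0 _ hX
    have hl2 : 0 < Real.log 2 := Real.log_pos one_lt_two
    have h3 : 2 * Real.exp T = Real.exp (T + Real.log 2) := by
      rw [Real.exp_add, Real.exp_log two_pos, mul_comm]
    rw [h3, int_comp_exp (fun x => max (hh W N F x) 0) (by linarith : T ≤ T + Real.log 2)] at h2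
    have h4 : ∫ t in T..(T + Real.log 2), f t =
        ∫ t in T..(T + Real.log 2), max (hh W N F (Real.exp t)) 0 := by
      apply intervalIntegral.integral_congr_ae
      filter_upwards with t ht
      rw [uIoc_of_le (by linarith)] at ht
      rw [hf, indicator_of_mem]
      exact lt_of_le_of_lt hT1 ht.1
    rw [h4]
    refine h2.trans (le_of_eq ?_)
    rw [← Real.exp_mul, mul_comm]
  have hfL : ∀ x, 0 < x → LapInt f x := fun x hx => lapInt_of_dyadic hfm hf0 hloc hdy x hx
  set K : ℝ := A * Real.exp (1 / 2) + r + |Real.log (kon F)| + C0 with hK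
  have hK0 : 0 ≤ K := by positivity
  have hgm : Measurable (fun t => f t + K * (1 + t)) := hfm.add (by fun_prop)
  have hgL : ∀ x, 0 < x → LapInt (fun t => f t + K * (1 + t)) x := by
    intro x hx
    have h1 := (hfL x hx).add (lapInt_lin K hx)
    refine h1.congr (Eventually.of_forall fun t => ?_)
    simp only [Pi.add_apply]
    ring
  have hg0 : ∀ t, 0 < t → 0 ≤ f t + K * (1 + t) := by
    intro t ht
    have := hf0 t
    positivity
  have hup : ∀ t, 0 < t → LL N (badW W) t - ee N (badW W) t ≤ f t + K * (1 + t) := by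
    intro t ht
    have hft := hf0 t
    have hexp := Real.exp_pos (1 / 2)
    have habs := abs_nonneg (Real.log (kon F))
    by_cases h1 : t ≤ 1
    · have h2 := hS.grow.bd t ht
      have h3 := (le_abs_self _).trans h2
      have h4 : A * Real.exp (1 / 2 * t) ≤ A * Real.exp (1 / 2) := by
        gcongr
        linarith
      have h5 : A * Real.exp (1 / 2) ≤ K := by
        rw [hK]
        have : (0 : ℝ) ≤ r := Nat.cast_nonneg _
        linarith
      have h6 : K ≤ K * (1 + t) := by nlinarith
      linarith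
    · push Not at h1
      have h2 := hh_exp W N hNdef hΔ F hFd hF t ht
      have h3 := (hSS (Real.exp t)).1
      rw [← SS_eq] at h3
      have h4 := (abs_le.mp (hC0 t ht)).1
      have h5 : f t = max (hh W N F (Real.exp t)) 0 := by
        rw [hf, indicator_of_mem]
        exact h1
      have h6 : hh W N F (Real.exp t) ≤ f t := by
        rw [h5]
        exact le_max_left _ _
      have h7 : Real.log t ≤ t := (Real.log_le_sub_one_of_pos ht).trans (by linarith)
      have h8 : (r : ℝ) * Real.log t ≤ r * t := by gcongr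
      have h9 := le_abs_self (Real.log (kon F))
      have h10 : (r : ℝ) * t + |Real.log (kon F)| + C0 ≤ K * (1 + t) := by
        have e1 : K * (1 + t) = A * Real.exp (1 / 2) * (1 + t) + r * (1 + t) +
            |Real.log (kon F)| * (1 + t) + C0 * (1 + t) := by
          rw [hK]; ring
        have e2 : 0 ≤ A * Real.exp (1 / 2) * (1 + t) := by positivity
        have e3 : (r : ℝ) * t ≤ r * (1 + t) := by
          gcongr
          linarith
        have e4 : |Real.log (kon F)| ≤ |Real.log (kon F)| * (1 + t) := by nlinarith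
        have e5 : C0 ≤ C0 * (1 + t) := by nlinarith
        linarith
      rw [← hr] at h2
      linarith
  have hL := (landau_gen hS hgm hgL hg0 hup).2
  intro ρ hρ hzero
  have h1 : 0 < (ρ - 1).re := by
    simp only [sub_re, one_re]
    linarith
  have h2 := hL (ρ - 1) h1
  have h3 : GG N (badW W) F (ρ - 1) = 0 := by
    rw [GG_zero_iff hN F (ρ - 1) h1.le]
    rw [add_sub_cancel]
    exact hzero
  rw [h3] at h2
  exact exp_ne_zero _ h2.symm

include hNdef in
theorem one_sided_of_mean (hΔ : W.Δ ≠ 0) (F : ℂ → ℂ) (hFd : Differentiable ℂ F) (hF : EulerHyp W N F)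
    (h : Tendsto (fun X : ℝ => ∫ x in X..(2 * X), |hh W N F x| / x) atTop (𝓝 0)) :
    ∀ ε : ℝ, 0 < ε → ∀ᶠ X : ℝ in atTop, ∫ x in X..(2 * X), max (hh W N F x) 0 / x ≤ X ^ ε := by
  intro ε hε
  filter_upwards [h.eventually (gt_mem_nhds one_pos), eventually_ge_atTop (2 : ℝ)] with X h1 hX
  obtain ⟨C, hC0, hC⟩ := hh_bdd W N hNdef hΔ F hFd hF (Real.log X) (Real.log (2 * X))
    (Real.log_pos (by linarith))
  have hm := measurable_hh W N F
  have hb : ∀ x ∈ Icc X (2 * X), |hh W N F x| ≤ C := by
    intro x hx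
    have hx0 : 0 < x := by linarith [hx.1]
    have h2 := hC (Real.log x) (Real.log_le_log (by linarith) hx.1) (Real.log_le_log hx0 hx.2)
    rwa [Real.exp_log hx0] at h2
  have hint : ∀ q : ℝ → ℝ, Measurable q → (∀ x ∈ Icc X (2 * X), |q x| ≤ C) →
      IntervalIntegrable (fun x => q x / x) volume X (2 * X) := by
    intro q hq hqb
    rw [intervalIntegrable_iff_integrableOn_Icc_of_le (by linarith)]
    have hqm : Measurable (fun x => q x / x) := hq.div measurable_id
    apply Measure.integrableOn_of_bounded (M := C) (by simp) hqm.aestronglyMeasurable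
    filter_upwards [ae_restrict_mem measurableSet_Icc] with x hx
    have hx1 : 1 ≤ x := by linarith [hx.1]
    rw [Real.norm_eq_abs, abs_div, abs_of_pos (by linarith : (0 : ℝ) < x)]
    exact (div_le_self (abs_nonneg _) hx1).trans (hqb x hx)
  have h2 : ∫ x in X..(2 * X), max (hh W N F x) 0 / x ≤ ∫ x in X..(2 * X), |hh W N F x| / x := by
    apply intervalIntegral.integral_mono_on (by linarith)
    · apply hint _ (hm.max measurable_const)
      intro x hx
      rw [abs_of_nonneg (le_max_right _ _)]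
      exact max_le ((le_abs_self _).trans (hb x hx)) hC0
    · apply hint _ hm.abs
      intro x hx
      rw [abs_abs]
      exact hb x hx
    · intro x hx
      have hx0 : 0 < x := by linarith [hx.1]
      gcongr
      exact max_le (le_abs_self _) (abs_nonneg _)
  have h3 : (1 : ℝ) ≤ X ^ ε := Real.one_le_rpow (by linarith) hε.le
  linarith

end

end Pool.Agent.Helper29.MS
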