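import Pool.Agent.Helper29.MS.Base
import Pool.Agent.Helper58.BSD.EFrame

/-!
MS-16. Polynomial growth of `GG` in `Re s > -1/100` and the bound of `s Lap v s` in `Re s ≥ 11`.

PROOF of `GG_growth`. `GG = Gf * exp (- Rf)`, `‖Rf w‖ ≤ ∑' ‖rterm‖ ≤ ∑' 2000 p^{-1.47} < ∞` (`rterm_bound`, `summable_primes_rpow`).
`Gf` (Helper13/Bsd/Euler.lean) is `F (1 + w)` times the finite product over `smallP` of `1` or `1 - zz N p w`, and
`‖1 - zz‖` is bounded for `Re w ≥ -1/100` (`zz` is `α_p p^{-w} - p^{-1-2w}`; `‖p^{-w}‖ = p^{-w.re} ≤ p^{1/100}`). `F (1 + w)` with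
`(1 + w).re ≥ 1/2`: `A (1 + ‖1 + w‖) ^ k ≤ |A| 2 ^ k (1 + ‖w‖) ^ k`.

PROOF of `right_bound`. For `10 < s.re`: `Lap (LL - ee) = Lap LL - Lap (psum c1 ..) - Lap (psum c2 ..)` (`Lap_sub_ee`, private in EId.lean,
copy it), `s Lap LL s = Df s = ∑' ell p^{-s}` (`Df_eq`), `lap_psum`, `lap_psum_half`; for `s.re ≥ 11` each sum is bounded by its value at
`11`: `∑' |ell| p^{-11}` etc. (`summable_Df`, `summable_coeff`, `c1_lin`, `c2_lin`, `norm_tsum_le_tsum_norm`).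
-/

set_option autoImplicit false

namespace Pool.Agent.Helper29.MS

open Complex Filter Topology MeasureTheory Set Metric
open Pool.Agent.Helper13.Bsd Pool.Agent.Helper7.GW Pool.Agent.Helper58.BSD

variable {N : ℕ → ℕ} {bad : ℕ → Prop} [DecidablePred bad]

private theorem prod_bound (N : ℕ → ℕ) (bad : ℕ → Prop) [DecidablePred bad] :
    ∃ P : ℝ, 0 ≤ P ∧ ∀ w : ℂ, -(1 / 100) < w.re →
      ‖∏ p ∈ smallP, (if bad (p : ℕ) then (1 : ℂ) else 1 - zz N p w)‖ ≤ P := by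
  refine ⟨∏ p ∈ smallP, (1 + |alp N (p : ℕ)| * ((p : ℕ) : ℝ) ^ (1 / 100 : ℝ)
    + (((p : ℕ) : ℝ))⁻¹ * (((p : ℕ) : ℝ) ^ (1 / 100 : ℝ)) ^ 2), ?_, ?_⟩
  · apply Finset.prod_nonneg
    intro p _
    positivity
  · intro w hw
    rw [norm_prod]
    apply Finset.prod_le_prod (fun p _ => norm_nonneg _)
    intro p _
    have hp1 : (1 : ℝ) ≤ ((p : ℕ) : ℝ) := by exact_mod_cast p.2.one_le
    have hX : ‖((p : ℕ) : ℂ) ^ (-w)‖ ≤ ((p : ℕ) : ℝ) ^ (1 / 100 : ℝ) := by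
      rw [norm_X p p.2]
      exact Real.rpow_le_rpow_of_exponent_le hp1 (by linarith)
    have hp0 : (0 : ℝ) ≤ (((p : ℕ) : ℝ))⁻¹ := by positivity
    have hQ : (0 : ℝ) ≤ ((p : ℕ) : ℝ) ^ (1 / 100 : ℝ) := by positivity
    split_ifs
    · rw [norm_one]
      have h1 : 0 ≤ |alp N (p : ℕ)| * ((p : ℕ) : ℝ) ^ (1 / 100 : ℝ) := by positivity
      have h2 : 0 ≤ (((p : ℕ) : ℝ))⁻¹ * (((p : ℕ) : ℝ) ^ (1 / 100 : ℝ)) ^ 2 := by positivity
      linarith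
    · have h1 : ‖zz N p w‖ ≤ |alp N (p : ℕ)| * ((p : ℕ) : ℝ) ^ (1 / 100 : ℝ)
          + (((p : ℕ) : ℝ))⁻¹ * (((p : ℕ) : ℝ) ^ (1 / 100 : ℝ)) ^ 2 := by
        unfold zz
        refine (norm_sub_le _ _).trans ?_
        rw [norm_mul, norm_mul, norm_real, norm_real, norm_pow, Real.norm_eq_abs, Real.norm_eq_abs,
          abs_of_nonneg hp0]
        gcongr
      calc ‖1 - zz N p w‖ ≤ ‖(1 : ℂ)‖ + ‖zz N p w‖ := norm_sub_le _ _
        _ ≤ _ := by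
          rw [norm_one]
          linarith

private theorem Rf_bound (hN : NHyp N) : ∃ R : ℝ, ∀ w : ℂ, -(1 / 100) < w.re →
    ‖Rf N bad w‖ ≤ R := by
  refine ⟨∑' p : Nat.Primes, 2000 * ((p : ℕ) : ℝ) ^ (-(147 / 100) : ℝ), ?_⟩
  intro w hw
  unfold Rf
  have hs : Summable (fun p : Nat.Primes => 2000 * ((p : ℕ) : ℝ) ^ (-(147 / 100) : ℝ)) :=
    (summable_primes_rpow (by norm_num)).mul_left _
  exact tsum_of_norm_bounded hs.hasSum fun p => rterm_bound hN p p.2 w hw.le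

theorem GG_growth (hN : NHyp N) (F : ℂ → ℂ)
    (hgr : ∃ (A : ℝ) (k : ℕ), ∀ s : ℂ, 1 / 2 ≤ s.re → ‖F s‖ ≤ A * (1 + ‖s‖) ^ k) :
    ∃ (B : ℝ) (k : ℕ), 1 ≤ B ∧ ∀ s : ℂ, -(1 / 100) < s.re → ‖GG N bad F s‖ ≤ B * (1 + ‖s‖) ^ k := by
  obtain ⟨A, k, hA⟩ := hgr
  obtain ⟨P, hP0, hP⟩ := prod_bound N bad
  obtain ⟨R, hR⟩ := Rf_bound (bad := bad) hN
  refine ⟨max 1 (|A| * 2 ^ k * P * Real.exp R), k, le_max_left _ _, ?_⟩
  intro w hw
  have h1 : ‖F (1 + w)‖ ≤ |A| * 2 ^ k * (1 + ‖w‖) ^ k := by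
    have h2 := hA (1 + w) (by
      rw [add_re, one_re]
      linarith)
    have h3 : 1 + ‖1 + w‖ ≤ 2 * (1 + ‖w‖) := by
      have h4 := norm_add_le (1 : ℂ) w
      rw [norm_one] at h4
      have h5 := norm_nonneg w
      linarith
    have h0 : 0 ≤ 1 + ‖1 + w‖ := by positivity
    calc ‖F (1 + w)‖ ≤ A * (1 + ‖1 + w‖) ^ k := h2
      _ ≤ |A| * (1 + ‖1 + w‖) ^ k := by
          gcongr
          exact le_abs_self A
      _ ≤ |A| * (2 * (1 + ‖w‖)) ^ k := by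
          gcongr
      _ = |A| * 2 ^ k * (1 + ‖w‖) ^ k := by
          rw [mul_pow]
          ring
  have h2 : ‖cexp (-Rf N bad w)‖ ≤ Real.exp R := by
    rw [norm_exp]
    apply Real.exp_le_exp.2
    have h3 := re_le_norm (-Rf N bad w)
    rw [norm_neg] at h3
    exact h3.trans (hR w hw)
  have h3 := hP w hw
  unfold GG Gf
  rw [norm_mul, norm_mul]
  calc ‖F (1 + w)‖ * ‖∏ p ∈ smallP, (if bad (p : ℕ) then (1 : ℂ) else 1 - zz N p w)‖ *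
        ‖cexp (-Rf N bad w)‖
      ≤ (|A| * 2 ^ k * (1 + ‖w‖) ^ k) * P * Real.exp R := by
        gcongr
    _ = (|A| * 2 ^ k * P * Real.exp R) * (1 + ‖w‖) ^ k := by ring
    _ ≤ max 1 (|A| * 2 ^ k * P * Real.exp R) * (1 + ‖w‖) ^ k := by
        gcongr
        exact le_max_right _ _

private theorem Lap_sub_ee' (hN : NHyp N) (w : ℂ) (hw : 10 < w.re) :
    Lap (fun t => LL N bad t - ee N bad t) w
      = Lap (LL N bad) w - Lap (fun t => psum (c1 N bad) ⌈Real.exp t⌉₊) w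
        - Lap (fun t => psum (c2 N bad) ⌈Real.exp (t / 2)⌉₊) w := by
  have i1 := (lapInt_psum (c1 N bad) 200 (by norm_num) (fun p hp => c1_lin hN p hp) w.re (by linarith)).1
  have i2 := (lapInt_psum (c2 N bad) 200 (by norm_num) (fun p hp => c2_lin hN p hp) w.re (by linarith)).2
  have i0 := LapInt_LL N bad hN.one_le hN.bd w.re (by linarith)
  have m0 := measurable_LL N bad
  have m1 : Measurable (fun t : ℝ => psum (c1 N bad) ⌈Real.exp t⌉₊) := by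
    have := measurable_psum_exp (c1 N bad) 1
    simpa using this
  have m2 := measurable_psum_exp (c2 N bad) 2
  have e : (fun t => LL N bad t - ee N bad t)
      = fun t => (LL N bad t - psum (c1 N bad) ⌈Real.exp t⌉₊) - psum (c2 N bad) ⌈Real.exp (t / 2)⌉₊ := by
    funext t
    rw [ee]
    ring
  have m01 : Measurable (fun t : ℝ => LL N bad t - psum (c1 N bad) ⌈Real.exp t⌉₊) := m0.sub m1
  have i01 : LapInt (fun t : ℝ => LL N bad t - psum (c1 N bad) ⌈Real.exp t⌉₊) w.re := i0.sub i1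
  have s1 := Lap_sub m01 m2 i01 i2
  have s2 := Lap_sub m0 m1 i0 i1
  rw [e]
  rw [s2] at s1
  exact s1

private theorem series_bound {f : Nat.Primes → ℂ} {s : ℂ} (hs : 11 ≤ s.re)
    (hf : ∀ p : Nat.Primes, ‖f p‖ ≤ 200 * ((p : ℕ) : ℝ) * ((p : ℕ) : ℝ) ^ (-s.re)) :
    ‖∑' p : Nat.Primes, f p‖ ≤ ∑' p : Nat.Primes, 200 * ((p : ℕ) : ℝ) ^ (-10 : ℝ) := by
  have hsum : Summable (fun p : Nat.Primes => 200 * ((p : ℕ) : ℝ) ^ (-10 : ℝ)) :=
    (summable_primes_rpow (by norm_num)).mul_left _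
  refine tsum_of_norm_bounded hsum.hasSum fun p => (hf p).trans ?_
  have hp1 : (1 : ℝ) ≤ ((p : ℕ) : ℝ) := by exact_mod_cast p.2.one_le
  have hp0 : (0 : ℝ) < ((p : ℕ) : ℝ) := by linarith
  have h1 : ((p : ℕ) : ℝ) ^ (-s.re) ≤ ((p : ℕ) : ℝ) ^ (-11 : ℝ) :=
    Real.rpow_le_rpow_of_exponent_le hp1 (by linarith)
  have h2 : ((p : ℕ) : ℝ) * ((p : ℕ) : ℝ) ^ (-11 : ℝ) = ((p : ℕ) : ℝ) ^ (-10 : ℝ) := by
    have h3 : (-10 : ℝ) = 1 + -11 := by norm_num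
    rw [h3, Real.rpow_add hp0, Real.rpow_one]
  calc 200 * ((p : ℕ) : ℝ) * ((p : ℕ) : ℝ) ^ (-s.re)
      ≤ 200 * ((p : ℕ) : ℝ) * ((p : ℕ) : ℝ) ^ (-11 : ℝ) := by gcongr
    _ = 200 * ((p : ℕ) : ℝ) ^ (-10 : ℝ) := by rw [mul_assoc, h2]

theorem right_bound (hN : NHyp N) :
    ∃ B : ℝ, 0 ≤ B ∧ ∀ s : ℂ, 11 ≤ s.re → ‖s * Lap (fun t => LL N bad t - ee N bad t) s‖ ≤ B := by
  refine ⟨3 * ∑' p : Nat.Primes, 200 * ((p : ℕ) : ℝ) ^ (-10 : ℝ), ?_, ?_⟩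
  · have : 0 ≤ ∑' p : Nat.Primes, 200 * ((p : ℕ) : ℝ) ^ (-10 : ℝ) :=
      tsum_nonneg fun p => by positivity
    linarith
  · intro s hs
    have hs10 : 10 < s.re := by linarith
    have e1 := lap_psum (c1 N bad) 200 (by norm_num) (fun p hp => c1_lin hN p hp) s hs10
    have e2 := lap_psum_half (c2 N bad) 200 (by norm_num) (fun p hp => c2_lin hN p hp) s hs10
    have e0 := Df_eq N bad hN.one_le hN.bd s hs10
    have hX : ∀ p : Nat.Primes, ‖((p : ℕ) : ℂ) ^ (-s)‖ = ((p : ℕ) : ℝ) ^ (-s.re) :=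
      fun p => norm_X p p.2 s
    have b0 : ‖Df N bad s‖ ≤ ∑' p : Nat.Primes, 200 * ((p : ℕ) : ℝ) ^ (-10 : ℝ) := by
      unfold Df
      apply series_bound hs
      intro p
      split_ifs
      · rw [norm_zero]
        positivity
      · rw [norm_mul, norm_real, Real.norm_eq_abs, hX p]
        have h1 := ell_bound N hN.one_le hN.bd p p.2
        have h2 : (0 : ℝ) ≤ ((p : ℕ) : ℝ) := Nat.cast_nonneg _
        have h3 : |ell N p| ≤ 200 * ((p : ℕ) : ℝ) := by linarith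
        gcongr
    have b1 : ‖∑' p : Nat.Primes, (c1 N bad p : ℂ) * ((p : ℕ) : ℂ) ^ (-s)‖ ≤
        ∑' p : Nat.Primes, 200 * ((p : ℕ) : ℝ) ^ (-10 : ℝ) := by
      apply series_bound hs
      intro p
      rw [norm_mul, norm_real, Real.norm_eq_abs, hX p]
      have h1 := c1_lin (bad := bad) hN p p.2
      gcongr
    have b2 : ‖∑' p : Nat.Primes, (c2 N bad p : ℂ) * (((p : ℕ) : ℂ) ^ (-s)) ^ 2‖ ≤
        ∑' p : Nat.Primes, 200 * ((p : ℕ) : ℝ) ^ (-10 : ℝ) := by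
      apply series_bound hs
      intro p
      have h1 := c2_lin (bad := bad) hN p p.2
      have h2 := norm_X_le_one (p : ℕ) p.2 s (by linarith)
      have h3 := norm_nonneg (((p : ℕ) : ℂ) ^ (-s))
      have h4 : ‖((p : ℕ) : ℂ) ^ (-s)‖ ^ 2 ≤ ‖((p : ℕ) : ℂ) ^ (-s)‖ := by nlinarith
      rw [norm_mul, norm_real, Real.norm_eq_abs, norm_pow, ← hX p]
      calc |c2 N bad p| * ‖((p : ℕ) : ℂ) ^ (-s)‖ ^ 2
          ≤ |c2 N bad p| * ‖((p : ℕ) : ℂ) ^ (-s)‖ := by gcongr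
        _ ≤ 200 * ((p : ℕ) : ℝ) * ‖((p : ℕ) : ℂ) ^ (-s)‖ := by gcongr
    rw [Lap_sub_ee' hN s hs10, mul_sub, mul_sub, ← e0, e1, e2]
    refine (norm_sub_le _ _).trans ?_
    have h5 := norm_sub_le (Df N bad s) (∑' p : Nat.Primes, (c1 N bad p : ℂ) * ((p : ℕ) : ℂ) ^ (-s))
    linarith

end Pool.Agent.Helper29.MS
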