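import Mathlib
import Pool.Agent.Helper58.BSD.TRed
import Pool.Agent.Helper58.BSD.TLand
import Pool.Agent.Helper58.BSD.TLog

/-!
# Mean square form of the Birch and Swinnerton-Dyer asymptotic: definitions and two lemmas on logarithms

`Frame`: order zero, no zeros in `Re s > 0`, polynomial growth in `Re s > -η`, `s Lap v s` bounded in `Re s ≥ c`.
`Branch`: the branch `L` of `log G` in `Re s > 0` with `L w = - w Lap v w` for `Re w > a`.
`VV L κ w = -(L w + κ) / w` is the continuation of the Laplace transform of `v - κ`.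
-/

namespace Pool.Agent.Helper29.MS

open Complex Filter Topology MeasureTheory Set Metric
open Pool.Agent.Helper13.Bsd Pool.Agent.Helper7.GW Pool.Agent.Helper58.BSD

/-- the analytic frame at order zero -/
structure Frame (v : ℝ → ℝ) (G : ℂ → ℂ) (A a η B c : ℝ) (k : ℕ) : Prop where
  setup : Setup v G A a η
  zero : G 0 ≠ 0
  rh : ∀ s : ℂ, 0 < s.re → G s ≠ 0
  hB : 1 ≤ B
  growth : ∀ s : ℂ, -η < s.re → ‖G s‖ ≤ B * (1 + ‖s‖) ^ k
  hc : a < c
  hc1 : 1 ≤ c
  right : ∀ s : ℂ, c ≤ s.re → ‖s * Lap v s‖ ≤ B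

/-- the branch of the logarithm of `G` in the right half plane -/
structure Branch (v : ℝ → ℝ) (G : ℂ → ℂ) (a : ℝ) (L : ℂ → ℂ) : Prop where
  diff : DifferentiableOn ℂ L {w : ℂ | 0 < w.re}
  exp : ∀ w : ℂ, 0 < w.re → cexp (L w) = G w
  eq : ∀ w : ℂ, a < w.re → L w = -(w * Lap v w)
  conj : ∀ w : ℂ, 0 < w.re → L ((starRingEnd ℂ) w) = (starRingEnd ℂ) (L w)

/-- the continuation of the Laplace transform of `v - κ` -/
noncomputable def VV (L : ℂ → ℂ) (κ : ℝ) (w : ℂ) : ℂ := -(L w + (κ : ℂ)) / w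

/-- a holomorphic function with constant exponential on a preconnected open set is constant -/
theorem const_of_exp {U : Set ℂ} (hU : IsOpen U) (hc : IsPreconnected U) {H : ℂ → ℂ}
    (hH : DifferentiableOn ℂ H U) {C : ℂ} (hexp : ∀ z ∈ U, cexp (H z) = C) {z w : ℂ} (hz : z ∈ U)
    (hw : w ∈ U) : H z = H w := by
  refine hU.is_const_of_deriv_eq_zero hc hH ?_ hz hw
  intro w hw
  have hat : DifferentiableAt ℂ H w := hH.differentiableAt (hU.mem_nhds hw)
  have h1 : HasDerivAt (fun w => cexp (H w)) (cexp (H w) * deriv H w) w := hat.hasDerivAt.cexp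
  have h2 : (fun w => cexp (H w)) =ᶠ[𝓝 w] fun _ => C := by
    filter_upwards [hU.mem_nhds hw] with v hv using hexp v hv
  have h3 : HasDerivAt (fun w => cexp (H w)) 0 w := (hasDerivAt_const w C).congr_of_eventuallyEq h2
  have h4 := h1.unique h3
  exact (mul_eq_zero.mp h4).resolve_left (exp_ne_zero _)

/-- a holomorphic function without zeros on a convex open set has a holomorphic logarithm -/
theorem exists_log {U : Set ℂ} (hU : IsOpen U) (hc : Convex ℝ U) (hne : U.Nonempty) {g : ℂ → ℂ}
    (hg : DifferentiableOn ℂ g U) (h0 : ∀ z ∈ U, g z ≠ 0) :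
    ∃ L : ℂ → ℂ, DifferentiableOn ℂ L U ∧ ∀ z ∈ U, cexp (L z) = g z := by
  have hsc : IsSimplyConnected U := by
    have := hc.contractibleSpace hne
    show SimplyConnectedSpace U
    infer_instance
  obtain ⟨f, hf, hfe⟩ := exists_continuousOn_eqOn_exp_comp hsc hU hg.continuousOn (by
    rintro ⟨z, hz, h⟩
    exact h0 z hz h)
  refine ⟨f, ?_, fun z hz => hfe hz⟩
  intro z hz
  apply DifferentiableAt.differentiableWithinAt
  have hfz : ContinuousAt f z := hf.continuousAt (hU.mem_nhds hz)
  have hgz : DifferentiableAt ℂ g z := hg.differentiableAt (hU.mem_nhds hz)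
  -- near `z`, `f` is `log (g · / g z) + f z`
  have hgz0 := h0 z hz
  have h1 : ∀ᶠ w in 𝓝 z, ‖f w - f z‖ < 1 := by
    have h2 := Metric.continuousAt_iff.mp hfz 1 one_pos
    obtain ⟨δ, hδ, h3⟩ := h2
    filter_upwards [Metric.ball_mem_nhds z hδ] with w hw
    have h4 := h3 hw
    rwa [dist_eq_norm] at h4
  have h2 : (fun w => log (g w / g z) + f z) =ᶠ[𝓝 z] f := by
    filter_upwards [h1, hU.mem_nhds hz] with w hw hwU
    have h3 : cexp (f w) = g w := hfe hwU
    have h4 : cexp (f z) = g z := hfe hz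
    have h5 : g w / g z = cexp (f w - f z) := by
      rw [exp_sub, h3, h4]
    have h6 := abs_lt.mp ((abs_im_le_norm (f w - f z)).trans_lt hw)
    have hpi := Real.pi_gt_three
    rw [h5, log_exp (by linarith) (by linarith)]
    ring
  refine DifferentiableAt.congr_of_eventuallyEq ?_ h2.symm
  apply DifferentiableAt.add_const
  apply DifferentiableAt.clog
  · exact hgz.div_const _
  · rw [div_self hgz0]
    exact one_mem_slitPlane

end Pool.Agent.Helper29.MS
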