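import Pool.Agent.Helper29.MS.Base

/-!
MS-4. Existence of the branch of the logarithm in the right half plane; behaviour at `0`.

PROOF of `exists_branch`. `exists_log` on `{0 < w.re}` (convex): `L0` with `exp L0 = G`. On `{a < w.re}` (`a ≥ 0`:
`hF.setup.grow.ha`), `L0 w + w Lap v w` is differentiable (`differentiableOn_Lap` of Helper13/Bsd/Laplace with `lapInt_of_grow` of
Helper58/BSD/TLand; note `lap = Lap` by `rfl`) and its exponential is `1` (`hF.setup.eq`), so it is a constant `C0`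
with `exp C0 = 1` (`const_of_exp`). `L := L0 - C0`. The field `conj`: `w ↦ conj (L (conj w))` is differentiable on `{0 < w.re}`
(`DifferentiableAt.conj_conj` or `HasDerivAt.conj_conj`) and equals `L` on `{a < w.re}` (`Lap v (conj w) = conj (Lap v w)`,
`integral_conj`, `v` real), so everywhere (`AnalyticOnNhd.eqOn_of_preconnected_of_eventuallyEq`, as in `bsd_setup` in
Helper58/BSD/EFrame.lean).

PROOF of `near_zero`. By `conj`, `L x` is real for `x > 0`, so `G x > 0` and by continuity `G 0` is real `≥ 0`, so `G 0 = ‖G 0‖ > 0`.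
Take `δ1 ≤ η` with `‖G w - G 0‖ < ‖G 0‖` for `‖w‖ < δ1`. `ℓ w := log (G w / G 0)` is differentiable on `ball 0 δ1`
(slit plane), `ℓ 0 = 0`. On `ball 0 δ1 ∩ {0 < w.re}` (convex) `L - ℓ` has exponential `G 0`, so it is constant; at real `x` it is
real, so it is `log ‖G 0‖ = - kap G`. So `L w + kap G = ℓ w` there. `‖ℓ w‖ ≤ K ‖w‖` for `‖w‖ < δ` since `ℓ` is
differentiable at `0` and `ℓ 0 = 0` (`HasDerivAt.isBigO_sub`). `VV L (kap G) w = - ℓ w / w`.
-/

set_option autoImplicit false

namespace Pool.Agent.Helper29.MS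

open Complex Filter Topology MeasureTheory Set Metric
open Pool.Agent.Helper13.Bsd Pool.Agent.Helper7.GW Pool.Agent.Helper58.BSD

variable {v : ℝ → ℝ} {G : ℂ → ℂ} {A a η B c : ℝ} {k : ℕ}

private theorem lap_conj (v : ℝ → ℝ) (w : ℂ) :
    Lap v ((starRingEnd ℂ) w) = (starRingEnd ℂ) (Lap v w) := by
  unfold Lap
  rw [← integral_conj]
  apply integral_congr_ae
  filter_upwards with t
  rw [map_mul, conj_ofReal, ← exp_conj]
  congr 2
  simp

theorem exists_branch (hF : Frame v G A a η B c k) : ∃ L : ℂ → ℂ, Branch v G a L := by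
  have hη := hF.setup.hη
  have ha := hF.setup.grow.ha
  have hopen : ∀ x : ℝ, IsOpen {w : ℂ | x < w.re} := fun x => isOpen_lt continuous_const continuous_re
  have hconv : ∀ x : ℝ, Convex ℝ {w : ℂ | x < w.re} := fun x => convex_halfSpace_re_gt x
  have hGd : DifferentiableOn ℂ G {w : ℂ | 0 < w.re} := by
    apply hF.setup.diff.mono
    intro w hw
    have h1 : 0 < w.re := hw
    show -η < w.re
    linarith
  obtain ⟨L0, hL0d, hL0e⟩ := exists_log (hopen 0) (hconv 0) ⟨1, by simp⟩ hGd hF.rh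
  have hsub : {w : ℂ | a < w.re} ⊆ {w : ℂ | 0 < w.re} := by
    intro w hw
    have h1 : a < w.re := hw
    show 0 < w.re
    linarith
  have hLapd : DifferentiableOn ℂ (Lap v) {w : ℂ | a < w.re} :=
    differentiableOn_Lap hF.setup.grow.meas a (fun x hx => lapInt_of_grow hF.setup.grow x hx)
  set w1 : ℂ := ((a + 1 : ℝ) : ℂ) with hw1
  have hw1m : w1 ∈ {w : ℂ | a < w.re} := by
    show a < w1.re
    rw [hw1, ofReal_re]
    linarith
  set C0 : ℂ := L0 w1 + w1 * Lap v w1 with hC0
  have hEd : DifferentiableOn ℂ (fun w => L0 w + w * Lap v w) {w : ℂ | a < w.re} :=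
    (hL0d.mono hsub).add (differentiableOn_id.mul hLapd)
  have hEe : ∀ w ∈ {w : ℂ | a < w.re}, cexp (L0 w + w * Lap v w) = 1 := by
    intro w hw
    rw [exp_add, hL0e w (hsub hw), hF.setup.eq w hw]
    have : lap v w = Lap v w := rfl
    rw [this, ← exp_add]
    simp
  have hconst : ∀ w : ℂ, a < w.re → L0 w + w * Lap v w = C0 := fun w hw =>
    const_of_exp (hopen a) (hconv a).isPreconnected hEd hEe hw hw1m
  have hC0e : cexp C0 = 1 := hEe w1 hw1m
  have hd : DifferentiableOn ℂ (fun w => L0 w - C0) {w : ℂ | 0 < w.re} := hL0d.sub_const _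
  have heq : ∀ w : ℂ, a < w.re → L0 w - C0 = -(w * Lap v w) := by
    intro w hw
    rw [← hconst w hw]
    ring
  refine ⟨fun w => L0 w - C0, hd, ?_, heq, ?_⟩
  · intro w hw
    rw [exp_sub, hC0e, div_one]
    exact hL0e w hw
  · -- reflection
    have h1 : AnalyticOnNhd ℂ (fun w => L0 w - C0) {w : ℂ | 0 < w.re} := hd.analyticOnNhd (hopen 0)
    have h2 : DifferentiableOn ℂ (fun w => (starRingEnd ℂ) (L0 ((starRingEnd ℂ) w) - C0)) {w : ℂ | 0 < w.re} := by
      intro w hw
      apply DifferentiableAt.differentiableWithinAt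
      have hw' : (starRingEnd ℂ) w ∈ {w : ℂ | 0 < w.re} := by
        show 0 < ((starRingEnd ℂ) w).re
        rw [conj_re]
        exact hw
      have h3 : DifferentiableAt ℂ (fun w => L0 w - C0) ((starRingEnd ℂ) w) :=
        hd.differentiableAt ((hopen 0).mem_nhds hw')
      have h4 := h3.hasDerivAt.conj_conj
      rw [conj_conj] at h4
      exact h4.differentiableAt
    have h3 : AnalyticOnNhd ℂ (fun w => (starRingEnd ℂ) (L0 ((starRingEnd ℂ) w) - C0)) {w : ℂ | 0 < w.re} :=
      h2.analyticOnNhd (hopen 0)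
    have h4 : (fun w => L0 w - C0) =ᶠ[𝓝 w1] fun w => (starRingEnd ℂ) (L0 ((starRingEnd ℂ) w) - C0) := by
      filter_upwards [(hopen a).mem_nhds hw1m] with w hw
      have hw' : a < ((starRingEnd ℂ) w).re := by
        rw [conj_re]
        exact hw
      rw [heq w hw, heq _ hw', lap_conj]
      simp
    intro w hw
    have hw' : 0 < ((starRingEnd ℂ) w).re := by
      rw [conj_re]
      exact hw
    have h5 := h1.eqOn_of_preconnected_of_eventuallyEq h3 (hconv 0).isPreconnected (hsub hw1m) h4 hw'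
    simp only [conj_conj] at h5
    exact h5

theorem near_zero (hF : Frame v G A a η B c k) {L : ℂ → ℂ} (hL : Branch v G a L) :
    ∃ δ K : ℝ, 0 < δ ∧ 0 ≤ K ∧ ∀ w : ℂ, 0 < w.re → ‖w‖ < δ → ‖VV L (kap G) w‖ ≤ K := by
  have hη := hF.setup.hη
  have hopen : ∀ x : ℝ, IsOpen {w : ℂ | x < w.re} := fun x => isOpen_lt continuous_const continuous_re
  have hconv : ∀ x : ℝ, Convex ℝ {w : ℂ | x < w.re} := fun x => convex_halfSpace_re_gt x
  have hreal : ∀ x : ℝ, 0 < x → ((L x).re : ℂ) = L x := by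
    intro x hx
    have h1 := hL.conj (x : ℂ) (by simpa using hx)
    rw [conj_ofReal] at h1
    exact conj_eq_iff_re.mp h1.symm
  have hGreal : ∀ x : ℝ, 0 < x → G x = ((Real.exp (L x).re : ℝ) : ℂ) := by
    intro x hx
    rw [← hL.exp (x : ℂ) (by simpa using hx), ofReal_exp, hreal x hx]
  have h0mem : (0 : ℂ) ∈ {s : ℂ | -η < s.re} := by
    show -η < (0 : ℂ).re
    simpa using hη
  have hG0d : DifferentiableAt ℂ G 0 := hF.setup.diff.differentiableAt ((hopen (-η)).mem_nhds h0mem)
  have hG0c : ContinuousAt G 0 := hG0d.continuousAt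
  have hlim : Tendsto (fun x : ℝ => G (x : ℂ)) (𝓝[>] 0) (𝓝 (G 0)) := by
    have h1 : Tendsto (fun x : ℝ => (x : ℂ)) (𝓝[>] (0 : ℝ)) (𝓝 ((0 : ℝ) : ℂ)) :=
      (continuous_ofReal.tendsto 0).mono_left nhdsWithin_le_nhds
    rw [ofReal_zero] at h1
    exact hG0c.tendsto.comp h1
  -- `G 0` is a positive real number
  have hG0im : (G 0).im = 0 := by
    have h1 : Tendsto (fun x : ℝ => (G (x : ℂ)).im) (𝓝[>] 0) (𝓝 (G 0).im) :=
      (continuous_im.tendsto _).comp hlim
    have h2 : Tendsto (fun x : ℝ => (G (x : ℂ)).im) (𝓝[>] 0) (𝓝 0) := by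
      apply tendsto_const_nhds.congr'
      filter_upwards [self_mem_nhdsWithin] with x hx
      rw [hGreal x hx, ofReal_im]
    exact tendsto_nhds_unique h1 h2
  have hG0re : 0 ≤ (G 0).re := by
    have h1 : Tendsto (fun x : ℝ => (G (x : ℂ)).re) (𝓝[>] 0) (𝓝 (G 0).re) :=
      (continuous_re.tendsto _).comp hlim
    apply ge_of_tendsto h1
    filter_upwards [self_mem_nhdsWithin] with x hx
    rw [hGreal x hx, ofReal_re]
    exact (Real.exp_pos _).le
  have hG0eq : G 0 = ((G 0).re : ℂ) := by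
    apply Complex.ext <;> simp [hG0im]
  have hG0pos : 0 < (G 0).re := by
    rcases hG0re.eq_or_lt with h | h
    · exfalso
      apply hF.zero
      rw [hG0eq, ← h, ofReal_zero]
    · exact h
  have hG0n : ‖G 0‖ = (G 0).re := by
    rw [hG0eq, norm_real, Real.norm_eq_abs, ofReal_re, abs_of_pos hG0pos]
  have hpos : 0 < ‖G 0‖ := by rw [hG0n]; exact hG0pos
  obtain ⟨δ0, hδ0, hδ⟩ := Metric.continuousAt_iff.mp hG0c ‖G 0‖ hpos
  set δ1 := min δ0 η with hδ1
  have hδ1pos : 0 < δ1 := lt_min hδ0 hη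
  have hball : ∀ w ∈ ball (0 : ℂ) δ1, DifferentiableAt ℂ G w ∧ G w / G 0 ∈ slitPlane := by
    intro w hw
    rw [mem_ball, dist_zero_right] at hw
    constructor
    · apply hF.setup.diff.differentiableAt
      apply (hopen (-η)).mem_nhds
      have h1 := abs_lt.mp ((abs_re_le_norm w).trans_lt (hw.trans_le (min_le_right _ _)))
      exact h1.1
    · have h1 := hδ (x := w) (by rw [dist_zero_right]; exact hw.trans_le (min_le_left _ _))
      rw [dist_eq_norm] at h1
      have h2 : G w / G 0 = 1 + (G w - G 0) / G 0 := by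
        have := hF.zero
        field_simp
        ring
      rw [h2]
      apply mem_slitPlane_of_norm_lt_one
      rw [norm_div, div_lt_one hpos]
      exact h1
  set ℓ : ℂ → ℂ := fun w => log (G w / G 0) with hℓ
  have hℓd : ∀ w ∈ ball (0 : ℂ) δ1, DifferentiableAt ℂ ℓ w := fun w hw =>
    ((hball w hw).1.div_const _).clog (hball w hw).2
  have hℓ0 : ℓ 0 = 0 := by
    simp only [hℓ]
    rw [div_self hF.zero, log_one]
  have hℓe : ∀ w ∈ ball (0 : ℂ) δ1, cexp (ℓ w) = G w / G 0 := fun w hw =>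
    exp_log (slitPlane_ne_zero (hball w hw).2)
  set D : Set ℂ := ball (0 : ℂ) δ1 ∩ {w : ℂ | 0 < w.re} with hD
  have hDo : IsOpen D := isOpen_ball.inter (hopen 0)
  have hDp : IsPreconnected D := ((convex_ball _ _).inter (hconv 0)).isPreconnected
  have hHd : DifferentiableOn ℂ (fun w => L w - ℓ w) D := by
    apply DifferentiableOn.sub
    · exact hL.diff.mono inter_subset_right
    · intro w hw
      exact (hℓd w hw.1).differentiableWithinAt
  have hHe : ∀ w ∈ D, cexp (L w - ℓ w) = G 0 := by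
    intro w hw
    rw [exp_sub, hL.exp w hw.2, hℓe w hw.1]
    have h1 := hF.rh w hw.2
    have h2 := hF.zero
    field_simp
  set x1 : ℝ := δ1 / 2 with hx1
  have hx1pos : 0 < x1 := by positivity
  have hx1D : (x1 : ℂ) ∈ D := by
    refine ⟨?_, ?_⟩
    · rw [mem_ball, dist_zero_right, norm_real, Real.norm_eq_abs, abs_of_pos hx1pos]
      linarith
    · show 0 < ((x1 : ℝ) : ℂ).re
      rw [ofReal_re]
      exact hx1pos
  have hval : L x1 - ℓ x1 = -(kap G : ℂ) := by
    have h1 : ℓ x1 = ((Real.log (Real.exp (L x1).re / (G 0).re) : ℝ) : ℂ) := by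
      change log (G x1 / G 0) = _
      rw [hGreal x1 hx1pos]
      conv_lhs => rw [hG0eq]
      rw [← ofReal_div, ofReal_log (by positivity)]
    rw [h1, ← hreal x1 hx1pos, ← ofReal_sub, ← ofReal_neg]
    congr 1
    rw [ofReal_re, Real.log_div (Real.exp_ne_zero _) hG0pos.ne', Real.log_exp, kap, hG0n]
    ring
  have hLℓ : ∀ w ∈ D, L w + (kap G : ℂ) = ℓ w := by
    intro w hw
    have h1 := const_of_exp hDo hDp hHd hHe hw hx1D
    rw [hval] at h1
    linear_combination h1
  -- `ℓ` is Lipschitz at `0`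
  have h0ball : (0 : ℂ) ∈ ball (0 : ℂ) δ1 := mem_ball_self hδ1pos
  have hO := (hℓd 0 h0ball).isBigO_sub
  obtain ⟨K, hK⟩ := hO.bound
  rw [Metric.eventually_nhds_iff] at hK
  obtain ⟨δ2, hδ2, hK⟩ := hK
  refine ⟨min δ1 δ2, |K|, lt_min hδ1pos hδ2, abs_nonneg _, ?_⟩
  intro w hw hwn
  have hw0 : w ≠ 0 := by
    rintro rfl
    simp at hw
  have hwD : w ∈ D := ⟨by rw [mem_ball, dist_zero_right]; exact hwn.trans_le (min_le_left _ _), hw⟩
  have h1 := hK (y := w) (by rw [dist_zero_right]; exact hwn.trans_le (min_le_right _ _))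
  rw [hℓ0, sub_zero, sub_zero] at h1
  unfold VV
  rw [hLℓ w hwD, norm_div, norm_neg, div_le_iff₀ (norm_pos_iff.mpr hw0)]
  exact h1.trans (by gcongr; exact le_abs_self K)

end Pool.Agent.Helper29.MS
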