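import Pool.Agent.Helper29.MS.Base

/-!
MS-1. Dividing out the zeros of a holomorphic function in a smaller disk (Blaschke).

PROOF of `exists_factor`. Let `St n` be: there are `ρ : Fin n → ℂ`, `q` with `‖ρ j‖ ≤ r`, `q` differentiable on `ball 0 R'`,
`g z = q z * ∏ (z - ρ j)` on `ball 0 R'`. `St 0` holds (`q = g`).
(a) `St n` gives the last two bounds: `b z := q z * ∏ (R² - conj (ρ j) z) / R` is differentiable on `ball 0 R'`; for `‖z‖ = R`:
`‖R² - conj ρ z‖ = R ‖z - ρ‖` (as `R² = conj z * z`), so `‖b z‖ = ‖g z‖ ≤ M`; maximum modulus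
(`Complex.norm_le_of_forall_mem_frontier_norm_le` on `ball 0 R`) gives `‖b z‖ ≤ M` on `closedBall 0 R`. At `0`: `‖b 0‖ = ‖q 0‖ R ^ n`
and `‖g 0‖ = ‖q 0‖ ∏ ‖ρ j‖ ≤ ‖q 0‖ r ^ n`, so `‖g 0‖ (R / r) ^ n ≤ M`, take logarithms.
(b) So `n ≤ log (M / ‖g 0‖) / log (R / r)`: take `n` maximal with `St n` (`Nat.findGreatest`). Then `q z ≠ 0` on `closedBall 0 r`:
otherwise `q ρ' = 0`, `q z = (z - ρ') * dslope q ρ' z`, `dslope q ρ'` is differentiable on `ball 0 R'`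
(`Complex.differentiableOn_dslope`), and `St (n + 1)` (`Fin.cons`, `Fin.prod_univ_succ`).
-/

set_option autoImplicit false

namespace Pool.Agent.Helper29.MS

open Complex Filter Topology MeasureTheory Set Metric
open scoped ComplexConjugate

/-- `g` is `q` times `n` linear factors with zeros in the disk of radius `r` -/
private def St (r R' : ℝ) (g : ℂ → ℂ) (n : ℕ) (ρ : Fin n → ℂ) (q : ℂ → ℂ) : Prop :=
  (∀ j, ‖ρ j‖ ≤ r) ∧ DifferentiableOn ℂ q (ball 0 R') ∧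
    ∀ z ∈ ball (0 : ℂ) R', g z = q z * ∏ j, (z - ρ j)

private theorem norm_blaschke {R : ℝ} (hR : 0 < R) {z ρ : ℂ} (hz : ‖z‖ = R) :
    ‖((R : ℂ) ^ 2 - conj ρ * z) / R‖ = ‖z - ρ‖ := by
  have h1 : ((R : ℂ) ^ 2 - conj ρ * z) = conj (z - ρ) * z := by
    rw [map_sub, sub_mul, Complex.conj_mul', hz]
  rw [h1, norm_div, norm_mul, Complex.norm_conj, hz, Complex.norm_real, Real.norm_of_nonneg hR.le,
    mul_div_assoc, div_self hR.ne', mul_one]

private theorem st_bound {r R R' M : ℝ} (hr : 0 < r) (hrR : r < R) (hRR : R < R') {g : ℂ → ℂ}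
    (hM : ∀ z ∈ closedBall (0 : ℂ) R, ‖g z‖ ≤ M) {n : ℕ} {ρ : Fin n → ℂ}
    {q : ℂ → ℂ} (h : St r R' g n ρ q) :
    ∀ z ∈ closedBall (0 : ℂ) R, ‖q z * ∏ j, (((R : ℂ) ^ 2 - conj (ρ j) * z) / R)‖ ≤ M := by
  obtain ⟨-, hq, hg⟩ := h
  have hR : 0 < R := hr.trans hrR
  have hsub : closedBall (0 : ℂ) R ⊆ ball 0 R' := closedBall_subset_ball hRR
  have hd : DiffContOnCl ℂ (fun z => q z * ∏ j, (((R : ℂ) ^ 2 - conj (ρ j) * z) / R))
      (ball (0 : ℂ) R) := by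
    apply DifferentiableOn.diffContOnCl
    rw [closure_ball (0 : ℂ) hR.ne']
    refine DifferentiableOn.mul (hq.mono hsub) ?_
    refine Differentiable.differentiableOn ?_
    fun_prop
  intro z hz
  refine Complex.norm_le_of_forall_mem_frontier_norm_le isBounded_ball hd ?_
    (by rwa [closure_ball (0 : ℂ) hR.ne'])
  intro w hw
  rw [frontier_ball (0 : ℂ) hR.ne', mem_sphere_zero_iff_norm] at hw
  have hw2 : w ∈ closedBall (0 : ℂ) R := by
    rw [mem_closedBall_zero_iff, hw]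
  refine le_trans (le_of_eq ?_) (hM w hw2)
  rw [hg w (hsub hw2), norm_mul, norm_mul, norm_prod, norm_prod]
  congr 1
  exact Finset.prod_congr rfl fun j _ => norm_blaschke hR hw

private theorem st_log {r R R' M : ℝ} (hr : 0 < r) (hrR : r < R) (hRR : R < R') {g : ℂ → ℂ}
    (hM : ∀ z ∈ closedBall (0 : ℂ) R, ‖g z‖ ≤ M) (h0 : g 0 ≠ 0) {n : ℕ} {ρ : Fin n → ℂ}
    {q : ℂ → ℂ} (h : St r R' g n ρ q) :
    (n : ℝ) * Real.log (R / r) ≤ Real.log (M / ‖g 0‖) := by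
  have hR : 0 < R := hr.trans hrR
  have hg0 : 0 < ‖g 0‖ := norm_pos_iff.2 h0
  have h1 := st_bound hr hrR hRR hM h 0 (by simp [hR.le])
  have e1 : ‖q 0 * ∏ j : Fin n, (((R : ℂ) ^ 2 - conj (ρ j) * 0) / R)‖ = ‖q 0‖ * R ^ n := by
    have e2 : ∀ j : Fin n, ((R : ℂ) ^ 2 - conj (ρ j) * 0) / R = (R : ℂ) := by
      intro j
      have hR0 : (R : ℂ) ≠ 0 := by exact_mod_cast hR.ne'
      rw [mul_zero, sub_zero, sq, mul_div_assoc, div_self hR0, mul_one]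
    rw [Finset.prod_congr rfl fun j _ => e2 j, Finset.prod_const, Finset.card_univ,
      Fintype.card_fin, norm_mul, norm_pow, Complex.norm_real, Real.norm_of_nonneg hR.le]
  rw [e1] at h1
  obtain ⟨hρ, hq, hg⟩ := h
  have h2 : ‖g 0‖ ≤ ‖q 0‖ * r ^ n := by
    rw [hg 0 (by simp [hR.trans hRR]), norm_mul, norm_prod]
    refine mul_le_mul_of_nonneg_left ?_ (norm_nonneg _)
    calc ∏ j : Fin n, ‖(0 : ℂ) - ρ j‖ ≤ ∏ _j : Fin n, r := by
          refine Finset.prod_le_prod (fun j _ => norm_nonneg _) fun j _ => ?_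
          rw [zero_sub, norm_neg]
          exact hρ j
      _ = r ^ n := by
          rw [Finset.prod_const, Finset.card_univ, Fintype.card_fin]
  have h3 : (R / r) ^ n ≤ M / ‖g 0‖ := by
    rw [le_div_iff₀ hg0, div_pow, div_mul_eq_mul_div, div_le_iff₀ (pow_pos hr n)]
    calc R ^ n * ‖g 0‖ ≤ R ^ n * (‖q 0‖ * r ^ n) :=
          mul_le_mul_of_nonneg_left h2 (pow_nonneg hR.le n)
      _ = ‖q 0‖ * R ^ n * r ^ n := by ring
      _ ≤ M * r ^ n := mul_le_mul_of_nonneg_right h1 (pow_nonneg hr.le n)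
  have h4 : 0 < (R / r) ^ n := pow_pos (div_pos hR hr) n
  have h5 := Real.log_le_log h4 h3
  rwa [Real.log_pow] at h5

private theorem st_succ {r R' : ℝ} (hrR : r < R') {g : ℂ → ℂ} {n : ℕ} {ρ : Fin n → ℂ}
    {q : ℂ → ℂ} (h : St r R' g n ρ q) {c : ℂ} (hc : ‖c‖ ≤ r) (hqc : q c = 0) :
    St r R' g (n + 1) (Fin.cons c ρ) (dslope q c) := by
  obtain ⟨hρ, hq, hg⟩ := h
  have hcb : ball (0 : ℂ) R' ∈ 𝓝 c :=
    isOpen_ball.mem_nhds (by rw [mem_ball_zero_iff]; exact hc.trans_lt hrR)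
  refine ⟨?_, (Complex.differentiableOn_dslope hcb).2 hq, ?_⟩
  · intro j
    refine Fin.cases ?_ (fun i => ?_) j
    · rw [Fin.cons_zero]
      exact hc
    · rw [Fin.cons_succ]
      exact hρ i
  · intro z hz
    have h1 : (z - c) • dslope q c z = q z - q c := sub_smul_dslope q c z
    rw [hqc, sub_zero, smul_eq_mul] at h1
    rw [hg z hz, ← h1, Fin.prod_univ_succ, Fin.cons_zero]
    simp only [Fin.cons_succ]
    ring

theorem exists_factor {r R R' M : ℝ} (hr : 0 < r) (hrR : r < R) (hRR : R < R') {g : ℂ → ℂ}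
    (hg : DifferentiableOn ℂ g (ball 0 R')) (hM : ∀ z ∈ closedBall (0 : ℂ) R, ‖g z‖ ≤ M) (h0 : g 0 ≠ 0) :
    ∃ (n : ℕ) (ρ : Fin n → ℂ) (q : ℂ → ℂ), (∀ j, ‖ρ j‖ ≤ r) ∧ DifferentiableOn ℂ q (ball 0 R') ∧
      (∀ z ∈ ball (0 : ℂ) R', g z = q z * ∏ j, (z - ρ j)) ∧
      (∀ z ∈ closedBall (0 : ℂ) r, q z ≠ 0) ∧
      (∀ z ∈ closedBall (0 : ℂ) R, ‖q z * ∏ j, (((R : ℂ) ^ 2 - conj (ρ j) * z) / R)‖ ≤ M) ∧
      (n : ℝ) * Real.log (R / r) ≤ Real.log (M / ‖g 0‖) := by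
  have key : ∃ (n : ℕ) (ρ : Fin n → ℂ) (q : ℂ → ℂ), St r R' g n ρ q ∧
      ∀ z ∈ closedBall (0 : ℂ) r, q z ≠ 0 := by
    by_contra hcon
    push Not at hcon
    have hall : ∀ n : ℕ, ∃ (ρ : Fin n → ℂ) (q : ℂ → ℂ), St r R' g n ρ q := by
      intro n
      induction n with
      | zero =>
        refine ⟨Fin.elim0, g, fun j => j.elim0, hg, fun z _ => ?_⟩
        rw [Fin.prod_univ_zero, mul_one]
      | succ n ih =>
        obtain ⟨ρ, q, h⟩ := ih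
        obtain ⟨z, hz, hz0⟩ := hcon n ρ q h
        exact ⟨_, _, st_succ (hrR.trans hRR) h (mem_closedBall_zero_iff.1 hz) hz0⟩
    have hlog : 0 < Real.log (R / r) := Real.log_pos ((one_lt_div hr).2 hrR)
    obtain ⟨n, hn⟩ := exists_nat_gt (Real.log (M / ‖g 0‖) / Real.log (R / r))
    obtain ⟨ρ, q, h⟩ := hall n
    have h1 := st_log hr hrR hRR hM h0 h
    rw [div_lt_iff₀ hlog] at hn
    linarith
  obtain ⟨n, ρ, q, h, hne⟩ := key
  exact ⟨n, ρ, q, h.1, h.2.1, h.2.2, hne, st_bound hr hrR hRR hM h, st_log hr hrR hRR hM h0 h⟩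

end Pool.Agent.Helper29.MS
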