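import Pool.Agent.Helper29.MS.Fwd
import Pool.Agent.Helper29.MS.Bwd

/-!
MS-22. The mean square form of the Birch and Swinnerton-Dyer asymptotic is the Riemann hypothesis.
-/

set_option autoImplicit false

namespace Pool.Agent.Helper29.MS

open Complex Filter Topology MeasureTheory Set
open Pool.Agent.Helper13.Bsd Pool.Agent.Helper7.GW Pool.Agent.Helper58.BSD

theorem mean_square (W : WeierstrassCurve ℤ) (N : ℕ → ℕ)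
    (hNdef : ∀ p : ℕ, N p = 1 + ((Finset.range p ×ˢ Finset.range p).filter
      (fun q : ℕ × ℕ => (p : ℤ) ∣ ((q.2 : ℤ) ^ 2 + W.a₁ * (q.1 : ℤ) * (q.2 : ℤ) + W.a₃ * (q.2 : ℤ)
        - ((q.1 : ℤ) ^ 3 + W.a₂ * (q.1 : ℤ) ^ 2 + W.a₄ * (q.1 : ℤ) + W.a₆)))).card)
    (hΔ : W.Δ ≠ 0) (F : ℂ → ℂ) (hFd : Differentiable ℂ F) (hF : EulerHyp W N F) :
    ((∃ (A : ℝ) (k : ℕ), ∀ s : ℂ, 1 / 2 ≤ s.re → ‖F s‖ ≤ A * (1 + ‖s‖) ^ k) →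
      (∀ ρ : ℂ, 1 < ρ.re → F ρ ≠ 0) → IntegrableOn (fun x => hh W N F x ^ 2 / x) (Ioi (2 : ℝ))) ∧
    (IntegrableOn (fun x => hh W N F x ^ 2 / x) (Ioi (2 : ℝ)) →
      Tendsto (fun X : ℝ => ∫ x in X..(2 * X), |hh W N F x| / x) atTop (𝓝 0)) ∧
    (Tendsto (fun X : ℝ => ∫ x in X..(2 * X), |hh W N F x| / x) atTop (𝓝 0) →
      ∀ ε : ℝ, 0 < ε → ∀ᶠ X : ℝ in atTop, ∫ x in X..(2 * X), max (hh W N F x) 0 / x ≤ X ^ ε) ∧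
    ((∀ ε : ℝ, 0 < ε → ∀ᶠ X : ℝ in atTop, ∫ x in X..(2 * X), max (hh W N F x) 0 / x ≤ X ^ ε) →
      ∀ ρ : ℂ, 1 < ρ.re → F ρ ≠ 0) :=
  ⟨fun hgr hRH => fwd W N hNdef hΔ F hFd hF hgr hRH, dyad_of_l2,
    one_sided_of_mean W N hNdef hΔ F hFd hF, bwd W N hNdef hΔ F hFd hF⟩

end Pool.Agent.Helper29.MS
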