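import Pool.Agent.Helper29.MS.HDef
import Pool.Agent.Helper29.MS.Red
import Pool.Agent.Helper29.MS.EeRate
import Pool.Agent.Helper29.MS.GGb
import Pool.Agent.Helper29.MS.Dyad

/-!
MS-20. The Riemann hypothesis (and polynomial growth) imply the mean square form.

PROOF. `hN := nhyp W N hNdef`, `bad := badW W`, `v t = LL t - ee t`, `G = GG N bad F`, `Setup v G A (1/2) (1/100)` from `bsd_setup`. `G s ≠ 0` for
`0 < s.re` by `GG_zero_iff` and `hRH`. `GG_growth`, `right_bound` (take the larger of the two constants), `GG_lead` for `g` and the limit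
(`g = ‖F^(r)(1)‖ / r! * e^{E0}`). `l2_order` gives `q1 t = v t - r log t - (r γ - log g) ∈ L²(1, ∞)`. `ee_rate` (with `SS_eq`, `finite_bad W hΔ`):
`q2 t = ee t + SS (e^t) - (log 2 + E0)` is `O(1/t)` for `t ≥ T` and bounded on `[1, T]` (`ee_bdd`, `SSb_bdd`), measurable (`measurable_ee`; `SS` from
`measurable_hh` and `hh_exp`), so in `L²(1, ∞)`. `hh (e^t) = q1 t + q2 t` (`hh_exp`, `log (kon F) = log 2 + r γ - log (‖F^(r)(1)‖ / r!)`, see
`slow_to_limit` in BFinal.lean for this computation). So `hh (e^t)² ` is integrable on `Ioi 1`; on `(log 2, 1]` it is bounded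
(`hh_bdd`). `comp_exp` with `f = hh ^ 2`, `b = log 2`.
-/

set_option autoImplicit false

namespace Pool.Agent.Helper29.MS

open Complex Filter Topology MeasureTheory Set
open Pool.Agent.Helper13.Bsd Pool.Agent.Helper7.GW Pool.Agent.Helper58.BSD

theorem fwd (W : WeierstrassCurve ℤ) (N : ℕ → ℕ)
    (hNdef : ∀ p : ℕ, N p = 1 + ((Finset.range p ×ˢ Finset.range p).filter
      (fun q : ℕ × ℕ => (p : ℤ) ∣ ((q.2 : ℤ) ^ 2 + W.a₁ * (q.1 : ℤ) * (q.2 : ℤ) + W.a₃ * (q.2 : ℤ)
        - ((q.1 : ℤ) ^ 3 + W.a₂ * (q.1 : ℤ) ^ 2 + W.a₄ * (q.1 : ℤ) + W.a₆)))).card)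
    (hΔ : W.Δ ≠ 0) (F : ℂ → ℂ) (hFd : Differentiable ℂ F) (hF : EulerHyp W N F)
    (hgr : ∃ (A : ℝ) (k : ℕ), ∀ s : ℂ, 1 / 2 ≤ s.re → ‖F s‖ ≤ A * (1 + ‖s‖) ^ k)
    (hRH : ∀ ρ : ℂ, 1 < ρ.re → F ρ ≠ 0) :
    IntegrableOn (fun x => hh W N F x ^ 2 / x) (Ioi (2 : ℝ)) := by
  set r := analyticOrderNatAt F 1 with hr
  have hN := nhyp W N hNdef
  have hB : EulerB N (badW W) F := hF
  obtain ⟨A, hS⟩ := bsd_setup hN F hFd hB
  obtain ⟨hg0, hg⟩ := GG_lead hN F hFd hB
  rw [← hr] at hg0 hg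
  obtain ⟨B1, k, hB1, hgrow⟩ := GG_growth (bad := badW W) hN F hgr
  obtain ⟨B2, hB2, hright⟩ := right_bound (bad := badW W) hN
  have hrh : ∀ s : ℂ, 0 < s.re → GG N (badW W) F s ≠ 0 := by
    intro s hs h0
    rw [GG_zero_iff hN F s hs.le] at h0
    refine hRH (1 + s) ?_ h0
    rw [add_re, one_re]
    linarith
  set g : ℝ := ‖iteratedDeriv r F 1‖ / (r.factorial : ℝ) * Real.exp (E0 N (badW W)) with hgdef
  have hgr2 : ∀ s : ℂ, -(1 / 100 : ℝ) < s.re → ‖GG N (badW W) F s‖ ≤ max B1 B2 * (1 + ‖s‖) ^ k := by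
    intro s hs
    refine (hgrow s hs).trans ?_
    gcongr
    exact le_max_left _ _
  have hr2 : ∀ s : ℂ, (11 : ℝ) ≤ s.re →
      ‖s * Lap (fun t => LL N (badW W) t - ee N (badW W) t) s‖ ≤ max B1 B2 := fun s hs =>
    (hright s hs).trans (le_max_right _ _)
  have hl2 := l2_order hS r g hg0 hg hrh hgr2 hr2
  set q1 : ℝ → ℝ := fun t => (LL N (badW W) t - ee N (badW W) t) - r * Real.log t
    - (r * Real.eulerMascheroniConstant - Real.log g) with hq1
  have hq1m : Measurable q1 := by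
    have h1 := (measurable_LL N (badW W)).sub (measurable_ee (N := N) (bad := badW W))
    have h2 : Measurable fun t : ℝ => (r : ℝ) * Real.log t := Real.measurable_log.const_mul _
    exact (h1.sub h2).sub_const _
  set q : ℝ → ℝ := fun t => hh W N F (Real.exp t) with hq
  have hqm : Measurable q := (measurable_hh W N F).comp Real.measurable_exp
  set q2 : ℝ → ℝ := fun t => q t - q1 t with hq2
  have hq2m : Measurable q2 := hqm.sub hq1m
  have hpos : 0 < ‖iteratedDeriv r F 1‖ := by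
    have h1 : ‖iteratedDeriv r F 1‖ ≠ 0 := by
      intro h
      rw [hgdef, h] at hg0
      simp at hg0
    exact lt_of_le_of_ne (norm_nonneg _) (Ne.symm h1)
  have hkon : Real.log (kon F) = r * Real.eulerMascheroniConstant - Real.log g
      + (Real.log 2 + E0 N (badW W)) := by
    have h1 : Real.exp (r * Real.eulerMascheroniConstant - Real.log g
        + (Real.log 2 + E0 N (badW W))) = kon F := by
      rw [Real.exp_add, Real.exp_sub, Real.exp_log hg0, Real.exp_add, Real.exp_log two_pos, hgdef]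
      unfold kon
      rw [← hr]
      have := Real.exp_pos (E0 N (badW W))
      field_simp
    rw [← h1, Real.log_exp]
  have hq2eq : ∀ t : ℝ, 0 < t → q2 t = ee N (badW W) t + SSb N (badW W) (Real.exp t)
      - (Real.log 2 + E0 N (badW W)) := by
    intro t ht
    simp only [hq2, hq, hq1]
    rw [hh_exp W N hNdef hΔ F hFd hF t ht, SS_eq, hkon, ← hr]
    ring
  obtain ⟨C, T, hC, hT, hrate⟩ := ee_rate hN (finite_bad W hΔ)
  obtain ⟨Ce, hCe, hCe2⟩ := ee_bdd (bad := badW W) hN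
  obtain ⟨C1, hC1, hSS⟩ := SSb_bdd (bad := badW W) hN
  set M : ℝ := Ce + C1 + |Real.log 2 + E0 N (badW W)| with hM
  have hM0 : 0 ≤ M := by positivity
  set K : ℝ := C + M * T with hK
  have hK0 : 0 ≤ K := by positivity
  have hq2b : ∀ t : ℝ, 1 < t → |q2 t| ≤ K / t := by
    intro t ht
    have ht0 : 0 < t := by linarith
    rw [hq2eq t ht0]
    rcases le_total T t with h | h
    · refine (hrate t h).trans ?_
      gcongr
      rw [hK]
      have : 0 ≤ M * T := by positivity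
      linarith
    · have h1 := hCe2 t ht0
      have h2 := hSS (Real.exp t)
      have h3 : |ee N (badW W) t + SSb N (badW W) (Real.exp t) - (Real.log 2 + E0 N (badW W))| ≤ M := by
        refine (abs_sub _ _).trans ?_
        refine add_le_add ((abs_add_le _ _).trans (add_le_add h1 ?_)) le_rfl
        rw [abs_of_nonneg h2.1]
        exact h2.2
      refine h3.trans ?_
      rw [le_div_iff₀ ht0, hK]
      have : M * t ≤ M * T := mul_le_mul_of_nonneg_left h hM0
      linarith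
  have hq2i : IntegrableOn (fun t => q2 t ^ 2) (Ioi (1 : ℝ)) := by
    have h1 : IntegrableOn (fun t : ℝ => K ^ 2 * t ^ (-2 : ℝ)) (Ioi (1 : ℝ)) :=
      (integrableOn_Ioi_rpow_of_lt (by norm_num) one_pos).const_mul _
    refine Integrable.mono' h1 (hq2m.pow_const 2).aestronglyMeasurable ?_
    rw [ae_restrict_iff' measurableSet_Ioi]
    refine Filter.Eventually.of_forall fun t ht => ?_
    have ht1 : 1 < t := ht
    have ht0 : 0 < t := by linarith
    have h2 := hq2b t ht1
    rw [Real.norm_eq_abs, abs_of_nonneg (sq_nonneg _), Real.rpow_neg ht0.le]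
    have h3 : t ^ (2 : ℝ) = t ^ 2 := Real.rpow_two t
    rw [h3]
    calc q2 t ^ 2 = |q2 t| ^ 2 := (sq_abs _).symm
      _ ≤ (K / t) ^ 2 := pow_le_pow_left₀ (abs_nonneg _) h2 2
      _ = K ^ 2 * (t ^ 2)⁻¹ := by rw [div_pow, div_eq_mul_inv]
  have hqi1 : IntegrableOn (fun t => q t ^ 2) (Ioi (1 : ℝ)) := by
    refine Integrable.mono' ((hl2.const_mul 2).add (hq2i.const_mul 2))
      (hqm.pow_const 2).aestronglyMeasurable ?_
    refine Filter.Eventually.of_forall fun t => ?_
    rw [Real.norm_eq_abs, abs_of_nonneg (sq_nonneg _)]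
    have h1 : q t = q1 t + q2 t := by
      simp only [hq2]
      ring
    show q t ^ 2 ≤ 2 * q1 t ^ 2 + 2 * q2 t ^ 2
    rw [h1]
    nlinarith [sq_nonneg (q1 t - q2 t)]
  have hqi2 : IntegrableOn (fun t => q t ^ 2) (Ioc (Real.log 2) 1) := by
    obtain ⟨D, hD, hDb⟩ := hh_bdd W N hNdef hΔ F hFd hF (Real.log 2) 1 (Real.log_pos one_lt_two)
    refine Measure.integrableOn_of_bounded (M := D ^ 2) measure_Ioc_lt_top.ne
      (hqm.pow_const 2).aestronglyMeasurable ?_
    rw [ae_restrict_iff' measurableSet_Ioc]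
    refine Filter.Eventually.of_forall fun t ht => ?_
    have h1 := hDb t ht.1.le ht.2
    rw [Real.norm_eq_abs, abs_of_nonneg (sq_nonneg _), ← sq_abs]
    exact pow_le_pow_left₀ (abs_nonneg _) h1 2
  have hqi : IntegrableOn (fun t => q t ^ 2) (Ioi (Real.log 2)) := by
    have hlog : Real.log 2 ≤ 1 := by
      have := Real.log_two_lt_d9
      linarith
    rw [← Ioc_union_Ioi_eq_Ioi hlog]
    exact hqi2.union hqi1
  have hfin := (comp_exp (fun x => hh W N F x ^ 2) (Real.log 2)).mpr hqi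
  rwa [Real.exp_log two_pos] at hfin

end Pool.Agent.Helper29.MS
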