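import Pool.Agent.Helper29.MS.Base

/-!
MS-3. The mean square of `log ‖z - ρ‖` on a vertical segment.

PROOF. Write `γ = ρ.im`, `T = 2 r + δ + 1`. The integrand is continuous in `y` (`‖x + i y - ρ‖ ≥ |x - ρ.re| > 0`), so integrable on
the compact interval. For `|y| ≤ δ`, `y ≠ γ`: `|y - γ| ≤ ‖x + i y - ρ‖ ≤ T`, so
`|log ‖x + i y - ρ‖| ≤ |log (y - γ)| + log T` and the square is at most `2 (log (y - γ))² + 2 (log T)²`.
`∫_{-δ}^{δ} (log (y - γ))² dy = ∫_{-δ-γ}^{δ-γ} (log y)² dy ≤ ∫_{-(δ+r)}^{δ+r} (log y)² dy =: K0`.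
`(log y)²` is integrable near `0`: `|log y| ≤ 4 |y| ^ (-1/4)` for `0 < |y| ≤ 1` (`Real.abs_log_mul_self_rpow_lt` or
`Real.log_le_rpow_div`), and `|y| ^ (-1/2)` is integrable (`intervalIntegral.intervalIntegrable_rpow'`), on the
negative side by symmetry (`Real.log_neg_eq_log`).
-/

set_option autoImplicit false

namespace Pool.Agent.Helper29.MS

open Complex Filter Topology MeasureTheory Set Metric

private theorem logsq_pos {T : ℝ} (hT : 0 < T) : IntervalIntegrable (fun y : ℝ => Real.log y ^ 2) volume 0 T := by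
  have h1 : IntervalIntegrable (fun y : ℝ => 16 * y ^ (-(1 / 2) : ℝ) + Real.log T ^ 2) volume 0 T :=
    ((intervalIntegral.intervalIntegrable_rpow' (by norm_num)).const_mul 16).add
      intervalIntegrable_const
  refine h1.mono_fun (Real.measurable_log.pow_const 2).aestronglyMeasurable ?_
  rw [uIoc_of_le hT.le]
  filter_upwards [ae_restrict_mem measurableSet_Ioc] with y hy
  have hy0 : 0 < y := hy.1
  have hp : 0 ≤ y ^ (-(1 / 2) : ℝ) := by positivity
  rw [Real.norm_eq_abs, Real.norm_eq_abs, abs_of_nonneg (sq_nonneg _), abs_of_nonneg (by positivity)]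
  by_cases h : y ≤ 1
  · have h2 := Real.abs_log_mul_self_rpow_lt y (1 / 4) hy0 h (by norm_num)
    have h3 : (Real.log y * y ^ (1 / 4 : ℝ)) ^ 2 ≤ 16 := by
      have h4 : |Real.log y * y ^ (1 / 4 : ℝ)| ≤ 4 := by
        refine h2.le.trans ?_
        norm_num
      have := sq_le_sq' (neg_le_of_abs_le h4) (le_of_abs_le h4)
      linarith
    have h5 : y ^ (-(1 / 2) : ℝ) = ((y ^ (1 / 4 : ℝ)) ^ 2)⁻¹ := by
      rw [← Real.rpow_natCast, ← Real.rpow_mul hy0.le, ← Real.rpow_neg hy0.le]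
      norm_num
    have h6 : 0 < (y ^ (1 / 4 : ℝ)) ^ 2 := by positivity
    have h7 : Real.log y ^ 2 ≤ 16 * y ^ (-(1 / 2) : ℝ) := by
      rw [h5, ← div_eq_mul_inv, le_div_iff₀ h6]
      rw [mul_pow] at h3
      exact h3
    have := sq_nonneg (Real.log T)
    linarith
  · push Not at h
    have h2 : 0 ≤ Real.log y := Real.log_nonneg h.le
    have h3 : Real.log y ≤ Real.log T := Real.log_le_log hy0 hy.2
    have h4 : Real.log y ^ 2 ≤ Real.log T ^ 2 := by
      gcongr
    linarith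

private theorem logsq_all {T : ℝ} (hT : 0 < T) :
    IntegrableOn (fun y : ℝ => Real.log y ^ 2) (Icc (-T) T) := by
  have h1 := logsq_pos hT
  have h2 : IntervalIntegrable (fun y : ℝ => Real.log y ^ 2) volume (-T) 0 := by
    have h3 := (IntervalIntegrable.iff_comp_neg (f := fun y : ℝ => Real.log y ^ 2) (a := 0) (b := T)).mp h1
    simp only [Real.log_neg_eq_log, neg_zero] at h3
    exact h3.symm
  have h3 := h2.trans h1
  rw [intervalIntegrable_iff_integrableOn_Icc_of_le (by linarith)] at h3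
  exact h3

theorem log_sq_int {δ r : ℝ} (hδ : 0 < δ) (hr : 0 < r) : ∃ K : ℝ, 0 ≤ K ∧ ∀ (x : ℝ) (ρ : ℂ), |x| ≤ r →
    ‖ρ‖ ≤ r → x ≠ ρ.re →
    IntegrableOn (fun y : ℝ => Real.log ‖(x : ℂ) + (y : ℂ) * I - ρ‖ ^ 2) (Icc (-δ) δ) ∧
    ∫ y in Icc (-δ) δ, Real.log ‖(x : ℂ) + (y : ℂ) * I - ρ‖ ^ 2 ≤ K := by
  set T : ℝ := 2 * r + δ + 1 with hT
  set K0 : ℝ := ∫ y in Icc (-(δ + r)) (δ + r), Real.log y ^ 2 with hK0
  have hK00 : 0 ≤ K0 := by
    rw [hK0]
    exact integral_nonneg fun y => sq_nonneg _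
  refine ⟨2 * K0 + 2 * Real.log T ^ 2 * (2 * δ), by positivity, ?_⟩
  intro x ρ hx hρ hne
  have hnorm0 : ∀ y : ℝ, 0 < ‖(x : ℂ) + (y : ℂ) * I - ρ‖ := by
    intro y
    rw [norm_pos_iff]
    intro h
    apply hne
    have := congrArg Complex.re h
    simp at this
    linarith
  have hcont : Continuous (fun y : ℝ => Real.log ‖(x : ℂ) + (y : ℂ) * I - ρ‖ ^ 2) := by
    apply Continuous.pow
    apply Continuous.log
    · fun_prop
    · intro y
      exact (hnorm0 y).ne'
  have hint : IntegrableOn (fun y : ℝ => Real.log ‖(x : ℂ) + (y : ℂ) * I - ρ‖ ^ 2) (Icc (-δ) δ) :=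
    hcont.continuousOn.integrableOn_compact isCompact_Icc
  refine ⟨hint, ?_⟩
  have hγ : |ρ.im| ≤ r := (abs_im_le_norm ρ).trans hρ
  have hγ' := abs_le.mp hγ
  -- the majorant
  have hmaj : IntegrableOn (fun y : ℝ => Real.log (y - ρ.im) ^ 2) (Icc (-δ) δ) := by
    have h1 := (logsq_all (T := δ + r) (by positivity))
    have h2 : IntervalIntegrable (fun y : ℝ => Real.log y ^ 2) volume (-(δ + r)) (δ + r) := by
      rw [intervalIntegrable_iff_integrableOn_Icc_of_le (by linarith)]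
      exact h1
    have h3 : IntervalIntegrable (fun y : ℝ => Real.log y ^ 2) volume (-δ - ρ.im) (δ - ρ.im) := by
      apply h2.mono_set
      rw [uIcc_of_le (by linarith), uIcc_of_le (by linarith)]
      apply Icc_subset_Icc <;> linarith [hγ'.1, hγ'.2]
    have h4 := h3.comp_sub_right ρ.im
    simp only [sub_add_cancel] at h4
    rw [intervalIntegrable_iff_integrableOn_Icc_of_le (by linarith)] at h4
    exact h4
  have hmajv : ∫ y in Icc (-δ) δ, Real.log (y - ρ.im) ^ 2 ≤ K0 := by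
    rw [integral_Icc_eq_integral_Ioc, ← intervalIntegral.integral_of_le (by linarith),
      intervalIntegral.integral_comp_sub_right (fun y => Real.log y ^ 2),
      intervalIntegral.integral_of_le (by linarith), ← integral_Icc_eq_integral_Ioc, hK0]
    apply setIntegral_mono_set (logsq_all (by positivity))
    · exact Eventually.of_forall fun y => sq_nonneg _
    · apply LE.le.eventuallyLE
      apply Icc_subset_Icc <;> linarith [hγ'.1, hγ'.2]
  have hcst : IntegrableOn (fun _ : ℝ => 2 * Real.log T ^ 2) (Icc (-δ) δ) :=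
    integrableOn_const (by simp)
  have hptw : ∀ᵐ y : ℝ ∂(volume.restrict (Icc (-δ) δ)), Real.log ‖(x : ℂ) + (y : ℂ) * I - ρ‖ ^ 2 ≤
      2 * Real.log (y - ρ.im) ^ 2 + 2 * Real.log T ^ 2 := by
    have h1 : ∀ᵐ y : ℝ ∂(volume.restrict (Icc (-δ) δ)), y ≠ ρ.im := by
      apply ae_restrict_of_ae
      exact Measure.ae_ne volume ρ.im
    filter_upwards [h1, ae_restrict_mem measurableSet_Icc] with y hy hyI
    have h2 : |y - ρ.im| ≤ ‖(x : ℂ) + (y : ℂ) * I - ρ‖ := by
      have := abs_im_le_norm ((x : ℂ) + (y : ℂ) * I - ρ)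
      simpa using this
    have h3 : 0 < |y - ρ.im| := abs_pos.mpr (sub_ne_zero.mpr hy)
    have h4 : ‖(x : ℂ) + (y : ℂ) * I - ρ‖ ≤ T := by
      calc ‖(x : ℂ) + (y : ℂ) * I - ρ‖ ≤ ‖(x : ℂ)‖ + ‖(y : ℂ) * I‖ + ‖ρ‖ :=
            (norm_sub_le _ _).trans (by gcongr; exact norm_add_le _ _)
        _ ≤ r + δ + r := by
            rw [norm_mul, norm_I, mul_one, norm_real, norm_real, Real.norm_eq_abs, Real.norm_eq_abs]
            have := abs_le.mpr ⟨hyI.1, hyI.2⟩
            linarith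
        _ ≤ T := by rw [hT]; linarith
    set q := ‖(x : ℂ) + (y : ℂ) * I - ρ‖ with hq
    have hq0 : 0 < q := hnorm0 y
    have hT1 : 1 ≤ T := by rw [hT]; linarith
    have hlT : 0 ≤ Real.log T := Real.log_nonneg hT1
    have h5 : |Real.log q| ≤ |Real.log (y - ρ.im)| + Real.log T := by
      rw [abs_le]
      constructor
      · have h6 := Real.log_le_log h3 h2
        rw [Real.log_abs] at h6
        have h7 := neg_abs_le (Real.log (y - ρ.im))
        linarith
      · have h6 := Real.log_le_log hq0 h4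
        have h7 := abs_nonneg (Real.log (y - ρ.im))
        linarith
    have h8 : Real.log q ^ 2 = |Real.log q| ^ 2 := (sq_abs _).symm
    have h9 : Real.log (y - ρ.im) ^ 2 = |Real.log (y - ρ.im)| ^ 2 := (sq_abs _).symm
    rw [h8, h9]
    have h10 : |Real.log q| ^ 2 ≤ (|Real.log (y - ρ.im)| + Real.log T) ^ 2 := by gcongr
    nlinarith [sq_nonneg (|Real.log (y - ρ.im)| - Real.log T)]
  calc ∫ y in Icc (-δ) δ, Real.log ‖(x : ℂ) + (y : ℂ) * I - ρ‖ ^ 2
      ≤ ∫ y in Icc (-δ) δ, (2 * Real.log (y - ρ.im) ^ 2 + 2 * Real.log T ^ 2) :=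
        integral_mono_ae hint ((hmaj.const_mul 2).add hcst) hptw
    _ = 2 * (∫ y in Icc (-δ) δ, Real.log (y - ρ.im) ^ 2) + 2 * Real.log T ^ 2 * (2 * δ) := by
        rw [integral_add (hmaj.const_mul 2) hcst, integral_const_mul, setIntegral_const]
        have : volume.real (Icc (-δ) δ) = 2 * δ := by
          rw [Real.volume_real_Icc_of_le (by linarith)]
          ring
        rw [this, smul_eq_mul]
        ring
    _ ≤ _ := by linarith

end Pool.Agent.Helper29.MS
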