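import Pool.Agent.Helper29.MS.Loc
import Pool.Agent.Helper29.MS.LogInt

/-!
MS-6. Pointwise growth of `log G` in `Re w ≥ σ0` and the local mean square up to the boundary.

PROOF of `growth_pt`. For `w.re ≥ c`: `‖L w‖ = ‖w Lap v w‖ ≤ B` (`hL.eq`, `hF.right`). For `σ0 ≤ w.re ≤ c`: `loc` with
`τ0 = w.im`, `y = 0`, `x = w.re - c ∈ (-c, 0]`; `σ0 ≤ x - (ρ j).re ≤ ‖x - ρ j‖ ≤ c + r`, so
`|log ‖x - ρ j‖| ≤ |log σ0| + |log (c + r)|`, and `n ≤ K log (2 + |τ0|)`.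

PROOF of `growth_L2`. `δ`, `r`, `K` from `loc`, `K2` from `log_sq_int` (with `δ`, `r`; `|σ - c| ≤ c ≤ r`). For `τ ∈ Icc (τ0 - δ) (τ0 + δ)`, `y = τ - τ0`,
`x = σ - c`: `‖L (σ + i τ)‖² ≤ 2 K² ℓ² + 2 (∑ |log ‖x + i y - ρ j‖|)² ≤ 2 K² ℓ² + 2 n ∑ (log ‖..‖)²` with
`ℓ = log (2 + |τ0|)` (`inner_mul_le_norm_mul_norm` / `sq_sum_le_card_mul_sum_sq`), so the integral is at most
`4 δ K² ℓ² + 2 n · n K2 ≤ (4 δ K² + 2 K² K2) ℓ²`. The integrand is continuous in `τ` (`hL.diff`), so integrable.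
Translate the integral by `τ0`.
-/

set_option autoImplicit false

namespace Pool.Agent.Helper29.MS

open Complex Filter Topology MeasureTheory Set Metric
open Pool.Agent.Helper13.Bsd Pool.Agent.Helper7.GW Pool.Agent.Helper58.BSD

variable {v : ℝ → ℝ} {G : ℂ → ℂ} {A a η B c : ℝ} {k : ℕ}

private theorem log_two_le (t : ℝ) : Real.log 2 ≤ Real.log (2 + |t|) :=
  Real.log_le_log (by norm_num) (by linarith [abs_nonneg t])

theorem growth_pt (hF : Frame v G A a η B c k) {L : ℂ → ℂ} (hL : Branch v G a L) (σ0 : ℝ) (hσ : 0 < σ0) :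
    ∃ C : ℝ, 0 ≤ C ∧ ∀ w : ℂ, σ0 ≤ w.re → ‖L w‖ ≤ C * Real.log (2 + |w.im|) := by
  obtain ⟨δ, r, K, hδ, hcr, hK, hloc⟩ := loc hF hL
  have hl2 : 0 < Real.log 2 := Real.log_pos (by norm_num)
  have hB0 : 0 ≤ B := le_trans zero_le_one hF.hB
  have hc0 : 0 < c := lt_of_lt_of_le one_pos hF.hc1
  set M : ℝ := |Real.log σ0| + |Real.log (c + r)| with hM
  have hM0 : 0 ≤ M := add_nonneg (abs_nonneg _) (abs_nonneg _)
  refine ⟨B / Real.log 2 + (K + K * M), by positivity, ?_⟩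
  intro w hw
  have hl := log_two_le w.im
  have hlpos : 0 < Real.log (2 + |w.im|) := hl2.trans_le hl
  rcases le_total c w.re with h1 | h1
  · have h2 : ‖L w‖ ≤ B := by
      rw [hL.eq w (hF.hc.trans_le h1), norm_neg]
      exact hF.right w h1
    have h3 : B ≤ B / Real.log 2 * Real.log (2 + |w.im|) := by
      rw [div_mul_eq_mul_div, le_div_iff₀ hl2]
      exact mul_le_mul_of_nonneg_left hl hB0
    have h4 : 0 ≤ (K + K * M) * Real.log (2 + |w.im|) := by positivity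
    nlinarith [h2, h3, h4]
  · obtain ⟨n, ρ, hn, hρ, hb⟩ := hloc w.im
    have hx1 : -c < w.re - c := by linarith
    have hx2 : w.re - c ≤ 0 := by linarith
    have h2 := hb (w.re - c) 0 hx1 hx2 (by rw [abs_zero]; exact hδ.le)
    have h3 : (c : ℂ) + (w.im : ℂ) * I + (((w.re - c : ℝ) : ℂ) + ((0 : ℝ) : ℂ) * I) = w := by
      apply Complex.ext
      · simp
      · simp
    rw [h3] at h2
    have h4 : ∀ j, |Real.log ‖((w.re - c : ℝ) : ℂ) + ((0 : ℝ) : ℂ) * I - ρ j‖| ≤ M := by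
      intro j
      have h5 : σ0 ≤ ‖((w.re - c : ℝ) : ℂ) + ((0 : ℝ) : ℂ) * I - ρ j‖ := by
        have h6 := Complex.re_le_norm (((w.re - c : ℝ) : ℂ) + ((0 : ℝ) : ℂ) * I - ρ j)
        have h7 : (((w.re - c : ℝ) : ℂ) + ((0 : ℝ) : ℂ) * I - ρ j).re = w.re - c - (ρ j).re := by
          simp
        rw [h7] at h6
        have h8 := (hρ j).2
        linarith
      have h6 : ‖((w.re - c : ℝ) : ℂ) + ((0 : ℝ) : ℂ) * I - ρ j‖ ≤ c + r := by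
        have h7 : ((w.re - c : ℝ) : ℂ) + ((0 : ℝ) : ℂ) * I = ((w.re - c : ℝ) : ℂ) := by
          simp
        rw [h7]
        refine (norm_sub_le _ _).trans (add_le_add ?_ (hρ j).1)
        rw [Complex.norm_real, Real.norm_eq_abs, abs_le]
        constructor <;> linarith
      have h7 := Real.log_le_log hσ h5
      have h8 := Real.log_le_log (hσ.trans_le h5) h6
      rw [abs_le]
      have h9 := neg_abs_le (Real.log σ0)
      have h10 := le_abs_self (Real.log (c + r))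
      have h11 := abs_nonneg (Real.log σ0)
      have h12 := abs_nonneg (Real.log (c + r))
      constructor <;> linarith
    have h5 : ∑ j, |Real.log ‖((w.re - c : ℝ) : ℂ) + ((0 : ℝ) : ℂ) * I - ρ j‖| ≤ n * M := by
      refine (Finset.sum_le_sum fun j _ => h4 j).trans ?_
      rw [Finset.sum_const, Finset.card_univ, Fintype.card_fin, nsmul_eq_mul]
    have h6 : (n : ℝ) * M ≤ K * Real.log (2 + |w.im|) * M := mul_le_mul_of_nonneg_right hn hM0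
    have h7 : 0 ≤ B / Real.log 2 * Real.log (2 + |w.im|) := by positivity
    nlinarith [h2, h5, h6, h7]

theorem growth_L2 (hF : Frame v G A a η B c k) {L : ℂ → ℂ} (hL : Branch v G a L) :
    ∃ δ C : ℝ, 0 < δ ∧ 0 ≤ C ∧ ∀ σ τ0 : ℝ, 0 < σ → σ ≤ c →
      ∫ τ in Icc (τ0 - δ) (τ0 + δ), ‖L ((σ : ℂ) + (τ : ℂ) * I)‖ ^ 2 ≤ C * Real.log (2 + |τ0|) ^ 2 := by
  obtain ⟨δ, r, K, hδ, hcr, hK, hloc⟩ := loc hF hL
  have hc0 : 0 < c := lt_of_lt_of_le one_pos hF.hc1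
  have hr0 : 0 < r := hc0.trans_le hcr
  obtain ⟨K2, hK2, hlog⟩ := log_sq_int hδ hr0
  refine ⟨δ, 4 * δ * K ^ 2 + 2 * K ^ 2 * K2, hδ, by positivity, ?_⟩
  intro σ τ0 hσ0 hσc
  obtain ⟨n, ρ, hn, hρ, hb⟩ := hloc τ0
  set l : ℝ := Real.log (2 + |τ0|) with hl
  have hl2 : 0 < Real.log 2 := Real.log_pos (by norm_num)
  have hl0 : 0 < l := hl2.trans_le (log_two_le τ0)
  have hx1 : -c < σ - c := by linarith
  have hx2 : σ - c ≤ 0 := by linarith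
  have hxr : |σ - c| ≤ r := by
    rw [abs_le]
    constructor <;> linarith
  have htrans : ∫ τ in Icc (τ0 - δ) (τ0 + δ), ‖L ((σ : ℂ) + (τ : ℂ) * I)‖ ^ 2 =
      ∫ y in Icc (-δ) δ, ‖L ((σ : ℂ) + ((y + τ0 : ℝ) : ℂ) * I)‖ ^ 2 := by
    rw [integral_Icc_eq_integral_Ioc, integral_Icc_eq_integral_Ioc,
      ← intervalIntegral.integral_of_le (by linarith),
      ← intervalIntegral.integral_of_le (by linarith),
      intervalIntegral.integral_comp_add_right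
        (fun τ : ℝ => ‖L ((σ : ℂ) + (τ : ℂ) * I)‖ ^ 2)]
    congr 1 <;> ring
  have hint : ∀ j, IntegrableOn (fun y : ℝ =>
      Real.log ‖((σ - c : ℝ) : ℂ) + (y : ℂ) * I - ρ j‖ ^ 2) (Icc (-δ) δ) ∧
      ∫ y in Icc (-δ) δ, Real.log ‖((σ - c : ℝ) : ℂ) + (y : ℂ) * I - ρ j‖ ^ 2 ≤ K2 := by
    intro j
    refine hlog (σ - c) (ρ j) hxr (hρ j).1 ?_
    have h1 := (hρ j).2
    intro h2
    linarith
  have hg1 : IntegrableOn (fun _ : ℝ => 2 * K ^ 2 * l ^ 2) (Icc (-δ) δ) :=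
    integrableOn_const (by rw [Real.volume_Icc]; exact ENNReal.ofReal_ne_top)
  have hg2 : IntegrableOn (fun y : ℝ => ∑ j,
      Real.log ‖((σ - c : ℝ) : ℂ) + (y : ℂ) * I - ρ j‖ ^ 2) (Icc (-δ) δ) :=
    integrable_finsetSum _ fun j _ => (hint j).1
  have hg : IntegrableOn (fun y : ℝ => 2 * K ^ 2 * l ^ 2 + 2 * (n : ℝ) * ∑ j,
      Real.log ‖((σ - c : ℝ) : ℂ) + (y : ℂ) * I - ρ j‖ ^ 2) (Icc (-δ) δ) :=
    hg1.add (hg2.const_mul _)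
  have hle : ∀ y ∈ Icc (-δ) δ, ‖L ((σ : ℂ) + ((y + τ0 : ℝ) : ℂ) * I)‖ ^ 2 ≤
      2 * K ^ 2 * l ^ 2 + 2 * (n : ℝ) * ∑ j,
        Real.log ‖((σ - c : ℝ) : ℂ) + (y : ℂ) * I - ρ j‖ ^ 2 := by
    intro y hy
    have h1 := hb (σ - c) y hx1 hx2 (abs_le.2 ⟨by linarith [hy.1], hy.2⟩)
    have h2 : (c : ℂ) + (τ0 : ℂ) * I + (((σ - c : ℝ) : ℂ) + (y : ℂ) * I) =
        (σ : ℂ) + ((y + τ0 : ℝ) : ℂ) * I := by
      push_cast
      ring
    rw [h2] at h1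
    set S : ℝ := ∑ j, |Real.log ‖((σ - c : ℝ) : ℂ) + (y : ℂ) * I - ρ j‖| with hS
    have hS0 : 0 ≤ S := Finset.sum_nonneg fun j _ => abs_nonneg _
    have h3 : S ^ 2 ≤ (n : ℝ) * ∑ j, Real.log ‖((σ - c : ℝ) : ℂ) + (y : ℂ) * I - ρ j‖ ^ 2 := by
      have h4 := sq_sum_le_card_mul_sum_sq (s := (Finset.univ : Finset (Fin n)))
        (f := fun j => |Real.log ‖((σ - c : ℝ) : ℂ) + (y : ℂ) * I - ρ j‖|)
      rw [Finset.card_univ, Fintype.card_fin] at h4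
      simpa only [sq_abs] using h4
    have h5 : 0 ≤ K * l := by positivity
    have h6 : ‖L ((σ : ℂ) + ((y + τ0 : ℝ) : ℂ) * I)‖ ^ 2 ≤ (K * l + S) ^ 2 :=
      pow_le_pow_left₀ (norm_nonneg _) h1 2
    have h7 : (K * l + S) ^ 2 ≤ 2 * (K * l) ^ 2 + 2 * S ^ 2 := by nlinarith [sq_nonneg (K * l - S)]
    have h8 : (K * l) ^ 2 = K ^ 2 * l ^ 2 := by ring
    nlinarith [h3, h6, h7, h8]
  rw [htrans]
  have hmono : ∫ y in Icc (-δ) δ, ‖L ((σ : ℂ) + ((y + τ0 : ℝ) : ℂ) * I)‖ ^ 2 ≤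
      ∫ y in Icc (-δ) δ, (2 * K ^ 2 * l ^ 2 + 2 * (n : ℝ) * ∑ j,
        Real.log ‖((σ - c : ℝ) : ℂ) + (y : ℂ) * I - ρ j‖ ^ 2) := by
    refine integral_mono_of_nonneg (ae_of_all _ fun y => sq_nonneg _) hg ?_
    exact (ae_restrict_iff' measurableSet_Icc).2 (ae_of_all _ hle)
  refine hmono.trans ?_
  have e1 : ∫ _ in Icc (-δ) δ, 2 * K ^ 2 * l ^ 2 = (δ - -δ) * (2 * K ^ 2 * l ^ 2) := by
    rw [setIntegral_const, Real.volume_real_Icc_of_le (by linarith), smul_eq_mul]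
  have e2 : ∫ y in Icc (-δ) δ, 2 * (n : ℝ) * ∑ j,
        Real.log ‖((σ - c : ℝ) : ℂ) + (y : ℂ) * I - ρ j‖ ^ 2 =
      2 * (n : ℝ) * ∑ j, ∫ y in Icc (-δ) δ,
        Real.log ‖((σ - c : ℝ) : ℂ) + (y : ℂ) * I - ρ j‖ ^ 2 := by
    rw [integral_const_mul, integral_finsetSum _ fun j _ => (hint j).1]
  rw [integral_add hg1 (hg2.const_mul _), e1, e2]
  have hs : ∑ j, ∫ y in Icc (-δ) δ, Real.log ‖((σ - c : ℝ) : ℂ) + (y : ℂ) * I - ρ j‖ ^ 2 ≤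
      (n : ℝ) * K2 := by
    refine (Finset.sum_le_sum fun j _ => (hint j).2).trans ?_
    rw [Finset.sum_const, Finset.card_univ, Fintype.card_fin, nsmul_eq_mul]
  have hn0 : (0 : ℝ) ≤ n := Nat.cast_nonneg n
  have h1 : 2 * (n : ℝ) * ∑ j, ∫ y in Icc (-δ) δ,
      Real.log ‖((σ - c : ℝ) : ℂ) + (y : ℂ) * I - ρ j‖ ^ 2 ≤ 2 * (n : ℝ) * ((n : ℝ) * K2) :=
    mul_le_mul_of_nonneg_left hs (by positivity)
  have h2 : (n : ℝ) ^ 2 ≤ (K * l) ^ 2 := pow_le_pow_left₀ hn0 hn 2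
  have h3 : (n : ℝ) ^ 2 * K2 ≤ (K * l) ^ 2 * K2 := mul_le_mul_of_nonneg_right h2 hK2
  calc (δ - -δ) * (2 * K ^ 2 * l ^ 2) + 2 * (n : ℝ) * ∑ j, ∫ y in Icc (-δ) δ,
      Real.log ‖((σ - c : ℝ) : ℂ) + (y : ℂ) * I - ρ j‖ ^ 2
      ≤ (δ - -δ) * (2 * K ^ 2 * l ^ 2) + 2 * (n : ℝ) * ((n : ℝ) * K2) := by linarith
    _ = 4 * δ * K ^ 2 * l ^ 2 + 2 * ((n : ℝ) ^ 2 * K2) := by ring
    _ ≤ 4 * δ * K ^ 2 * l ^ 2 + 2 * ((K * l) ^ 2 * K2) := by linarith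
    _ = (4 * δ * K ^ 2 + 2 * K ^ 2 * K2) * l ^ 2 := by ring

end Pool.Agent.Helper29.MS
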