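import Pool.Agent.Helper29.MS.Branch
import Pool.Agent.Helper29.MS.Growth

/-!
MS-7. Bounds for `V w = VV L (kap G) w = -(L w + κ) / w`, `κ = kap G`.

PROOF of `vv_growth`. For `w.re ≥ σ0`: `‖w‖ ≥ σ0` and `‖w‖ ≥ |w.im|`, so `‖w‖ ≥ c1 (1 + |w.im|)`, `c1 = min (σ0, 1) / 2`; `growth_pt` and
`log (2 + x) ≤ C (1 + x) ^ (1/4)` for `x ≥ 0`.

PROOF of `h2_bound`. Let `δ0 = δ / 2` with `δ`, `K` from `near_zero`.
(a) `|τ| ≤ δ0`: if `σ ≤ δ0` then `‖V‖ ≤ K` (`‖σ + i τ‖ < δ` up to shrinking: use `δ0 = δ / 3`), if `δ0 ≤ σ ≤ 1` use `vv_growth` with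
`σ0 = δ0`. So `‖V (σ + i τ)‖ ≤ K'` for `|τ| ≤ δ0`, `0 < σ ≤ 1`.
(b) `|τ| > δ0`: cover `ℝ` by the intervals `I_m = Icc (2 δ1 m - δ1) (2 δ1 m + δ1)`, `m ∈ ℤ`, `δ1` the `δ` of `growth_L2`. On `I_m` outside
`[-δ0, δ0]`: `|τ| ≥ c2 (1 + |m|)`, `c2 = min (δ0, δ1 / 2)`. So the integral over this set is at most
`2 (C log² (2 + 2 δ1 |m|) + 2 δ1 κ²) / (c2² (1 + |m|)²) ≤ C3 (1 + |m|) ^ (-3/2)`, summable over `ℤ`.
Use lower integrals (`lintegral_iUnion_le`) or `integrableOn_iUnion`-type lemmas. `V` is continuous on the line, so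
measurable. (`σ ≤ 1 ≤ c`: `hF.hc1`.)
-/

set_option autoImplicit false

namespace Pool.Agent.Helper29.MS

open Complex Filter Topology MeasureTheory Set Metric
open Pool.Agent.Helper13.Bsd Pool.Agent.Helper7.GW Pool.Agent.Helper58.BSD

variable {v : ℝ → ℝ} {G : ℂ → ℂ} {A a η B c : ℝ} {k : ℕ}

private theorem H2_log (D x : ℝ) (hD : 1 ≤ D) (hx : 0 ≤ x) (y : ℝ) (hy0 : 1 ≤ y) (hy : y ≤ D * (1 + x)) :
    Real.log y ≤ 4 * D * (1 + x) ^ (1 / 4 : ℝ) := by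
  have h1 := Real.log_le_rpow_div (x := y) (by linarith) (show (0 : ℝ) < 1 / 4 by norm_num)
  have h2 : y ^ (1 / 4 : ℝ) ≤ (D * (1 + x)) ^ (1 / 4 : ℝ) :=
    Real.rpow_le_rpow (by linarith) hy (by norm_num)
  rw [Real.mul_rpow (by linarith) (by linarith)] at h2
  have h3 : D ^ (1 / 4 : ℝ) ≤ D := by
    calc D ^ (1 / 4 : ℝ) ≤ D ^ (1 : ℝ) := Real.rpow_le_rpow_of_exponent_le hD (by norm_num)
      _ = D := Real.rpow_one D
  have h4 : 0 ≤ (1 + x) ^ (1 / 4 : ℝ) := Real.rpow_nonneg (by linarith) _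
  have h5 : D ^ (1 / 4 : ℝ) * (1 + x) ^ (1 / 4 : ℝ) ≤ D * (1 + x) ^ (1 / 4 : ℝ) :=
    mul_le_mul_of_nonneg_right h3 h4
  calc Real.log y ≤ y ^ (1 / 4 : ℝ) / (1 / 4) := h1
    _ = 4 * y ^ (1 / 4 : ℝ) := by ring
    _ ≤ 4 * (D * (1 + x) ^ (1 / 4 : ℝ)) := by linarith
    _ = 4 * D * (1 + x) ^ (1 / 4 : ℝ) := by ring

theorem vv_growth (hF : Frame v G A a η B c k) {L : ℂ → ℂ} (hL : Branch v G a L) (σ0 : ℝ) (hσ : 0 < σ0) :
    ∃ C : ℝ, 0 ≤ C ∧ ∀ w : ℂ, σ0 ≤ w.re → ‖VV L (kap G) w‖ ≤ C * (1 + |w.im|) ^ (-(3 / 4) : ℝ) := by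
  obtain ⟨C, hC, hb⟩ := growth_pt hF hL σ0 hσ
  set c1 : ℝ := min σ0 1 / 2 with hc1
  have hc1p : 0 < c1 := by positivity
  refine ⟨(8 * C + |kap G|) / c1, by positivity, fun w hw => ?_⟩
  have hx : 0 ≤ |w.im| := abs_nonneg _
  have h1 := hb w hw
  have h2 : Real.log (2 + |w.im|) ≤ 4 * 2 * (1 + |w.im|) ^ (1 / 4 : ℝ) :=
    H2_log 2 |w.im| (by norm_num) hx _ (by linarith) (by linarith)
  have h3 : 1 ≤ (1 + |w.im|) ^ (1 / 4 : ℝ) := Real.one_le_rpow (by linarith) (by norm_num)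
  have h4 : c1 * (1 + |w.im|) ≤ ‖w‖ := by
    have e1 : σ0 ≤ ‖w‖ := hw.trans (Complex.re_le_norm w)
    have e2 : |w.im| ≤ ‖w‖ := Complex.abs_im_le_norm w
    have e3 : min σ0 1 ≤ σ0 := min_le_left _ _
    have e4 : min σ0 1 ≤ 1 := min_le_right _ _
    have e5 : min σ0 1 * |w.im| ≤ 1 * |w.im| := mul_le_mul_of_nonneg_right e4 hx
    rw [hc1]
    linarith
  have hpos : 0 < c1 * (1 + |w.im|) := by positivity
  have h5 : ‖L w + (kap G : ℂ)‖ ≤ (8 * C + |kap G|) * (1 + |w.im|) ^ (1 / 4 : ℝ) := by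
    have e1 := norm_add_le (L w) (kap G : ℂ)
    rw [Complex.norm_real, Real.norm_eq_abs] at e1
    have e2 : C * Real.log (2 + |w.im|) ≤ C * (4 * 2 * (1 + |w.im|) ^ (1 / 4 : ℝ)) :=
      mul_le_mul_of_nonneg_left h2 hC
    have e3 : |kap G| * 1 ≤ |kap G| * (1 + |w.im|) ^ (1 / 4 : ℝ) :=
      mul_le_mul_of_nonneg_left h3 (abs_nonneg _)
    linarith
  have h6 : (1 + |w.im|) ^ (-(3 / 4) : ℝ) = (1 + |w.im|) ^ (1 / 4 : ℝ) / (1 + |w.im|) := by
    rw [show (-(3 / 4) : ℝ) = 1 / 4 - 1 by norm_num, Real.rpow_sub_one (by linarith)]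
  unfold VV
  rw [norm_div, norm_neg, h6]
  calc ‖L w + (kap G : ℂ)‖ / ‖w‖ ≤ ((8 * C + |kap G|) * (1 + |w.im|) ^ (1 / 4 : ℝ)) / (c1 * (1 + |w.im|)) :=
        div_le_div₀ (by positivity) h5 hpos h4
    _ = _ := by
      field_simp

private theorem H2_summable : Summable (fun m : ℤ => (1 + |(m : ℝ)|) ^ (-(3 / 2) : ℝ)) := by
  have h : Summable (fun n : ℕ => (1 + |(n : ℝ)|) ^ (-(3 / 2) : ℝ)) := by
    have h1 : Summable (fun n : ℕ => (n : ℝ) ^ (-(3 / 2) : ℝ)) :=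
      Real.summable_nat_rpow.2 (by norm_num)
    have h2 := (summable_nat_add_iff 1).2 h1
    refine h2.congr fun n => ?_
    rw [abs_of_nonneg (Nat.cast_nonneg n)]
    push_cast
    rw [add_comm]
  refine Summable.of_nat_of_neg ?_ ?_
  · simpa using h
  · simpa using h

private theorem H2_cont {L : ℂ → ℂ} (hL : Branch v G a L) {σ : ℝ}
    (hσ : 0 < σ) :
    Continuous (fun τ : ℝ => ‖L ((σ : ℂ) + (τ : ℂ) * I)‖ ^ 2) ∧
      Continuous (fun τ : ℝ => ‖VV L (kap G) ((σ : ℂ) + (τ : ℂ) * I)‖ ^ 2) := by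
  have hre : ∀ τ : ℝ, ((σ : ℂ) + (τ : ℂ) * I).re = σ := fun τ => by simp
  have hl : Continuous (fun τ : ℝ => (σ : ℂ) + (τ : ℂ) * I) := by fun_prop
  have hLc : Continuous (fun τ : ℝ => L ((σ : ℂ) + (τ : ℂ) * I)) := by
    refine continuous_iff_continuousAt.2 fun τ => ?_
    have h1 : ContinuousAt L ((σ : ℂ) + (τ : ℂ) * I) := by
      refine (hL.diff.differentiableAt ?_).continuousAt
      refine (isOpen_lt continuous_const Complex.continuous_re).mem_nhds ?_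
      show 0 < ((σ : ℂ) + (τ : ℂ) * I).re
      rw [hre]
      exact hσ
    exact ContinuousAt.comp (f := fun τ : ℝ => (σ : ℂ) + (τ : ℂ) * I) (g := L) h1 hl.continuousAt
  refine ⟨(hLc.norm).pow 2, ?_⟩
  have hne : ∀ τ : ℝ, (σ : ℂ) + (τ : ℂ) * I ≠ 0 := fun τ h => by
    have := congrArg Complex.re h
    rw [hre] at this
    simp at this
    linarith
  unfold VV
  exact (((hLc.add continuous_const).neg.div hl hne).norm).pow 2

/-- pointwise bound away from `0` -/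
private theorem H2_pt (L : ℂ → ℂ) (κ σ τ q : ℝ) (hq : 0 < q) (hqt : q ≤ |τ|) :
    ‖VV L κ ((σ : ℂ) + (τ : ℂ) * I)‖ ^ 2 ≤ 2 / q ^ 2 * (‖L ((σ : ℂ) + (τ : ℂ) * I)‖ ^ 2 + κ ^ 2) := by
  have him : ((σ : ℂ) + (τ : ℂ) * I).im = τ := by simp
  have h1 : q ≤ ‖(σ : ℂ) + (τ : ℂ) * I‖ := by
    have := Complex.abs_im_le_norm ((σ : ℂ) + (τ : ℂ) * I)
    rw [him] at this
    linarith
  unfold VV
  rw [norm_div, norm_neg, div_pow]
  have h2 : ‖L ((σ : ℂ) + (τ : ℂ) * I) + (κ : ℂ)‖ ^ 2 ≤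
      2 * (‖L ((σ : ℂ) + (τ : ℂ) * I)‖ ^ 2 + κ ^ 2) := by
    have e1 := norm_add_le (L ((σ : ℂ) + (τ : ℂ) * I)) (κ : ℂ)
    rw [Complex.norm_real, Real.norm_eq_abs] at e1
    have e2 : ‖L ((σ : ℂ) + (τ : ℂ) * I) + (κ : ℂ)‖ ^ 2 ≤
        (‖L ((σ : ℂ) + (τ : ℂ) * I)‖ + |κ|) ^ 2 := by gcongr
    nlinarith [sq_nonneg (‖L ((σ : ℂ) + (τ : ℂ) * I)‖ - |κ|), sq_abs κ]
  have h3 : q ^ 2 ≤ ‖(σ : ℂ) + (τ : ℂ) * I‖ ^ 2 := by gcongr
  calc ‖L ((σ : ℂ) + (τ : ℂ) * I) + (κ : ℂ)‖ ^ 2 / ‖(σ : ℂ) + (τ : ℂ) * I‖ ^ 2 ≤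
        (2 * (‖L ((σ : ℂ) + (τ : ℂ) * I)‖ ^ 2 + κ ^ 2)) / q ^ 2 :=
        div_le_div₀ (by positivity) h2 (by positivity) h3
    _ = _ := by ring

theorem h2_bound (hF : Frame v G A a η B c k) {L : ℂ → ℂ} (hL : Branch v G a L) :
    ∃ K : ℝ, 0 ≤ K ∧ ∀ σ : ℝ, 0 < σ → σ ≤ 1 →
      Integrable (fun τ : ℝ => ‖VV L (kap G) ((σ : ℂ) + (τ : ℂ) * I)‖ ^ 2) ∧
      ∫ τ : ℝ, ‖VV L (kap G) ((σ : ℂ) + (τ : ℂ) * I)‖ ^ 2 ≤ K := by
  obtain ⟨δ, K1, hδ, hK1, hnear⟩ := near_zero hF hL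
  set δ0 : ℝ := δ / 3 with hδ0
  have hδ0p : 0 < δ0 := by positivity
  obtain ⟨C1, hC1, hgr⟩ := vv_growth hF hL δ0 hδ0p
  obtain ⟨δ1, C2, hδ1, hC2, hL2⟩ := growth_L2 hF hL
  set K' : ℝ := K1 + C1 with hK'
  have hK'0 : 0 ≤ K' := by positivity
  -- (a)
  have hcen : ∀ σ τ : ℝ, 0 < σ → |τ| ≤ δ0 → ‖VV L (kap G) ((σ : ℂ) + (τ : ℂ) * I)‖ ≤ K' := by
    intro σ τ hσ hτ
    have hre : ((σ : ℂ) + (τ : ℂ) * I).re = σ := by simp
    rcases le_or_gt σ δ0 with h | h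
    · have h1 : ‖(σ : ℂ) + (τ : ℂ) * I‖ < δ := by
        have e1 := norm_add_le (σ : ℂ) ((τ : ℂ) * I)
        rw [norm_mul, Complex.norm_I, mul_one, Complex.norm_real, Complex.norm_real,
          Real.norm_eq_abs, Real.norm_eq_abs, abs_of_pos hσ] at e1
        have : δ0 * 3 = δ := by rw [hδ0]; ring
        linarith
      have h2 := hnear _ (by rw [hre]; exact hσ) h1
      linarith
    · have h2 := hgr ((σ : ℂ) + (τ : ℂ) * I) (by rw [hre]; exact h.le)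
      have h3 : (1 + |((σ : ℂ) + (τ : ℂ) * I).im|) ^ (-(3 / 4) : ℝ) ≤ 1 :=
        Real.rpow_le_one_of_one_le_of_nonpos (by linarith [abs_nonneg ((σ : ℂ) + (τ : ℂ) * I).im])
          (by norm_num)
      have h4 := mul_le_mul_of_nonneg_left h3 hC1
      linarith
  set c2 : ℝ := min δ0 (δ1 / 2) with hc2
  have hc2p : 0 < c2 := by positivity
  set κ : ℝ := kap G with hκ
  set D : ℝ := 2 + 2 * δ1 with hD
  set C3 : ℝ := 2 / c2 ^ 2 * (16 * D ^ 2 * C2 + 2 * δ1 * κ ^ 2) with hC3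
  have hC3p : 0 ≤ C3 := by positivity
  set b : ℤ → ℝ := fun m => C3 * (1 + |(m : ℝ)|) ^ (-(3 / 2) : ℝ) with hb
  have hb0 : ∀ m, 0 ≤ b m := fun m => by
    have : 0 ≤ |(m : ℝ)| := abs_nonneg _
    positivity
  have hbs : Summable b := H2_summable.mul_left C3
  refine ⟨2 * δ0 * K' ^ 2 + ∑' m, b m, by
    have : 0 ≤ ∑' m, b m := tsum_nonneg hb0
    positivity, fun σ hσ hσ1 => ?_⟩
  obtain ⟨hcL, hcV⟩ := H2_cont hL hσ
  set f : ℝ → ℝ := fun τ => ‖VV L κ ((σ : ℂ) + (τ : ℂ) * I)‖ ^ 2 with hf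
  have hf0 : ∀ τ, 0 ≤ f τ := fun τ => by positivity
  set S0 : Set ℝ := Icc (-δ0) δ0 with hS0
  set J : ℤ → Set ℝ := fun m => Icc (2 * δ1 * m - δ1) (2 * δ1 * m + δ1) with hJ
  have hlint : ∫⁻ τ, ENNReal.ofReal (f τ) ≤ ENNReal.ofReal (2 * δ0 * K' ^ 2 + ∑' m, b m) := by
    have hcov : (univ : Set ℝ) ⊆ S0 ∪ ⋃ m, (J m \ S0) := by
      intro τ _
      by_cases h : τ ∈ S0
      · exact Or.inl h
      · refine Or.inr (mem_iUnion.2 ⟨round (τ / (2 * δ1)), ?_, h⟩)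
        have h1 := abs_sub_round (τ / (2 * δ1))
        rw [abs_le] at h1
        have h2 : τ = τ / (2 * δ1) * (2 * δ1) := by field_simp
        constructor
        · nlinarith [h1.1, h1.2]
        · nlinarith [h1.1, h1.2]
    have h1 : ∫⁻ τ in S0, ENNReal.ofReal (f τ) ≤ ENNReal.ofReal (2 * δ0 * K' ^ 2) := by
      calc ∫⁻ τ in S0, ENNReal.ofReal (f τ) ≤ ∫⁻ τ in S0, ENNReal.ofReal (K' ^ 2) := by
            refine setLIntegral_mono measurable_const fun τ hτ => ENNReal.ofReal_le_ofReal ?_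
            have := hcen σ τ hσ (abs_le.2 hτ)
            show ‖VV L κ ((σ : ℂ) + (τ : ℂ) * I)‖ ^ 2 ≤ K' ^ 2
            gcongr
        _ = ENNReal.ofReal (2 * δ0 * K' ^ 2) := by
            rw [setLIntegral_const, hS0, Real.volume_Icc, ← ENNReal.ofReal_mul (by positivity)]
            congr 1
            ring
    have h2 : ∀ m, ∫⁻ τ in J m \ S0, ENNReal.ofReal (f τ) ≤ ENNReal.ofReal (b m) := by
      intro m
      have hM : 0 ≤ |(m : ℝ)| := abs_nonneg _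
      set M : ℝ := |(m : ℝ)| with hMdef
      set q : ℝ := c2 * (1 + M) with hq
      have hqp : 0 < q := by positivity
      have hqt : ∀ τ ∈ J m \ S0, q ≤ |τ| := by
        rintro τ ⟨hτ, hτ0⟩
        have e1 : |τ - 2 * δ1 * m| ≤ δ1 := by
          rw [abs_le]
          constructor
          · linarith [hτ.1]
          · linarith [hτ.2]
        have e2 : δ0 < |τ| := by
          by_contra h
          exact hτ0 (abs_le.1 (not_lt.1 h))
        have e3 : c2 ≤ δ0 := min_le_left _ _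
        have e4 : c2 ≤ δ1 / 2 := min_le_right _ _
        rcases eq_or_ne m 0 with h | h
        · rw [hq, hMdef, h]
          simp only [Int.cast_zero, abs_zero, add_zero, mul_one]
          linarith
        · have e5 : 1 ≤ M := by
            rw [hMdef, ← Int.cast_abs]
            exact_mod_cast Int.one_le_abs h
          have e6 : 2 * δ1 * M ≤ |τ| + δ1 := by
            have e7 : |2 * δ1 * (m : ℝ)| = 2 * δ1 * M := by
              rw [abs_mul, abs_of_pos (by positivity : (0 : ℝ) < 2 * δ1)]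
            have e8 := abs_sub_abs_le_abs_sub (2 * δ1 * (m : ℝ)) τ
            rw [abs_sub_comm, e7] at e8
            linarith
          have e9 : q ≤ δ1 / 2 * (1 + M) := mul_le_mul_of_nonneg_right e4 (by linarith)
          nlinarith
      have hJc : IsCompact (J m) := isCompact_Icc
      have hJv : volume.real (J m) = 2 * δ1 := by
        rw [measureReal_def, Real.volume_Icc, ENNReal.toReal_ofReal (by linarith)]
        ring
      set g : ℝ → ℝ := fun τ => 2 / q ^ 2 * (‖L ((σ : ℂ) + (τ : ℂ) * I)‖ ^ 2 + κ ^ 2) with hg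
      have hgc : Continuous g := (hcL.add continuous_const).const_smul (2 / q ^ 2)
      have hgi : IntegrableOn g (J m) := hgc.continuousOn.integrableOn_compact hJc
      have hg0 : ∀ τ, 0 ≤ g τ := fun τ => by positivity
      have hLi : IntegrableOn (fun τ : ℝ => ‖L ((σ : ℂ) + (τ : ℂ) * I)‖ ^ 2) (J m) :=
        hcL.continuousOn.integrableOn_compact hJc
      have hgb : ∫ τ in J m, g τ ≤ b m := by
        have e1 : ∫ τ in J m, g τ =
            2 / q ^ 2 * ((∫ τ in J m, ‖L ((σ : ℂ) + (τ : ℂ) * I)‖ ^ 2) + 2 * δ1 * κ ^ 2) := by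
          rw [hg, integral_const_mul, integral_add hLi (integrableOn_const hJc.measure_lt_top.ne),
            setIntegral_const, hJv, smul_eq_mul]
        have e2 := hL2 σ (2 * δ1 * m) hσ (hσ1.trans hF.hc1)
        have e3 : Real.log (2 + |2 * δ1 * (m : ℝ)|) ≤ 4 * D * (1 + M) ^ (1 / 4 : ℝ) := by
          have e7 : |2 * δ1 * (m : ℝ)| = 2 * δ1 * M := by
            rw [abs_mul, abs_of_pos (by positivity : (0 : ℝ) < 2 * δ1)]
          rw [e7]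
          have : 0 ≤ 2 * δ1 * M := by positivity
          exact H2_log D M (by linarith) hM _ (by linarith) (by rw [hD]; nlinarith)
        have e4 : 0 ≤ Real.log (2 + |2 * δ1 * (m : ℝ)|) :=
          Real.log_nonneg (by linarith [abs_nonneg (2 * δ1 * (m : ℝ))])
        have e5 : Real.log (2 + |2 * δ1 * (m : ℝ)|) ^ 2 ≤ 16 * D ^ 2 * (1 + M) ^ (1 / 2 : ℝ) := by
          have h5 : Real.log (2 + |2 * δ1 * (m : ℝ)|) ^ 2 ≤ (4 * D * (1 + M) ^ (1 / 4 : ℝ)) ^ 2 := by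
            gcongr
          have h6 : ((1 + M) ^ (1 / 4 : ℝ)) ^ 2 = (1 + M) ^ (1 / 2 : ℝ) := by
            rw [← Real.rpow_natCast, ← Real.rpow_mul (by linarith)]
            norm_num
          calc _ ≤ (4 * D * (1 + M) ^ (1 / 4 : ℝ)) ^ 2 := h5
            _ = 16 * D ^ 2 * ((1 + M) ^ (1 / 4 : ℝ)) ^ 2 := by ring
            _ = _ := by rw [h6]
        have e6 : 1 ≤ (1 + M) ^ (1 / 2 : ℝ) := Real.one_le_rpow (by linarith) (by norm_num)
        have e7 : (∫ τ in J m, ‖L ((σ : ℂ) + (τ : ℂ) * I)‖ ^ 2) + 2 * δ1 * κ ^ 2 ≤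
            (16 * D ^ 2 * C2 + 2 * δ1 * κ ^ 2) * (1 + M) ^ (1 / 2 : ℝ) := by
          have h7 := mul_le_mul_of_nonneg_left e5 hC2
          have h8 : 2 * δ1 * κ ^ 2 * 1 ≤ 2 * δ1 * κ ^ 2 * (1 + M) ^ (1 / 2 : ℝ) :=
            mul_le_mul_of_nonneg_left e6 (by positivity)
          have h9 : (∫ τ in J m, ‖L ((σ : ℂ) + (τ : ℂ) * I)‖ ^ 2) ≤
            C2 * Real.log (2 + |2 * δ1 * (m : ℝ)|) ^ 2 := e2
          linarith
        have e8 : (1 + M) ^ (-(3 / 2) : ℝ) = (1 + M) ^ (1 / 2 : ℝ) / (1 + M) ^ 2 := by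
          rw [show (-(3 / 2) : ℝ) = 1 / 2 - 2 by norm_num, Real.rpow_sub (by linarith)]
          norm_num
        have e9 : 2 / q ^ 2 * ((16 * D ^ 2 * C2 + 2 * δ1 * κ ^ 2) * (1 + M) ^ (1 / 2 : ℝ)) = b m := by
          simp only [hb]
          rw [← hMdef, e8, hC3, hq]
          have : (1 + M) ≠ 0 := by positivity
          field_simp
        rw [e1, ← e9]
        exact mul_le_mul_of_nonneg_left e7 (by positivity)
      calc ∫⁻ τ in J m \ S0, ENNReal.ofReal (f τ) ≤ ∫⁻ τ in J m \ S0, ENNReal.ofReal (g τ) := by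
            refine setLIntegral_mono hgc.measurable.ennreal_ofReal fun τ hτ =>
              ENNReal.ofReal_le_ofReal ?_
            exact H2_pt L κ σ τ q hqp (hqt τ hτ)
        _ ≤ ∫⁻ τ in J m, ENNReal.ofReal (g τ) := lintegral_mono_set Set.sdiff_subset
        _ = ENNReal.ofReal (∫ τ in J m, g τ) :=
            (ofReal_integral_eq_lintegral_ofReal hgi (Eventually.of_forall hg0)).symm
        _ ≤ ENNReal.ofReal (b m) := ENNReal.ofReal_le_ofReal hgb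
    calc ∫⁻ τ, ENNReal.ofReal (f τ) = ∫⁻ τ in univ, ENNReal.ofReal (f τ) := by
          rw [setLIntegral_univ]
      _ ≤ ∫⁻ τ in S0 ∪ ⋃ m, (J m \ S0), ENNReal.ofReal (f τ) := lintegral_mono_set hcov
      _ ≤ (∫⁻ τ in S0, ENNReal.ofReal (f τ)) + ∫⁻ τ in ⋃ m, (J m \ S0), ENNReal.ofReal (f τ) :=
          lintegral_union_le _ _ _
      _ ≤ ENNReal.ofReal (2 * δ0 * K' ^ 2) + ∑' m, ENNReal.ofReal (b m) := by
          refine add_le_add h1 ?_
          exact (lintegral_iUnion_le _ _).trans (ENNReal.tsum_le_tsum h2)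
      _ = ENNReal.ofReal (2 * δ0 * K' ^ 2 + ∑' m, b m) := by
          rw [← ENNReal.ofReal_tsum_of_nonneg hb0 hbs, ENNReal.ofReal_add (by positivity)
            (tsum_nonneg hb0)]
  have hint : Integrable f := by
    refine ⟨hcV.aestronglyMeasurable, ?_⟩
    rw [hasFiniteIntegral_iff_ofReal (Eventually.of_forall hf0)]
    exact hlint.trans_lt ENNReal.ofReal_lt_top
  refine ⟨hint, ?_⟩
  have h3 := ofReal_integral_eq_lintegral_ofReal hint (Eventually.of_forall hf0)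
  rw [← h3] at hlint
  exact (ENNReal.ofReal_le_ofReal_iff (by
    have : 0 ≤ ∑' m, b m := tsum_nonneg hb0
    positivity)).1 hlint

end Pool.Agent.Helper29.MS
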