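import Pool.Agent.Helper29.MS.LocLog

/-!
MS-5. The local bound for `log G` in boxes around `i τ0`, in terms of the zeros.

PROOF. Put `r' = c + η / 8`, `r = c + η / 4`, `R = c + η / 2`, `R' = c + η`, `δ > 0` with `c² + δ² < r'²`. Let `K0` be the constant of
`log_bound` for `(c, r', r, R)`. For `τ0` put `w0 = c + i τ0`, `g z = G (w0 + z)`, `Lz = L (w0 + z)` in `log_bound`:
`w0 + ball 0 R' ⊆ {-η < s.re}`. `‖g z‖ ≤ B (1 + c + |τ0| + R) ^ k =: M` on `closedBall 0 R`. `‖L w0‖ = ‖w0 Lap v w0‖ ≤ B`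
(`hL.eq`, `hF.hc`, `hF.right`), `‖g 0‖ = ‖exp (L w0)‖ = exp (Re (L w0)) ≥ exp (-B)`, so
`log (M / ‖g 0‖) ≤ log B + k log (1 + c + R + |τ0|) + B ≤ K1 log (2 + |τ0|)` (`log (2 + |τ0|) ≥ log 2 > 0`,
`1 + c + R + |τ0| ≤ (1 + c + R) (2 + |τ0|)`). No zeros of `g` for `-c < z.re` by `hF.rh`.
`z = x + i y` with `-c < x ≤ 0`, `|y| ≤ δ` is in `ball 0 r'`.
-/

set_option autoImplicit false

namespace Pool.Agent.Helper29.MS

open Complex Filter Topology MeasureTheory Set Metric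
open Pool.Agent.Helper13.Bsd Pool.Agent.Helper7.GW Pool.Agent.Helper58.BSD

private theorem norm_small {c η x y : ℝ} (hc : 0 < c) (hη : 0 < η) (hx : -c < x) (hx0 : x ≤ 0)
    (hy : |y| ≤ η / 16) : ‖(x : ℂ) + (y : ℂ) * I‖ < c + η / 8 := by
  have h1 : ‖(x : ℂ) + (y : ℂ) * I‖ ^ 2 = x ^ 2 + y ^ 2 := by
    rw [← normSq_eq_norm_sq, normSq_add_mul_I]
  have h2 : x ^ 2 ≤ c ^ 2 := by nlinarith
  have h3 : y ^ 2 ≤ (η / 16) ^ 2 := sq_le_sq' (by linarith [neg_le_of_abs_le hy]) (le_of_abs_le hy)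
  have h4 : ‖(x : ℂ) + (y : ℂ) * I‖ ^ 2 < (c + η / 8) ^ 2 := by nlinarith
  exact lt_of_pow_lt_pow_left₀ 2 (by positivity) h4

private theorem log_two_add (τ : ℝ) : Real.log 2 ≤ Real.log (2 + |τ|) :=
  Real.log_le_log (by norm_num) (by linarith [abs_nonneg τ])

private theorem main_log {B C D ℓ τ : ℝ} {k : ℕ} (hB : 1 ≤ B) (hC : 1 ≤ C) (hD : Real.exp (-B) ≤ D)
    (hℓ : ℓ = Real.log (2 + |τ|)) :
    Real.log (B * (C + |τ|) ^ k / D) ≤
      ((Real.log B + k * Real.log C + B) / Real.log 2 + k) * ℓ := by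
  have h2 : 0 < Real.log 2 := Real.log_pos (by norm_num)
  have hτ := abs_nonneg τ
  have hDpos : 0 < D := (Real.exp_pos _).trans_le hD
  have e1 : -B ≤ Real.log D := by
    rw [Real.le_log_iff_exp_le hDpos]
    exact hD
  have hCτ : 0 < C + |τ| := by linarith
  have e2 : Real.log (B * (C + |τ|) ^ k / D) = Real.log B + k * Real.log (C + |τ|) - Real.log D := by
    rw [Real.log_div (by positivity) hDpos.ne', Real.log_mul (by positivity) (by positivity),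
      Real.log_pow]
  have e3 : Real.log (C + |τ|) ≤ Real.log C + ℓ := by
    rw [hℓ, ← Real.log_mul (by positivity) (by positivity)]
    apply Real.log_le_log hCτ
    nlinarith
  have e4 : Real.log 2 ≤ ℓ := by
    rw [hℓ]
    exact log_two_add τ
  have hk : (0 : ℝ) ≤ k := Nat.cast_nonneg k
  have hlB : 0 ≤ Real.log B := Real.log_nonneg hB
  have hlC : 0 ≤ Real.log C := Real.log_nonneg hC
  have e5 : (k : ℝ) * Real.log (C + |τ|) ≤ k * Real.log C + k * ℓ := by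
    have := mul_le_mul_of_nonneg_left e3 hk
    linarith
  have hX : 0 ≤ Real.log B + k * Real.log C + B := by positivity
  have e6 : Real.log B + k * Real.log C + B ≤
      (Real.log B + k * Real.log C + B) / Real.log 2 * ℓ := by
    rw [div_mul_eq_mul_div, le_div_iff₀ h2]
    exact mul_le_mul_of_nonneg_left e4 hX
  rw [e2, add_mul]
  linarith

variable {v : ℝ → ℝ} {G : ℂ → ℂ} {A a η B c : ℝ} {k : ℕ}

theorem loc (hF : Frame v G A a η B c k) {L : ℂ → ℂ} (hL : Branch v G a L) :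
    ∃ δ r K : ℝ, 0 < δ ∧ c ≤ r ∧ 0 ≤ K ∧ ∀ τ0 : ℝ, ∃ (n : ℕ) (ρ : Fin n → ℂ),
      (n : ℝ) ≤ K * Real.log (2 + |τ0|) ∧ (∀ j, ‖ρ j‖ ≤ r ∧ (ρ j).re ≤ -c) ∧
      ∀ x y : ℝ, -c < x → x ≤ 0 → |y| ≤ δ →
        ‖L ((c : ℂ) + (τ0 : ℂ) * I + ((x : ℂ) + (y : ℂ) * I))‖ ≤
          K * Real.log (2 + |τ0|) + ∑ j, |Real.log ‖(x : ℂ) + (y : ℂ) * I - ρ j‖| := by
  have hη := hF.setup.hη
  have hc0 : 0 < c := lt_of_lt_of_le one_pos hF.hc1
  have hB := hF.hB
  obtain ⟨K0, hK0, hlog⟩ := log_bound (c := c) (r' := c + η / 8) (r := c + η / 4) (R := c + η / 2) hc0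
    (by linarith) (by linarith) (by linarith)
  have h2 : 0 < Real.log 2 := Real.log_pos (by norm_num)
  obtain ⟨C, hC⟩ : ∃ C : ℝ, C = 1 + c + (c + η / 2) := ⟨_, rfl⟩
  have hC1 : 1 ≤ C := by
    rw [hC]
    linarith
  obtain ⟨K1, hK1⟩ : ∃ K1 : ℝ, K1 = (Real.log B + k * Real.log C + B) / Real.log 2 + k := ⟨_, rfl⟩
  have hK1' : 0 ≤ K1 := by
    have hlB : 0 ≤ Real.log B := Real.log_nonneg hB
    have hlC : 0 ≤ Real.log C := Real.log_nonneg hC1
    rw [hK1]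
    positivity
  refine ⟨η / 16, c + η / 4, B / Real.log 2 + K0 * K1, by positivity, by linarith, by positivity, ?_⟩
  intro τ0
  obtain ⟨ℓ, hℓ⟩ : ∃ ℓ : ℝ, ℓ = Real.log (2 + |τ0|) := ⟨_, rfl⟩
  have hℓ2 : Real.log 2 ≤ ℓ := by
    rw [hℓ]
    exact log_two_add τ0
  obtain ⟨w0, hw0⟩ : ∃ w0 : ℂ, w0 = (c : ℂ) + (τ0 : ℂ) * I := ⟨_, rfl⟩
  have hre : w0.re = c := by
    rw [hw0]
    simp
  have hnorm : ‖w0‖ ≤ c + |τ0| := by
    rw [hw0]
    refine (norm_add_le _ _).trans ?_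
    rw [norm_mul, norm_I, mul_one, norm_real, norm_real, Real.norm_eq_abs, Real.norm_eq_abs,
      abs_of_pos hc0]
  have hGd := hF.setup.diff
  have hLw0 : ‖L w0‖ ≤ B := by
    rw [hL.eq w0 (by rw [hre]; exact hF.hc), norm_neg]
    exact hF.right w0 hre.ge
  have hg0 : Real.exp (-B) ≤ ‖G (w0 + 0)‖ := by
    rw [add_zero, ← hL.exp w0 (by rw [hre]; exact hc0), norm_exp]
    apply Real.exp_le_exp.2
    have h3 := abs_re_le_norm (L w0)
    have h4 := neg_abs_le (L w0).re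
    linarith
  have q1 : DifferentiableOn ℂ (fun z => G (w0 + z)) (ball (0 : ℂ) (c + η)) := by
    have h3 : DifferentiableOn ℂ (fun z : ℂ => w0 + z) (ball (0 : ℂ) (c + η)) :=
      (differentiable_id.const_add w0).differentiableOn
    refine hGd.comp h3 ?_
    intro z hz
    rw [mem_ball_zero_iff] at hz
    have h4 := neg_abs_le z.re
    have h5 := abs_re_le_norm z
    show -η < (w0 + z).re
    rw [add_re, hre]
    linarith
  have q2 : ∀ z ∈ closedBall (0 : ℂ) (c + η / 2), ‖G (w0 + z)‖ ≤ B * (C + |τ0|) ^ k := by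
    intro z hz
    rw [mem_closedBall_zero_iff] at hz
    have h4 := neg_abs_le z.re
    have h5 := abs_re_le_norm z
    have h6 : -η < (w0 + z).re := by
      rw [add_re, hre]
      linarith
    refine (hF.growth _ h6).trans ?_
    have h7 : 1 + ‖w0 + z‖ ≤ C + |τ0| := by
      have h8 := norm_add_le w0 z
      rw [hC]
      linarith
    have h9 : 0 ≤ 1 + ‖w0 + z‖ := by positivity
    gcongr
  have q3 : ∀ z ∈ ball (0 : ℂ) (c + η), -c < z.re → G (w0 + z) ≠ 0 := by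
    intro z _ hz
    apply hF.rh
    rw [add_re, hre]
    linarith
  have q4 : DifferentiableOn ℂ (fun z => L (w0 + z))
      (ball (0 : ℂ) (c + η / 8) ∩ {z : ℂ | -c < z.re}) := by
    have h3 : DifferentiableOn ℂ (fun z : ℂ => w0 + z)
        (ball (0 : ℂ) (c + η / 8) ∩ {z : ℂ | -c < z.re}) :=
      (differentiable_id.const_add w0).differentiableOn
    refine hL.diff.comp h3 ?_
    rintro z ⟨_, hz⟩
    have hz' : -c < z.re := hz
    show 0 < (w0 + z).re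
    rw [add_re, hre]
    linarith
  have q5 : ∀ z ∈ ball (0 : ℂ) (c + η / 8), -c < z.re → cexp (L (w0 + z)) = G (w0 + z) := by
    intro z _ hz
    apply hL.exp
    rw [add_re, hre]
    linarith
  obtain ⟨n, ρ, hn, hρ, hb⟩ := hlog (c + η) (B * (C + |τ0|) ^ k) (fun z => G (w0 + z))
    (fun z => L (w0 + z)) (by linarith) q1 q2 q3 q4 q5
  have hmain : Real.log (B * (C + |τ0|) ^ k / ‖G (w0 + 0)‖) ≤ K1 * ℓ := by
    rw [hK1]
    exact main_log hB hC1 hg0 hℓ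
  have hBl : B ≤ B / Real.log 2 * ℓ := by
    rw [div_mul_eq_mul_div, le_div_iff₀ h2]
    exact mul_le_mul_of_nonneg_left hℓ2 (by linarith)
  have hKl : K0 * Real.log (B * (C + |τ0|) ^ k / ‖G (w0 + 0)‖) ≤ K0 * K1 * ℓ := by
    rw [mul_assoc]
    exact mul_le_mul_of_nonneg_left hmain hK0
  refine ⟨n, ρ, ?_, hρ, ?_⟩
  · rw [← hℓ, add_mul]
    refine hn.trans (hKl.trans ?_)
    linarith
  · intro x y hx hx0 hy
    have h3 := hb ((x : ℂ) + (y : ℂ) * I) ?_ ?_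
    · rw [← hℓ, ← hw0, add_mul]
      simp only [add_zero] at h3 hKl
      linarith
    · rw [mem_ball_zero_iff]
      exact norm_small hc0 hη hx hx0 hy
    · have : ((x : ℂ) + (y : ℂ) * I).re = x := by simp
      rw [this]
      exact hx

end Pool.Agent.Helper29.MS
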