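import Pool.Agent.Helper29.MS.Fact

/-!
MS-2. Local bound for a branch of the logarithm, with the logarithmic singularities made explicit.

PROOF of `log_bound`. `exists_factor` (`g 0 ≠ 0` since `0` is in the half plane) gives `n`, `ρ`, `q`. `g (ρ j) = 0`, so `(ρ j).re ≤ -c`.
Put `Λ := log (M / ‖g 0‖) ≥ 0` (`‖g 0‖ ≤ M`), `b z := q z * ∏ (R² - conj (ρ j) z) / R`: differentiable, `‖b‖ ≤ M`, no zeros on `ball 0 r`
(`‖conj ρ z‖ < R²`), `‖b 0‖ = ‖q 0‖ R ^ n ≥ ‖q 0‖ ∏ ‖ρ j‖ = ‖g 0‖`. `exists_log` on `ball 0 r`: `exp ℓ = b`. `f z := ℓ z - ℓ 0`,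
`Re f z = log ‖b z‖ - log ‖b 0‖ ≤ Λ`. `Complex.borelCaratheodory_zero` with `M = Λ + ε` and `ε → 0`
(`le_of_forall_pos_le_add`) gives `‖f z‖ ≤ 2 Λ r' / (r - r')` for `‖z‖ < r'`.
On `D := ball 0 r' ∩ {-c < z.re}` (convex, open, contains `0`) the function
`H z := L z - f z - ∑ log (z - ρ j) + ∑ log ((R² - conj (ρ j) z) / R)` is differentiable (`z - ρ j` and
`(R² - conj (ρ j) z) / R` have positive real part, so they are in `slitPlane`) with constant exponential `exp (ℓ 0)`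
(`g = q ∏ (z - ρ j)`, `b = q ∏ ((R² - conj (ρ j) z) / R)`), so it is constant by `const_of_exp`: `H z = H 0`, i.e.
`L z = L 0 + f z + ∑ (log (z - ρ j) - log (- ρ j)) - ∑ (log ((R² - conj (ρ j) z) / R) - log R)`.
`‖log ζ‖ ≤ |Real.log ‖ζ‖| + π` (`tlog_norm_log` of Helper58/BSD/TLog, or directly), `c ≤ ‖ρ j‖ ≤ r`,
`(R² - r²) / R ≤ ‖(R² - conj ρ z) / R‖ ≤ 2 R`. So
`‖L z‖ ≤ ‖L 0‖ + 2 r' / (r - r') Λ + n K1 + ∑ |Real.log ‖z - ρ j‖|`, `K1 = K1 (c, r, R)`, and `n ≤ Λ / log (R / r)`.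
-/

set_option autoImplicit false

namespace Pool.Agent.Helper29.MS

open Complex Filter Topology MeasureTheory Set Metric
open Pool.Agent.Helper58.BSD

open scoped ComplexConjugate

private theorem LocLog_abs_log {a b x : ℝ} (ha : 0 < a) (h1 : a ≤ x) (h2 : x ≤ b) :
    |Real.log x| ≤ |Real.log a| + |Real.log b| := by
  have h3 := Real.log_le_log ha h1
  have h4 := Real.log_le_log (ha.trans_le h1) h2
  rw [abs_le]
  constructor
  · have := neg_abs_le (Real.log a)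
    have := abs_nonneg (Real.log b)
    linarith
  · have := le_abs_self (Real.log b)
    have := abs_nonneg (Real.log a)
    linarith

private theorem LocLog_re {r R : ℝ} (hr : 0 < r) (hrR : r < R) {ρ z : ℂ} (hρ : ‖ρ‖ ≤ r)
    (hz : ‖z‖ < r) : 0 < (((R : ℂ) ^ 2 - conj ρ * z) / (R : ℂ)).re := by
  have hR : 0 < R := hr.trans hrR
  have h1 : (conj ρ * z).re ≤ r * r := by
    refine (Complex.re_le_norm _).trans ?_
    rw [norm_mul, Complex.norm_conj]
    exact mul_le_mul hρ hz.le (norm_nonneg _) hr.le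
  have h2 : ((R : ℂ) ^ 2 - conj ρ * z).re = R ^ 2 - (conj ρ * z).re := by
    rw [Complex.sub_re, ← Complex.ofReal_pow, Complex.ofReal_re]
  rw [Complex.div_ofReal_re, h2]
  apply div_pos _ hR
  nlinarith

private theorem LocLog_norm {r R : ℝ} (hr : 0 < r) (hrR : r < R) {ρ z : ℂ} (hρ : ‖ρ‖ ≤ r)
    (hz : ‖z‖ < r) : (R ^ 2 - r ^ 2) / R ≤ ‖((R : ℂ) ^ 2 - conj ρ * z) / (R : ℂ)‖ ∧
      ‖((R : ℂ) ^ 2 - conj ρ * z) / (R : ℂ)‖ ≤ 2 * R := by
  have hR : 0 < R := hr.trans hrR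
  have h1 : ‖conj ρ * z‖ ≤ r ^ 2 := by
    rw [norm_mul, Complex.norm_conj, sq]
    exact mul_le_mul hρ hz.le (norm_nonneg _) hr.le
  have h2 : ‖(R : ℂ) ^ 2‖ = R ^ 2 := by
    rw [norm_pow, Complex.norm_real, Real.norm_of_nonneg hR.le]
  rw [norm_div, Complex.norm_real, Real.norm_of_nonneg hR.le]
  constructor
  · apply div_le_div_of_nonneg_right _ hR.le
    have := norm_sub_norm_le ((R : ℂ) ^ 2) (conj ρ * z)
    rw [h2] at this
    linarith
  · rw [div_le_iff₀ hR]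
    have := norm_sub_le ((R : ℂ) ^ 2) (conj ρ * z)
    rw [h2] at this
    nlinarith

private theorem LocLog_bc {r' r Λ : ℝ} (h0 : 0 < r') (h2 : r' < r) (hΛ : 0 ≤ Λ) {f : ℂ → ℂ}
    (hf : DifferentiableOn ℂ f (ball 0 r)) (hre : ∀ z ∈ ball (0 : ℂ) r, (f z).re ≤ Λ)
    (hf0 : f 0 = 0) {z : ℂ} (hz : z ∈ ball (0 : ℂ) r') : ‖f z‖ ≤ 2 * r' / (r - r') * Λ := by
  have hz' : ‖z‖ < r' := mem_ball_zero_iff.1 hz
  have hr : 0 < r := h0.trans h2
  have hzr : z ∈ ball (0 : ℂ) r := mem_ball_zero_iff.2 (hz'.trans h2)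
  have hd : 0 < r - r' := by linarith
  have key : ∀ ε : ℝ, 0 < ε → ‖f z‖ ≤ 2 * r' / (r - r') * (Λ + ε) := by
    intro ε hε
    have h3 := Complex.borelCaratheodory_zero (M := Λ + ε) (by linarith) hf
      (fun w hw => by
        show (f w).re ≤ Λ + ε
        have := hre w hw
        linarith) hr hzr hf0
    refine h3.trans ?_
    have h4 : 0 ≤ ‖z‖ := norm_nonneg z
    rw [div_mul_eq_mul_div]
    apply div_le_div₀ (by positivity) _ hd (by linarith)
    nlinarith [mul_le_mul_of_nonneg_left hz'.le (show 0 ≤ Λ + ε by linarith)]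
  have hk : 0 < 2 * r' / (r - r') := by positivity
  apply le_of_forall_pos_le_add
  intro ε hε
  have h5 := key (ε / (2 * r' / (r - r'))) (by positivity)
  rw [mul_add, mul_div_cancel₀ _ hk.ne'] at h5
  exact h5

theorem log_bound {c r' r R : ℝ} (hc : 0 < c) (h1 : c < r') (h2 : r' < r) (h3 : r < R) :
    ∃ K : ℝ, 0 ≤ K ∧ ∀ (R' M : ℝ) (g L : ℂ → ℂ), R < R' → DifferentiableOn ℂ g (ball 0 R') →
      (∀ z ∈ closedBall (0 : ℂ) R, ‖g z‖ ≤ M) →
      (∀ z ∈ ball (0 : ℂ) R', -c < z.re → g z ≠ 0) →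
      DifferentiableOn ℂ L (ball 0 r' ∩ {z : ℂ | -c < z.re}) →
      (∀ z ∈ ball (0 : ℂ) r', -c < z.re → cexp (L z) = g z) →
      ∃ (n : ℕ) (ρ : Fin n → ℂ), (n : ℝ) ≤ K * Real.log (M / ‖g 0‖) ∧
        (∀ j, ‖ρ j‖ ≤ r ∧ (ρ j).re ≤ -c) ∧
        ∀ z ∈ ball (0 : ℂ) r', -c < z.re →
          ‖L z‖ ≤ ‖L 0‖ + K * Real.log (M / ‖g 0‖) + ∑ j, |Real.log ‖z - ρ j‖| := by
  have hr'0 : 0 < r' := hc.trans h1
  have hr0 : 0 < r := hr'0.trans h2
  have hR0 : 0 < R := hr0.trans h3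
  have hlog : 0 < Real.log (R / r) := Real.log_pos ((one_lt_div hr0).2 h3)
  have hpi := Real.pi_pos
  set K1 : ℝ := Real.pi + (|Real.log c| + |Real.log r| + Real.pi) +
    2 * (|Real.log ((R ^ 2 - r ^ 2) / R)| + |Real.log (2 * R)| + Real.pi) with hK1
  have hK1n : 0 ≤ K1 := by positivity
  have hK2n : 0 ≤ 2 * r' / (r - r') := div_nonneg (by linarith) (by linarith)
  refine ⟨2 * r' / (r - r') + (K1 + 1) / Real.log (R / r),
    add_nonneg hK2n (div_nonneg (by linarith) hlog.le), ?_⟩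
  intro R' M g L hRR hg hM hne hL hexp
  have h00 : (0 : ℂ) ∈ ball (0 : ℂ) R' := mem_ball_self (hR0.trans hRR)
  have hg0 : g 0 ≠ 0 := hne 0 h00 (by rw [Complex.zero_re]; linarith)
  have hg0p : 0 < ‖g 0‖ := norm_pos_iff.2 hg0
  obtain ⟨n, ρ, q, hρ, hq, hgq, hq0, hb, hn⟩ := exists_factor hr0 h3 hRR hg hM hg0
  set Λ : ℝ := Real.log (M / ‖g 0‖) with hΛ
  have hM0 : ‖g 0‖ ≤ M := hM 0 (mem_closedBall_self hR0.le)
  have hΛ0 : 0 ≤ Λ := Real.log_nonneg ((one_le_div hg0p).2 hM0)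
  have hρc : ∀ j, (ρ j).re ≤ -c := by
    intro j
    by_contra hcon
    push Not at hcon
    have hj : ρ j ∈ ball (0 : ℂ) R' := mem_ball_zero_iff.2 (((hρ j).trans_lt h3).trans hRR)
    apply hne (ρ j) hj hcon
    rw [hgq _ hj]
    have : ∏ i, (ρ j - ρ i) = 0 := Finset.prod_eq_zero (Finset.mem_univ j) (sub_self _)
    rw [this, mul_zero]
  have hρn : ∀ j, c ≤ ‖ρ j‖ := by
    intro j
    have h4 := Complex.abs_re_le_norm (ρ j)
    have h5 := neg_le_abs (ρ j).re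
    have := hρc j
    linarith
  have hnΛ : (n : ℝ) ≤ Λ / Real.log (R / r) := (le_div_iff₀ hlog).2 hn
  have hsub : ball (0 : ℂ) r ⊆ closedBall (0 : ℂ) R := fun z hz =>
    mem_closedBall_zero_iff.2 ((mem_ball_zero_iff.1 hz).le.trans h3.le)
  have hsub2 : ball (0 : ℂ) r ⊆ ball (0 : ℂ) R' := ball_subset_ball (by linarith)
  set ζ : Fin n → ℂ → ℂ := fun j z => ((R : ℂ) ^ 2 - conj (ρ j) * z) / (R : ℂ) with hζ
  have hζre : ∀ j, ∀ z ∈ ball (0 : ℂ) r, 0 < (ζ j z).re := fun j z hz =>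
    LocLog_re hr0 h3 (hρ j) (mem_ball_zero_iff.1 hz)
  have hζne : ∀ j, ∀ z ∈ ball (0 : ℂ) r, ζ j z ≠ 0 := by
    intro j z hz h0
    have := hζre j z hz
    rw [h0, Complex.zero_re] at this
    exact lt_irrefl _ this
  have hζd : ∀ j, Differentiable ℂ (ζ j) := by
    intro j
    simp only [hζ]
    fun_prop
  set b : ℂ → ℂ := fun z => q z * ∏ j, ζ j z with hbdef
  have hbd : DifferentiableOn ℂ b (ball 0 r) := by
    refine (hq.mono hsub2).mul ?_
    refine Differentiable.differentiableOn ?_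
    simp only [hζ]
    fun_prop
  have hbne : ∀ z ∈ ball (0 : ℂ) r, b z ≠ 0 := by
    intro z hz
    refine mul_ne_zero (hq0 z (mem_closedBall_zero_iff.2 (mem_ball_zero_iff.1 hz).le)) ?_
    exact Finset.prod_ne_zero_iff.2 fun j _ => hζne j z hz
  obtain ⟨ℓ, hℓ, hℓe⟩ := exists_log isOpen_ball (convex_ball (0 : ℂ) r)
    ⟨0, mem_ball_self hr0⟩ hbd hbne
  have h0r : (0 : ℂ) ∈ ball (0 : ℂ) r := mem_ball_self hr0
  -- the value of `b` at the centre
  have hb0 : ‖g 0‖ ≤ ‖b 0‖ := by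
    rw [hgq 0 h00, hbdef, norm_mul, norm_mul, norm_prod, norm_prod]
    refine mul_le_mul_of_nonneg_left ?_ (norm_nonneg _)
    refine Finset.prod_le_prod (fun j _ => norm_nonneg _) fun j _ => ?_
    have hR1 : (R : ℂ) ≠ 0 := by exact_mod_cast hR0.ne'
    have e1 : ζ j 0 = (R : ℂ) := by
      simp only [hζ]
      rw [mul_zero, sub_zero, sq, mul_div_assoc, div_self hR1, mul_one]
    rw [e1, zero_sub, norm_neg, Complex.norm_real, Real.norm_of_nonneg hR0.le]
    exact (hρ j).trans h3.le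
  have hre : ∀ z, z ∈ ball (0 : ℂ) r → (ℓ z).re = Real.log ‖b z‖ := by
    intro z hz
    rw [← hℓe z hz, Complex.norm_exp, Real.log_exp]
  have hfre : ∀ z ∈ ball (0 : ℂ) r, ((fun z => ℓ z - ℓ 0) z).re ≤ Λ := by
    intro z hz
    show (ℓ z - ℓ 0).re ≤ Λ
    rw [Complex.sub_re, hre z hz, hre 0 h0r, hΛ]
    have h4 : ‖b z‖ ≤ M := hb z (hsub hz)
    have h5 : 0 < ‖b z‖ := norm_pos_iff.2 (hbne z hz)
    have h6 := Real.log_le_log h5 h4
    have h7 := Real.log_le_log hg0p hb0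
    rw [Real.log_div (hg0p.trans_le hM0).ne' hg0p.ne']
    linarith
  have hfd : DifferentiableOn ℂ (fun z => ℓ z - ℓ 0) (ball 0 r) := hℓ.sub_const _
  have hfb : ∀ z ∈ ball (0 : ℂ) r', ‖ℓ z - ℓ 0‖ ≤ 2 * r' / (r - r') * Λ := fun z hz =>
    LocLog_bc hr'0 h2 hΛ0 hfd hfre (sub_self _) hz
  -- the domain
  set D : Set ℂ := ball (0 : ℂ) r' ∩ {z : ℂ | -c < z.re} with hD
  have hDr : D ⊆ ball (0 : ℂ) r := fun z hz => ball_subset_ball h2.le hz.1
  have hDo : IsOpen D := isOpen_ball.inter (isOpen_lt continuous_const Complex.continuous_re)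
  have hDc : Convex ℝ D := (convex_ball (0 : ℂ) r').inter (convex_halfSpace_re_gt (-c))
  have hD0 : (0 : ℂ) ∈ D := ⟨mem_ball_self hr'0, by
    show -c < (0 : ℂ).re
    rw [Complex.zero_re]
    linarith⟩
  have hzρ : ∀ z ∈ D, ∀ j, 0 < (z - ρ j).re := by
    intro z hz j
    rw [Complex.sub_re]
    have h4 : -c < z.re := hz.2
    have := hρc j
    linarith
  have hzne : ∀ z ∈ D, ∀ j, z - ρ j ≠ 0 := by
    intro z hz j h0
    have := hzρ z hz j
    rw [h0, Complex.zero_re] at this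
    exact lt_irrefl _ this
  set H : ℂ → ℂ := fun z => L z - (ℓ z - ℓ 0) - ∑ j, Complex.log (z - ρ j) +
    ∑ j, Complex.log (ζ j z) with hH
  have hHd : DifferentiableOn ℂ H D := by
    refine ((hL.sub (hfd.mono hDr)).sub ?_).add ?_
    · refine DifferentiableOn.fun_sum fun j _ => ?_
      intro z hz
      refine DifferentiableAt.differentiableWithinAt ?_
      exact (differentiableAt_id.sub_const _).clog (Or.inl (hzρ z hz j))
    · refine DifferentiableOn.fun_sum fun j _ => ?_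
      intro z hz
      refine DifferentiableAt.differentiableWithinAt ?_
      exact (hζd j z).clog (Or.inl (hζre j z (hDr hz)))
  have hHe : ∀ z ∈ D, cexp (H z) = cexp (ℓ 0) := by
    intro z hz
    have hzr := hDr hz
    have e1 : cexp (∑ j, Complex.log (z - ρ j)) = ∏ j, (z - ρ j) := by
      rw [Complex.exp_sum]
      exact Finset.prod_congr rfl fun j _ => Complex.exp_log (hzne z hz j)
    have e2 : cexp (∑ j, Complex.log (ζ j z)) = ∏ j, ζ j z := by
      rw [Complex.exp_sum]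
      exact Finset.prod_congr rfl fun j _ => Complex.exp_log (hζne j z hzr)
    have e3 : cexp (L z) = g z := hexp z hz.1 hz.2
    have e4 : cexp (ℓ z) = b z := hℓe z hzr
    have e5 : g z = q z * ∏ j, (z - ρ j) := hgq z (hsub2 hzr)
    have n1 : ∏ j, (z - ρ j) ≠ 0 := Finset.prod_ne_zero_iff.2 fun j _ => hzne z hz j
    have n2 : ∏ j, ζ j z ≠ 0 := Finset.prod_ne_zero_iff.2 fun j _ => hζne j z hzr
    have n3 : q z ≠ 0 := hq0 z (mem_closedBall_zero_iff.2 (mem_ball_zero_iff.1 hzr).le)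
    simp only [hH]
    rw [Complex.exp_add, Complex.exp_sub, Complex.exp_sub, Complex.exp_sub, e1, e2, e3, e4, e5]
    simp only [hbdef]
    have n4 := Complex.exp_ne_zero (ℓ 0)
    field_simp
  refine ⟨n, ρ, ?_, fun j => ⟨hρ j, hρc j⟩, ?_⟩
  · refine hnΛ.trans ?_
    have h4 : 0 ≤ 2 * r' / (r - r') * Λ := mul_nonneg hK2n hΛ0
    have h5 : 0 ≤ K1 * (Λ / Real.log (R / r)) := mul_nonneg hK1n (div_nonneg hΛ0 hlog.le)
    have h6 : (2 * r' / (r - r') + (K1 + 1) / Real.log (R / r)) * Λ =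
        2 * r' / (r - r') * Λ + K1 * (Λ / Real.log (R / r)) + Λ / Real.log (R / r) := by
      ring
    rw [h6]
    linarith
  · intro z hz hzc
    have hzD : z ∈ D := ⟨hz, hzc⟩
    have h4 : H z = H 0 := const_of_exp hDo hDc.isPreconnected hHd hHe hzD hD0
    have h5 : L z = L 0 + (ℓ z - ℓ 0) + ∑ j, (Complex.log (z - ρ j) - Complex.log (0 - ρ j) -
        (Complex.log (ζ j z) - Complex.log (ζ j 0))) := by
      simp only [hH] at h4
      rw [Finset.sum_sub_distrib, Finset.sum_sub_distrib, Finset.sum_sub_distrib]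
      linear_combination h4
    have h6 : ∀ j, ‖Complex.log (z - ρ j) - Complex.log (0 - ρ j) -
        (Complex.log (ζ j z) - Complex.log (ζ j 0))‖ ≤ |Real.log ‖z - ρ j‖| + K1 := by
      intro j
      have a1 := tlog_norm_log (z - ρ j)
      have a2 := tlog_norm_log (0 - ρ j)
      have a3 := tlog_norm_log (ζ j z)
      have a4 := tlog_norm_log (ζ j 0)
      have b2 : |Real.log ‖0 - ρ j‖| ≤ |Real.log c| + |Real.log r| := by
        rw [zero_sub, norm_neg]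
        exact LocLog_abs_log hc (hρn j) (hρ j)
      have hpos : 0 < (R ^ 2 - r ^ 2) / R := div_pos (by nlinarith) hR0
      have b3 : |Real.log ‖ζ j z‖| ≤ |Real.log ((R ^ 2 - r ^ 2) / R)| + |Real.log (2 * R)| :=
        LocLog_abs_log hpos (LocLog_norm hr0 h3 (hρ j) (mem_ball_zero_iff.1 (hDr hzD))).1
          (LocLog_norm hr0 h3 (hρ j) (mem_ball_zero_iff.1 (hDr hzD))).2
      have b4 : |Real.log ‖ζ j 0‖| ≤ |Real.log ((R ^ 2 - r ^ 2) / R)| + |Real.log (2 * R)| :=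
        LocLog_abs_log hpos (LocLog_norm hr0 h3 (hρ j) (mem_ball_zero_iff.1 h0r)).1
          (LocLog_norm hr0 h3 (hρ j) (mem_ball_zero_iff.1 h0r)).2
      have c1 := norm_sub_le (Complex.log (z - ρ j) - Complex.log (0 - ρ j))
        (Complex.log (ζ j z) - Complex.log (ζ j 0))
      have c2 := norm_sub_le (Complex.log (z - ρ j)) (Complex.log (0 - ρ j))
      have c3 := norm_sub_le (Complex.log (ζ j z)) (Complex.log (ζ j 0))
      rw [hK1]
      linarith
    have h7 : ‖∑ j, (Complex.log (z - ρ j) - Complex.log (0 - ρ j) -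
        (Complex.log (ζ j z) - Complex.log (ζ j 0)))‖ ≤ ∑ j, |Real.log ‖z - ρ j‖| + n * K1 := by
      refine (norm_sum_le _ _).trans ((Finset.sum_le_sum fun j _ => h6 j).trans ?_)
      rw [Finset.sum_add_distrib, Finset.sum_const, Finset.card_univ, Fintype.card_fin,
        nsmul_eq_mul]
    have h8 := hfb z hz
    have h9 : (n : ℝ) * K1 ≤ K1 / Real.log (R / r) * Λ := by
      have := mul_le_mul_of_nonneg_right hnΛ hK1n
      calc (n : ℝ) * K1 ≤ Λ / Real.log (R / r) * K1 := this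
        _ = K1 / Real.log (R / r) * Λ := by ring
    have h10 : 0 ≤ Λ / Real.log (R / r) := div_nonneg hΛ0 hlog.le
    have h11 : (2 * r' / (r - r') + (K1 + 1) / Real.log (R / r)) * Λ =
        2 * r' / (r - r') * Λ + K1 / Real.log (R / r) * Λ + Λ / Real.log (R / r) := by
      ring
    rw [h11, h5]
    have d1 := norm_add_le (L 0 + (ℓ z - ℓ 0)) (∑ j, (Complex.log (z - ρ j) -
      Complex.log (0 - ρ j) - (Complex.log (ζ j z) - Complex.log (ζ j 0))))
    have d2 := norm_add_le (L 0) (ℓ z - ℓ 0)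
    linarith

end Pool.Agent.Helper29.MS
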