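import Pool.Agent.Helper29.MS.Base
import Pool.Agent.Helper58.BSD.EMert

/-!
MS-14. Mertens' second theorem with the rate `O(1 / log x)`.

PROOF. `Pool.Agent.Helper32.M3` (Two.lean): `uu n = W n - log log n - (Aa n - log n) / log n`, `Aa_bound`: `|Aa n - log n| ≤ C`,
`uu_dist`: `|uu m - uu n| ≤ (C + 1) (1 / log n - 1 / log m)` for `2 ≤ n ≤ m`. So for `2 ≤ n ≤ m`:
`|(W m - log log m) - (W n - log log n)| ≤ (C + 1) / log n + C / log m + C / log n ≤ (3 C + 1) / log n`.
`psum_eq_W`: `psum (1/p) ⌈x⌉₊ = W (⌈x⌉₊ - 1)`. With `x = e^t`, `n = ⌈e^{t/2}⌉₊ - 1`, `m = ⌈e^t⌉₊ - 1`, `t ≥ T` large: `log n ≥ t / 4`,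
`|log log m - log t| ≤ 4 / t`-type bounds: `e^t - 1 ≤ m ≤ e^t`, so `0 ≤ t - log m ≤ 1 / (e^t - 1)` and
`0 ≤ log t - log log m ≤ 1 / t`, similarly for `n` with `t / 2`; `log t - log (t / 2) = log 2`.
-/

set_option autoImplicit false

namespace Pool.Agent.Helper29.MS

open Filter Topology
open Pool.Agent.Helper58.BSD

private lemma mertRate_log {s : ℝ} (hs : 2 ≤ s) :
    s - 1 / 2 ≤ Real.log ((⌈Real.exp s⌉₊ - 1 : ℕ) : ℝ) ∧
      |Real.log (Real.log ((⌈Real.exp s⌉₊ - 1 : ℕ) : ℝ)) - Real.log s| ≤ 1 / s ∧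
      2 ≤ ⌈Real.exp s⌉₊ - 1 := by
  have hs0 : 0 < s := by linarith
  have he : s + 1 ≤ Real.exp s := Real.add_one_le_exp s
  have hc1 : Real.exp s ≤ ⌈Real.exp s⌉₊ := Nat.le_ceil _
  have hc2 : (⌈Real.exp s⌉₊ : ℝ) < Real.exp s + 1 := Nat.ceil_lt_add_one (Real.exp_pos s).le
  have hc3 : 3 ≤ ⌈Real.exp s⌉₊ := by
    have : (3 : ℝ) ≤ ⌈Real.exp s⌉₊ := by linarith
    exact_mod_cast this
  have hcast : ((⌈Real.exp s⌉₊ - 1 : ℕ) : ℝ) = (⌈Real.exp s⌉₊ : ℝ) - 1 := by
    rw [Nat.cast_sub (by omega), Nat.cast_one]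
  rw [hcast]
  set N : ℝ := (⌈Real.exp s⌉₊ : ℝ) - 1 with hN
  have hN1 : Real.exp s - 1 ≤ N := by linarith
  have hN2 : N ≤ Real.exp s := by linarith
  have he1 : 0 < Real.exp s - 1 := by linarith
  have hlu : Real.log N ≤ s := by
    have h := Real.log_le_log (by linarith) hN2
    rwa [Real.log_exp] at h
  have hll : s - 1 / s ≤ Real.log N := by
    have h1 : Real.log (Real.exp s - 1) ≤ Real.log N := Real.log_le_log he1 hN1
    have h2 : s - Real.log (Real.exp s - 1) ≤ 1 / s := by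
      have h3 : s - Real.log (Real.exp s - 1) = Real.log (Real.exp s / (Real.exp s - 1)) := by
        rw [Real.log_div (Real.exp_pos s).ne' he1.ne', Real.log_exp]
      rw [h3]
      have h4 := Real.log_le_sub_one_of_pos (x := Real.exp s / (Real.exp s - 1))
        (div_pos (Real.exp_pos s) he1)
      refine h4.trans ?_
      have h5 : Real.exp s / (Real.exp s - 1) - 1 = 1 / (Real.exp s - 1) := by
        field_simp
        ring
      rw [h5]
      exact one_div_le_one_div_of_le hs0 (by linarith)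
    linarith
  have h12 : 1 / s ≤ 1 / 2 := one_div_le_one_div_of_le (by norm_num) hs
  have hl1 : s - 1 / 2 ≤ Real.log N := by linarith
  have hl0 : 1 ≤ Real.log N := by linarith
  refine ⟨hl1, ?_, by omega⟩
  have hup : Real.log (Real.log N) ≤ Real.log s := Real.log_le_log (by linarith) hlu
  rw [abs_sub_comm, abs_of_nonneg (by linarith), ← Real.log_div hs0.ne' (by linarith)]
  have h4 := Real.log_le_sub_one_of_pos (x := s / Real.log N) (div_pos hs0 (by linarith))
  refine h4.trans ?_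
  have h5 : s / Real.log N - 1 = (s - Real.log N) / Real.log N := by
    have : Real.log N ≠ 0 := by linarith
    field_simp
  rw [h5]
  have h6 : s - Real.log N ≤ 1 / s := by linarith
  have h7 : 0 ≤ 1 / s := by positivity
  calc (s - Real.log N) / Real.log N ≤ (1 / s) / Real.log N :=
        div_le_div_of_nonneg_right h6 (by linarith)
    _ ≤ (1 / s) / 1 := div_le_div_of_nonneg_left h7 one_pos hl0
    _ = 1 / s := div_one _

theorem mertens_rate : ∃ C T : ℝ, 0 ≤ C ∧ 1 ≤ T ∧ ∀ t : ℝ, T ≤ t →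
    |psum (fun p => (p : ℝ)⁻¹) ⌈Real.exp t⌉₊ - psum (fun p => (p : ℝ)⁻¹) ⌈Real.exp (t / 2)⌉₊ - Real.log 2|
      ≤ C / t := by
  obtain ⟨C, hC, h⟩ := Pool.Agent.Helper32.M3.Aa_bound
  refine ⟨10 * C + 7, 4, by positivity, by norm_num, fun t ht => ?_⟩
  have ht0 : 0 < t := by linarith
  obtain ⟨a1, a2, a3⟩ := mertRate_log (s := t) (by linarith)
  obtain ⟨b1, b2, b3⟩ := mertRate_log (s := t / 2) (by linarith)
  rw [psum_eq_W _ (by omega), psum_eq_W _ (by omega)]
  have hnm : ⌈Real.exp (t / 2)⌉₊ - 1 ≤ ⌈Real.exp t⌉₊ - 1 := by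
    have : ⌈Real.exp (t / 2)⌉₊ ≤ ⌈Real.exp t⌉₊ := Nat.ceil_mono (Real.exp_le_exp.2 (by linarith))
    omega
  set m := ⌈Real.exp t⌉₊ - 1 with hm
  set n := ⌈Real.exp (t / 2)⌉₊ - 1 with hn
  have hd := Pool.Agent.Helper32.M3.uu_dist C hC h n m b3 hnm
  have hlm : t / 2 ≤ Real.log m := by linarith
  have hln : t / 4 ≤ Real.log n := by linarith
  have hm1 := h m (by omega)
  have hn1 := h n (by omega)
  have i1 : 1 / Real.log m ≤ 2 / t := by
    refine (one_div_le_one_div_of_le (by positivity) hlm).trans (le_of_eq ?_)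
    rw [one_div_div]
  have i2 : 1 / Real.log n ≤ 4 / t := by
    refine (one_div_le_one_div_of_le (by positivity) hln).trans (le_of_eq ?_)
    rw [one_div_div]
  have lm0 : 0 < Real.log m := by linarith
  have ln0 : 0 < Real.log n := by linarith
  have j1 : |(Pool.Agent.Helper16.UB.Aa m - Real.log m) / Real.log m| ≤ C * (2 / t) := by
    rw [abs_div, abs_of_pos lm0, div_eq_mul_one_div]
    exact mul_le_mul hm1 i1 (by positivity) hC
  have j2 : |(Pool.Agent.Helper16.UB.Aa n - Real.log n) / Real.log n| ≤ C * (4 / t) := by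
    rw [abs_div, abs_of_pos ln0, div_eq_mul_one_div]
    exact mul_le_mul hn1 i2 (by positivity) hC
  have j3 : |Pool.Agent.Helper32.M3.uu m - Pool.Agent.Helper32.M3.uu n| ≤ (C + 1) * (4 / t) := by
    refine hd.trans (mul_le_mul_of_nonneg_left ?_ (by linarith))
    have : 0 ≤ 1 / Real.log m := by positivity
    linarith
  have j4 : Real.log (t / 2) = Real.log t - Real.log 2 := Real.log_div ht0.ne' (by norm_num)
  rw [j4] at b2
  have j5 : 1 / (t / 2) = 2 / t := one_div_div _ _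
  rw [j5] at b2
  have key : Pool.Agent.Helper16.UB.W m - Pool.Agent.Helper16.UB.W n - Real.log 2 =
      (Pool.Agent.Helper32.M3.uu m - Pool.Agent.Helper32.M3.uu n)
      + (Pool.Agent.Helper16.UB.Aa m - Real.log m) / Real.log m
      - (Pool.Agent.Helper16.UB.Aa n - Real.log n) / Real.log n
      + (Real.log (Real.log m) - Real.log t)
      - (Real.log (Real.log n) - (Real.log t - Real.log 2)) := by
    unfold Pool.Agent.Helper32.M3.uu
    ring
  rw [key]
  have fin : (10 * C + 7) / t = (C + 1) * (4 / t) + C * (2 / t) + C * (4 / t) + 1 / t + 2 / t := by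
    field_simp
    ring
  rw [fin]
  rw [abs_le] at *
  constructor
  · linarith [j3.1, j3.2, j1.1, j1.2, j2.1, j2.2, a2.1, a2.2, b2.1, b2.2]
  · linarith [j3.1, j3.2, j1.1, j1.2, j2.1, j2.2, a2.1, a2.2, b2.1, b2.2]

end Pool.Agent.Helper29.MS
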