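import Pool.Agent.Helper29.MS.Base

/-!
MS-8. Plancherel's theorem for Laplace transforms.

PROOF. `g t = 1_{t > 0} u t e^{-x t}` is in `L¹ ∩ L²` (`|g|² = u² e^{-2 x t}`), as a function `ℝ → ℂ`. Its Fourier transform is
`𝓕 g ξ = ∫ e^{-2 π i t ξ} g t dt = Lap u (x + 2 π ξ i)`. Plancherel for `L¹ ∩ L²` (lemmas of helper6, MR/U06) and the
change of variables `τ = 2 π ξ`.
-/

set_option autoImplicit false

namespace Pool.Agent.Helper29.MS

open Complex Filter Topology MeasureTheory Set Metric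
open Pool.Agent.Helper13.Bsd
open FourierTransform SchwartzMap
open scoped SchwartzMap ContDiff

private lemma flip (f g : ℝ → ℂ) (hf : Integrable f) (hg : Integrable g) :
    ∫ x, 𝓕 f x * g x = ∫ x, f x * 𝓕 g x := by
  have := VectorFourier.integral_fourierIntegral_smul_eq_flip (L := innerₗ ℝ)
    Real.continuous_fourierChar continuous_inner hf hg
  simpa using! this

private lemma cont (f : ℝ → ℂ) (hf : Integrable f) : Continuous (𝓕 f) :=
  VectorFourier.fourierIntegral_continuous (L := innerₗ ℝ) Real.continuous_fourierChar continuous_inner hf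

private lemma fourier_ae (f : ℝ → ℂ) (hfi : Integrable f) (hm : MemLp f 2 (volume : Measure ℝ)) :
    ((𝓕 (hm.toLp f) : Lp ℂ 2 (volume : Measure ℝ)) : ℝ → ℂ) =ᵐ[volume] 𝓕 f := by
  have key : ∀ g : 𝓢(ℝ, ℂ), ∫ x, g x • ((𝓕 (hm.toLp f) : Lp ℂ 2 (volume : Measure ℝ)) : ℝ → ℂ) x
      = ∫ x, g x • 𝓕 f x := by
    intro g
    have h1 : (𝓕 ((hm.toLp f : Lp ℂ 2 (volume : Measure ℝ)) : 𝓢'(ℝ, ℂ))) g =
        ((𝓕 (hm.toLp f) : Lp ℂ 2 (volume : Measure ℝ)) : 𝓢'(ℝ,ℂ)) g := by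
      rw [Lp.fourier_toTemperedDistribution_eq]
    rw [TemperedDistribution.fourier_apply, Lp.toTemperedDistribution_apply,
      Lp.toTemperedDistribution_apply] at h1
    rw [← h1]
    have h2 : ∫ x, (𝓕 g : 𝓢(ℝ, ℂ)) x • ((hm.toLp f : Lp ℂ 2 (volume : Measure ℝ)) : ℝ → ℂ) x
        = ∫ x, (𝓕 g : 𝓢(ℝ, ℂ)) x • f x := by
      apply integral_congr_ae
      filter_upwards [hm.coeFn_toLp] with x hx
      rw [hx]
    rw [h2]
    have h3 := flip g f g.integrable hfi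
    simp only [smul_eq_mul]
    rw [← h3]
    rfl
  refine ae_eq_of_integral_contDiff_smul_eq ?_ ?_ ?_
  · exact (Lp.memLp _).locallyIntegrable (by norm_num)
  · exact (cont f hfi).locallyIntegrable
  · intro g hg hgc
    have hgc' : HasCompactSupport (fun x => ((g x : ℝ) : ℂ)) :=
      hgc.comp_left (g := fun x : ℝ => (x : ℂ)) (by simp)
    have hg' : ContDiff ℝ (∞ : WithTop ℕ∞) (fun x => ((g x : ℝ) : ℂ)) := Complex.ofRealCLM.contDiff.comp hg
    have := key (hgc'.toSchwartzMap hg')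
    simpa using this

private lemma plancherel (f : ℝ → ℂ) (hfi : Integrable f) (hm : MemLp f 2 (volume : Measure ℝ)) :
    Integrable (fun ξ => ‖𝓕 f ξ‖ ^ 2) ∧ ∫ ξ, ‖𝓕 f ξ‖ ^ 2 = ∫ x, ‖f x‖ ^ 2 := by
  have hae := fourier_ae f hfi hm
  have h2 : MemLp (𝓕 f) 2 (volume : Measure ℝ) := (memLp_congr_ae hae).mp (Lp.memLp _)
  refine ⟨h2.integrable_norm_pow (by norm_num), ?_⟩
  have key : ∀ g : Lp ℂ 2 (volume : Measure ℝ), ‖g‖ ^ 2 = ∫ x, ‖g x‖ ^ 2 := by
    intro g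
    have h := L2.inner_def (𝕜 := ℂ) g g
    simp only [inner_self_eq_norm_sq_to_K] at h
    have h' : ((‖g‖ ^ 2 : ℝ) : ℂ) = ((∫ x, ‖g x‖ ^ 2 : ℝ) : ℂ) := by
      rw [← integral_complex_ofReal]
      simpa using! h
    exact_mod_cast h'
  have h3 := key (𝓕 (hm.toLp f))
  have h4 := key (hm.toLp f)
  rw [Lp.norm_fourier_eq, h4] at h3
  rw [integral_congr_ae (show (fun ξ => ‖𝓕 f ξ‖ ^ 2) =ᵐ[volume]
    fun ξ => ‖((𝓕 (hm.toLp f) : Lp ℂ 2 (volume : Measure ℝ)) : ℝ → ℂ) ξ‖ ^ 2 from ?_), ← h3]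
  · apply integral_congr_ae
    filter_upwards [hm.coeFn_toLp] with x hx
    rw [hx]
  · filter_upwards [hae] with x hx
    rw [hx]

theorem planch {u : ℝ → ℝ} (hu : Measurable u) (x : ℝ) (h1 : LapInt u x)
    (h2 : LapInt (fun t => u t ^ 2) (2 * x)) :
    Integrable (fun τ : ℝ => ‖Lap u ((x : ℂ) + (τ : ℂ) * I)‖ ^ 2) ∧
    ∫ τ : ℝ, ‖Lap u ((x : ℂ) + (τ : ℂ) * I)‖ ^ 2 =
      2 * Real.pi * ∫ t in Ioi (0 : ℝ), u t ^ 2 * Real.exp (-(2 * x) * t) := by
  set g : ℝ → ℂ := (Ioi (0 : ℝ)).indicator (fun t => ((u t * Real.exp (-x * t) : ℝ) : ℂ)) with hg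
  have hgi : Integrable g := by
    rw [hg, integrable_indicator_iff measurableSet_Ioi]
    exact h1.ofReal
  have hnorm : ∀ t, ‖g t‖ ^ 2 = (Ioi (0 : ℝ)).indicator (fun t => u t ^ 2 * Real.exp (-(2 * x) * t)) t := by
    intro t
    simp only [hg, indicator_apply]
    split_ifs with ht
    · rw [norm_real, Real.norm_eq_abs, sq_abs, mul_pow, ← Real.exp_nat_mul]
      congr 2
      push_cast
      ring
    · simp
  have hgm : MemLp g 2 (volume : Measure ℝ) := by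
    rw [memLp_two_iff_integrable_sq_norm hgi.aestronglyMeasurable]
    simp_rw [hnorm]
    rw [integrable_indicator_iff measurableSet_Ioi]
    exact h2
  have hF : ∀ ξ : ℝ, 𝓕 g ξ = Lap u ((x : ℂ) + ((2 * Real.pi * ξ : ℝ) : ℂ) * I) := by
    intro ξ
    rw [Real.fourier_eq', Lap]
    have e1 : ∀ t : ℝ, cexp (((-2 * Real.pi * inner ℝ t ξ : ℝ) : ℂ) * I) • g t =
        (Ioi (0 : ℝ)).indicator (fun t : ℝ => (u t : ℂ) * cexp (-((x : ℂ) + ((2 * Real.pi * ξ : ℝ) : ℂ) * I) * t)) t := by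
      intro t
      simp only [hg, indicator_apply]
      split_ifs with ht
      · simp only [smul_eq_mul, RCLike.inner_apply, conj_trivial]
        rw [mul_comm, ofReal_mul (u t), mul_assoc, ofReal_exp, ← Complex.exp_add]
        congr 2
        push_cast
        ring
      · simp
    simp_rw [e1]
    rw [integral_indicator measurableSet_Ioi]
  obtain ⟨p1, p2⟩ := plancherel g hgi hgm
  have hpi : (0 : ℝ) < 2 * Real.pi := by positivity
  set f : ℝ → ℝ := fun τ => ‖Lap u ((x : ℂ) + (τ : ℂ) * I)‖ ^ 2 with hf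
  have e2 : (fun ξ => ‖𝓕 g ξ‖ ^ 2) = fun ξ => f (2 * Real.pi * ξ) := by
    funext ξ
    rw [hF, hf]
  rw [e2] at p1 p2
  have e3 : ∫ t, ‖g t‖ ^ 2 = ∫ t in Ioi (0 : ℝ), u t ^ 2 * Real.exp (-(2 * x) * t) := by
    simp_rw [hnorm]
    rw [integral_indicator measurableSet_Ioi]
  refine ⟨(integrable_comp_mul_left_iff f hpi.ne').mp p1, ?_⟩
  rw [e3] at p2
  rw [← p2, MeasureTheory.Measure.integral_comp_mul_left, abs_of_pos (by positivity), smul_eq_mul]
  field_simp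

end Pool.Agent.Helper29.MS
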